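import Pool.Agent.Helper46.DK.Res

/-!
# DK: the adjoints `f_*`, `f^!`, and conservativity of `f^*`
-/

set_option autoImplicit false

namespace Pool.Agent.Helper46.DK

open CategoryTheory Limits TensorProduct MonoidalCategory Pretriangulated

section

variable {C : Type 1} [Category.{0} C] [Preadditive C] [HasZeroObject C] [HasShift C ℤ]
  [∀ n : ℤ, (shiftFunctor C n).Additive] [Pretriangulated C]
variable {D : Type 1} [Category.{0} D] [Preadditive D] [HasZeroObject D] [HasShift D ℤ]
  [∀ n : ℤ, (shiftFunctor D n).Additive] [Pretriangulated D]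

/-- maps which are bijective on `Hom (G, -)` are isomorphisms -/
lemma isIso_of_bij {G : C} (hs : ∀ Y : C, Nonempty (Y⟦(1 : ℤ)⟧ ≅ Y)) (hL : ∀ Y : C, Loc G Y)
    {P N : C} (u : P ⟶ N) (h : Function.Bijective fun f : G ⟶ P => f ≫ u) : IsIso u := by
  obtain ⟨Z, i, δ, hT⟩ := distinguished_cocone_triangle u
  have h1 : ∀ f : G ⟶ Z, f = 0 := cone_orth (hs G) hT h
  have h2 : IsZero Z := by
    rw [IsZero.iff_id_eq_zero]
    exact hL Z _ (orth_isLocz hs Z) h1 (𝟙 Z)
  exact (Triangle.isZero₃_iff_isIso₁ _ hT).1 h2

/-- the right adjoint of a functor which preserves the compact generator preserves coproducts -/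
lemma rightAdjoint_pres [∀ ι : Type, HasCoproductsOfShape ι C]
    [∀ ι : Type, HasCoproductsOfShape ι D] {G0 : C} (hs : ∀ Y : C, Nonempty (Y⟦(1 : ℤ)⟧ ≅ Y))
    (hL : ∀ Y : C, Loc G0 Y) (hG : IsCompactObj G0) {F : C ⥤ D} {G : D ⥤ C} (adj : F ⊣ G)
    [F.Additive] [G.Additive] (hFG : IsCompactObj (F.obj G0)) (ι : Type) :
    PreservesColimitsOfShape (Discrete ι) G := by
  classical
  have key : ∀ Y : ι → D, PreservesColimit (Discrete.functor Y) G := by
    intro Y
    have hb : Function.Bijective
        fun f : G0 ⟶ (∐ fun i => G.obj (Y i)) => f ≫ sigmaComparison G Y := by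
      have hc := coproductIsCoproduct Y
      have hc' := coproductIsCoproduct fun i => G.obj (Y i)
      constructor
      · have h0 : ∀ f : G0 ⟶ (∐ fun i => G.obj (Y i)), f ≫ sigmaComparison G Y = 0 → f = 0 := by
          intro f hf
          obtain ⟨s, b, hb⟩ := (compact_iff G0).1 hG ι _ _ hc' f
          change f = ∑ i ∈ s, b i ≫ Sigma.ι (fun i => G.obj (Y i)) i at hb
          rw [hb] at hf ⊢
          refine Finset.sum_eq_zero fun j hj => ?_
          have h1 : (∑ i ∈ s, b i ≫ Sigma.ι (fun i => G.obj (Y i)) i) ≫ sigmaComparison G Y ≫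
              G.map (prj hc j) = b j := by
            rw [Preadditive.sum_comp, Finset.sum_eq_single_of_mem j hj]
            · rw [Category.assoc, ι_comp_sigmaComparison_assoc, ← G.map_comp]
              have h2 : Sigma.ι Y j ≫ prj hc j = 𝟙 _ := inj_prj hc j
              rw [h2, G.map_id, Category.comp_id]
            · intro i _ hij
              rw [Category.assoc, ι_comp_sigmaComparison_assoc, ← G.map_comp]
              have h2 : Sigma.ι Y i ≫ prj hc j = 0 := inj_prj_ne hc hij
              rw [h2, G.map_zero, comp_zero]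
          rw [← Category.assoc, hf, zero_comp] at h1
          rw [← h1, zero_comp]
        intro f g hfg
        change f ≫ _ = g ≫ _ at hfg
        rw [← sub_eq_zero]
        apply h0
        rw [Preadditive.sub_comp, hfg, sub_self]
      · intro f
        obtain ⟨s, a, ha⟩ := (compact_iff (F.obj G0)).1 hFG ι _ _ hc ((adj.homEquiv _ _).symm f)
        change (adj.homEquiv _ _).symm f = ∑ i ∈ s, a i ≫ Sigma.ι Y i at ha
        refine ⟨∑ i ∈ s, adj.homEquiv _ _ (a i) ≫ Sigma.ι (fun i => G.obj (Y i)) i, ?_⟩
        change (∑ i ∈ s, adj.homEquiv _ _ (a i) ≫ Sigma.ι (fun i => G.obj (Y i)) i) ≫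
          sigmaComparison G Y = f
        rw [(Equiv.symm_apply_eq (adj.homEquiv _ _)).1 ha, adj.homEquiv_unit, G.map_sum,
          Preadditive.sum_comp, Preadditive.comp_sum]
        refine Finset.sum_congr rfl fun i _ => ?_
        rw [Category.assoc, ι_comp_sigmaComparison, adj.homEquiv_unit, Category.assoc, G.map_comp]
    have : IsIso (sigmaComparison G Y) := isIso_of_bij hs hL _ hb
    exact PreservesCoproduct.of_iso_comparison G Y
  exact preservesColimitsOfShape_of_discrete G

/-- a triangulated functor which reflects zero objects is conservative -/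
lemma conservative_of_zero (F : C ⥤ D) [F.CommShift ℤ] [F.IsTriangulated]
    (h : ∀ Z : C, IsZero (F.obj Z) → IsZero Z) : F.ReflectsIsomorphisms where
  reflects {X Y} f hf := by
    obtain ⟨Z, i, δ, hT⟩ := distinguished_cocone_triangle f
    have h1 := F.map_distinguished _ hT
    have h2 : IsZero Z := h Z ((Triangle.isZero₃_iff_isIso₁ _ h1).2 hf)
    exact (Triangle.isZero₃_iff_isIso₁ _ hT).1 h2

end

section

variable (R S : Type) [CommRing R] [CommRing S] [Algebra R S] [CharP R 2] [CharP S 2]

/-- `f^*` is conservative for faithfully flat ring maps -/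
theorem tbc_conservative [Module.FaithfullyFlat R S] : (tbc R S).ReflectsIsomorphisms := by
  apply conservative_of_zero
  intro Z hZ
  apply isZero_of_acyc
  have h1 : IsZero ((io S).obj ((tbc R S).obj Z)) := (io S).map_isZero hZ
  have h2 : Acyc S ((q S).obj (bcO R S ((io R).obj Z).as)) := by
    rw [acyc_iff]
    exact fun f => h1.eq_of_tgt _ _
  rw [acyc_iff'] at h2
  have h3 : Function.Exact (((io R).obj Z).as.d.lTensor S) (((io R).obj Z).as.d.lTensor S) := by
    intro x
    constructor
    · intro hx
      exact h2 x hx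
    · rintro ⟨y, rfl⟩
      exact (bcO R S ((io R).obj Z).as).dd y
  have h4 := Module.FaithfullyFlat.lTensor_reflects_exact R S _ _ h3
  exact (acyc_iff' ((io R).obj Z).as).2 fun x hx => (h4 x).1 hx

end

end Pool.Agent.Helper46.DK
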