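import Pool.Agent.Helper46.DK.KMon

/-!
# DK: base change
-/

set_option autoImplicit false

namespace Pool.Agent.Helper46.DK

open CategoryTheory TensorProduct MonoidalCategory

variable (R S : Type) [CommRing R] [CommRing S] [Algebra R S]

/-- `S ⊗ M` -/
noncomputable abbrev bcO (M : DM R) : DM S where
  X := S ⊗[R] M.X
  d := M.d.baseChange S
  dd x := by
    induction x with
    | zero => simp
    | tmul a b => simp
    | add a b ha hb => rw [map_add, map_add, ha, hb, add_zero]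

/-- the functor `S ⊗ -` -/
noncomputable def bc : DM R ⥤ DM S where
  obj M := bcO R S M
  map {M N} f :=
    { f := f.f.baseChange S
      comm := fun x => by
        change S ⊗[R] M.X at x
        induction x with
        | zero => simp
        | tmul a b => simp
        | add a b ha hb => rw [map_add, map_add, map_add, map_add, ha, hb] }
  map_id M := DHom.ext (LinearMap.baseChange_id)
  map_comp f g := DHom.ext (LinearMap.baseChange_comp _ _)

variable {R S}

lemma bc_tmul {M N : DM R} (f : M ⟶ N) (s : S) (m : M.X) :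
    ((bc R S).map f).f (s ⊗ₜ[R] m : S ⊗[R] M.X) = (s ⊗ₜ[R] f.f m : S ⊗[R] N.X) := rfl

lemma bc_ext {M : DM R} {N : DM S} {f g : (bcO R S M) ⟶ N}
    (h : ∀ m : M.X, f.f ((1 : S) ⊗ₜ[R] m) = g.f ((1 : S) ⊗ₜ[R] m)) : f = g := by
  apply hom_ext
  intro x
  change S ⊗[R] M.X at x
  induction x with
  | zero => rw [map_zero, map_zero]
  | tmul s m =>
    have h1 : (s ⊗ₜ[R] m : S ⊗[R] M.X) = s • ((1 : S) ⊗ₜ[R] m) := by
      rw [TensorProduct.smul_tmul', smul_eq_mul, mul_one]
    rw [h1, map_smul, map_smul, h]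
  | add a b ha hb => rw [map_add, map_add, ha, hb]

instance : (bc R S).Additive where
  map_add {M N f g} := bc_ext fun m => by
    change (1 : S) ⊗ₜ[R] (f.f m + g.f m) = (1 : S) ⊗ₜ[R] f.f m + (1 : S) ⊗ₜ[R] g.f m
    rw [tmul_add]

lemma bc_htpy {M N : DM R} (f g : M ⟶ N) (h : htpy R f g) :
    htpy S ((bc R S).map f) ((bc R S).map g) := by
  obtain ⟨h, hh⟩ := h
  refine ⟨h.baseChange S, fun x => ?_⟩
  change S ⊗[R] M.X at x
  change f.f.baseChange S x = g.f.baseChange S x +
    (N.d.baseChange S (h.baseChange S x) + h.baseChange S (M.d.baseChange S x))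
  induction x with
  | zero => simp
  | tmul s m =>
    change s ⊗ₜ[R] f.f m = s ⊗ₜ[R] g.f m + (s ⊗ₜ[R] N.d (h m) + s ⊗ₜ[R] h (M.d m))
    rw [hh, tmul_add, tmul_add]
  | add a b ha hb =>
    simp only [map_add] at ha hb ⊢
    rw [ha, hb]
    abel

variable [CharP R 2] [CharP S 2]

lemma bc_ext₂ {M N : DM R} {P : DM S} {f g : (bcO R S (tens M N)) ⟶ P}
    (h : ∀ (m : M.X) (n : N.X), f.f ((1 : S) ⊗ₜ[R] (m ⊗ₜ[R] n)) =
      g.f ((1 : S) ⊗ₜ[R] (m ⊗ₜ[R] n))) : f = g := by
  apply bc_ext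
  intro x
  change M.X ⊗[R] N.X at x
  induction x with
  | zero => rw [tmul_zero, map_zero, map_zero]
  | tmul a b => exact h a b
  | add a b ha hb => rw [tmul_add, map_add, map_add, ha, hb]

lemma bc_ext₃ {M N Q : DM R} {P : DM S} {f g : (bcO R S (tens M (tens N Q))) ⟶ P}
    (h : ∀ (m : M.X) (n : N.X) (q : Q.X), f.f ((1 : S) ⊗ₜ[R] (m ⊗ₜ[R] (n ⊗ₜ[R] q))) =
      g.f ((1 : S) ⊗ₜ[R] (m ⊗ₜ[R] (n ⊗ₜ[R] q)))) : f = g := by
  apply bc_ext₂
  intro m x
  change N.X ⊗[R] Q.X at x
  induction x with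
  | zero => rw [tmul_zero, tmul_zero, map_zero, map_zero]
  | tmul a b => exact h m a b
  | add a b ha hb => rw [tmul_add, tmul_add, map_add, map_add, ha, hb]

/-- the unit -/
noncomputable def bcε : zd S S ≅ bcO R S (zd R R) :=
  mkIso (TensorProduct.AlgebraTensorModule.rid R S S).symm fun x => by
    change _ = (0 : R →ₗ[R] R).baseChange S _
    rw [LinearMap.baseChange_zero]
    exact map_zero _

/-- the tensor product -/
noncomputable def bcμ (M N : DM R) : bcO R S (tens M N) ≅ tens (bcO R S M) (bcO R S N) :=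
  mkIso (TensorProduct.AlgebraTensorModule.distribBaseChange R S M.X N.X) fun x => by
    change S ⊗[R] (M.X ⊗[R] N.X) at x
    induction x with
    | zero => rw [map_zero, map_zero, map_zero]
    | tmul s x =>
      induction x with
      | zero => rw [tmul_zero, map_zero, map_zero, map_zero]
      | tmul m n =>
        change TensorProduct.AlgebraTensorModule.distribBaseChange R S M.X N.X
          (s ⊗ₜ[R] (M.d m ⊗ₜ[R] n + m ⊗ₜ[R] N.d n)) =
          (s ⊗ₜ[R] M.d m) ⊗ₜ[S] ((1 : S) ⊗ₜ[R] n) + (s ⊗ₜ[R] m) ⊗ₜ[S] ((1 : S) ⊗ₜ[R] N.d n)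
        rw [tmul_add, map_add]
        rfl
      | add x y hx hy =>
        simp only [map_add, tmul_add] at hx hy ⊢
        rw [hx, hy]
    | add x y hx hy =>
      simp only [map_add] at hx hy ⊢
      rw [hx, hy]

lemma bcμ_one (M N : DM R) (m : M.X) (n : N.X) :
    (bcμ (S := S) M N).hom.f ((1 : S) ⊗ₜ[R] (m ⊗ₜ[R] n)) =
      ((1 : S) ⊗ₜ[R] m) ⊗ₜ[S] ((1 : S) ⊗ₜ[R] n) := rfl

/-- `S ⊗ -` is strong monoidal -/
noncomputable instance : (bc R S).Monoidal :=
  Functor.CoreMonoidal.toMonoidal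
    (.mk'
      (εIso := bcε)
      (μIso := fun M N => (bcμ M N).symm)
      (μIso_inv_natural_left := fun {M M'} g N => bc_ext₂ fun m n => rfl)
      (μIso_inv_natural_right := fun {N N'} M g => bc_ext₂ fun m n => rfl)
      (oplax_associativity := fun M N P => by
        rw [← cancel_epi ((bc R S).map (α_ M N P).inv)]
        exact bc_ext₃ fun m n p => rfl)
      (oplax_left_unitality := fun M => bc_ext fun m => by
        change (1 : S) ⊗ₜ[S] ((1 : S) ⊗ₜ[R] m) = ((1 : R) • (1 : S)) ⊗ₜ[S] ((1 : S) ⊗ₜ[R] m)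
        rw [one_smul])
      (oplax_right_unitality := fun M => bc_ext fun m => by
        change ((1 : S) ⊗ₜ[R] m) ⊗ₜ[S] (1 : S) = ((1 : S) ⊗ₜ[R] m) ⊗ₜ[S] ((1 : R) • (1 : S))
        rw [one_smul]))

noncomputable instance : (bc R S).Braided where
  braided M N := by
    rw [← cancel_epi (Functor.Monoidal.μIso (bc R S) M N).inv]
    exact bc_ext₂ fun m n => rfl

end Pool.Agent.Helper46.DK
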