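import Pool.Agent.Helper46.DK.Loc

/-!
# DK: Brown representability
-/

set_option autoImplicit false

namespace Pool.Agent.Helper46.DK

open CategoryTheory Limits Pretriangulated

section

variable {C : Type 1} [Category.{0} C] [Preadditive C] [HasZeroObject C] [HasShift C ℤ]
  [∀ n : ℤ, (shiftFunctor C n).Additive] [Pretriangulated C]
variable {D : Type 1} [Category.{0} D] [Preadditive D] [HasZeroObject D] [HasShift D ℤ]
  [∀ n : ℤ, (shiftFunctor D n).Additive] [Pretriangulated D]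
variable (F : C ⥤ D) [F.CommShift ℤ] [F.IsTriangulated]

lemma coh_exact (X : D) (T : Triangle C) (hT : T ∈ distTriang C) (y : F.obj T.obj₂ ⟶ X)
    (hy : F.map T.mor₁ ≫ y = 0) : ∃ z : F.obj T.obj₃ ⟶ X, y = F.map T.mor₂ ≫ z :=
  Triangle.yoneda_exact₂ _ (F.map_distinguished T hT) y hy

lemma coh_exact₃ (X : D) (T : Triangle C) (hT : T ∈ distTriang C) (y : F.obj T.obj₃ ⟶ X)
    (hy : F.map T.mor₂ ≫ y = 0) : ∃ z : F.obj (T.obj₁⟦(1 : ℤ)⟧) ⟶ X, y = F.map T.mor₃ ≫ z :=
  coh_exact F X _ (rot_of_distTriang _ hT) y hy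

lemma coh_exact₁ (X : D) (T : Triangle C) (hT : T ∈ distTriang C)
    (y : F.obj (T.obj₁⟦(1 : ℤ)⟧) ⟶ X)
    (hy : F.map T.mor₃ ≫ y = 0) :
    ∃ z : F.obj (T.obj₂⟦(1 : ℤ)⟧) ⟶ X, y = F.map (T.mor₁⟦(1 : ℤ)⟧') ≫ z := by
  obtain ⟨z, hz⟩ := coh_exact F X _ (rot_of_distTriang _ (rot_of_distTriang _ hT)) y hy
  change F.obj (T.obj₂⟦(1 : ℤ)⟧) ⟶ X at z
  change y = F.map (-(T.mor₁⟦(1 : ℤ)⟧')) ≫ z at hz
  refine ⟨-z, ?_⟩
  rw [hz, Functor.map_neg, Preadditive.neg_comp, Preadditive.comp_neg]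

omit [HasZeroObject C] [HasShift C ℤ] [∀ n : ℤ, (shiftFunctor C n).Additive] [Pretriangulated C]
  [HasZeroObject D] [HasShift D ℤ] [∀ n : ℤ, (shiftFunctor D n).Additive] [Pretriangulated D]
  [F.CommShift ℤ] [F.IsTriangulated] in
lemma ext_of_pres [∀ ι : Type, PreservesColimitsOfShape (Discrete ι) F] {ι : Type} {Y : ι → C}
    (c : Cofan Y) (hc : IsColimit c) {X : D} {f g : F.obj c.pt ⟶ X}
    (h : ∀ i, F.map (c.inj i) ≫ f = F.map (c.inj i) ≫ g) : f = g :=
  (isColimitOfPreserves F hc).hom_ext fun ⟨i⟩ => h i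

omit [HasZeroObject C] [HasShift C ℤ] [∀ n : ℤ, (shiftFunctor C n).Additive] [Pretriangulated C]
  [HasZeroObject D] [HasShift D ℤ] [∀ n : ℤ, (shiftFunctor D n).Additive] [Pretriangulated D]
  [F.CommShift ℤ] [F.IsTriangulated] in
lemma desc_of_pres [∀ ι : Type, PreservesColimitsOfShape (Discrete ι) F] {ι : Type} {Y : ι → C}
    (c : Cofan Y) (hc : IsColimit c) {X : D} (y : ∀ i, F.obj (Y i) ⟶ X) :
    ∃ f : F.obj c.pt ⟶ X, ∀ i, F.map (c.inj i) ≫ f = y i :=
  ⟨(isColimitOfPreserves F hc).desc (Cocone.mk X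
    { app := fun j => y j.as
      naturality := by
        rintro ⟨i⟩ ⟨j⟩ ⟨⟨h⟩⟩
        change i = j at h
        subst h
        change F.map ((Discrete.functor Y).map (𝟙 _)) ≫ y i = y i ≫ 𝟙 _
        rw [CategoryTheory.Functor.map_id, CategoryTheory.Functor.map_id, Category.comp_id]
        exact Category.id_comp _ }),
    fun i => (isColimitOfPreserves F hc).fac _ ⟨i⟩⟩

/-- the class of objects where the universal property holds -/
def BB {P : C} {X : D} (x : F.obj P ⟶ X) : ObjectProperty C :=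
  fun Y => Function.Bijective fun f : Y ⟶ P => F.map f ≫ x

variable {F}

lemma BB_isLocz [∀ ι : Type, PreservesColimitsOfShape (Discrete ι) F]
    (hs : ∀ Y : C, Nonempty (Y⟦(1 : ℤ)⟧ ≅ Y)) {P : C} {X : D} (x : F.obj P ⟶ X) :
    IsLocz (BB F x) := by
  have hiso : ∀ {Y Y' : C}, (Y ≅ Y') → BB F x Y → BB F x Y' := by
    intro Y Y' e h
    refine ⟨fun f g hfg => ?_, fun y => ?_⟩
    · have : e.hom ≫ f = e.hom ≫ g := h.1 (by
        change F.map (e.hom ≫ f) ≫ x = F.map (e.hom ≫ g) ≫ x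
        change F.map f ≫ x = F.map g ≫ x at hfg
        rw [F.map_comp, F.map_comp, Category.assoc, Category.assoc, hfg])
      exact (cancel_epi _).1 this
    · obtain ⟨f, hf⟩ := h.2 (F.map e.hom ≫ y)
      refine ⟨e.inv ≫ f, ?_⟩
      change F.map f ≫ x = _ at hf
      change F.map (e.inv ≫ f) ≫ x = _
      rw [F.map_comp, Category.assoc, hf, ← Category.assoc, ← F.map_comp, e.inv_hom_id, F.map_id,
        Category.id_comp]
  have inj : ∀ {Y : C}, BB F x Y → ∀ f : Y ⟶ P, F.map f ≫ x = 0 → f = 0 := by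
    intro Y h f hf
    apply h.1
    change F.map f ≫ x = F.map 0 ≫ x
    rw [hf, F.map_zero, zero_comp]
  refine ⟨hiso, ?_, ?_⟩
  · intro T hT h1 h2
    have h1' : BB F x (T.obj₁⟦(1 : ℤ)⟧) := hiso (hs _).some.symm h1
    have h2' : BB F x (T.obj₂⟦(1 : ℤ)⟧) := hiso (hs _).some.symm h2
    have key : ∀ f : T.obj₃ ⟶ P, F.map f ≫ x = 0 → f = 0 := by
      intro f hf
      have e1 : T.mor₂ ≫ f = 0 := inj h2 _ (by rw [F.map_comp, Category.assoc, hf, comp_zero])
      obtain ⟨g, rfl⟩ := Triangle.yoneda_exact₃ _ hT f e1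
      rw [F.map_comp, Category.assoc] at hf
      obtain ⟨z, hz⟩ := coh_exact₁ F X T hT _ hf
      obtain ⟨k, hk⟩ := h2'.2 z
      change F.map k ≫ x = z at hk
      rw [← hk, ← Category.assoc, ← F.map_comp] at hz
      have : g = T.mor₁⟦(1 : ℤ)⟧' ≫ k := h1'.1 hz
      rw [this, ← Category.assoc, comp_distTriang_mor_zero₃₁ _ hT, zero_comp]
    refine ⟨fun f g hfg => ?_, fun y => ?_⟩
    · change F.map f ≫ x = F.map g ≫ x at hfg
      rw [← sub_eq_zero]
      apply key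
      rw [F.map_sub, Preadditive.sub_comp, hfg, sub_self]
    · obtain ⟨a, ha⟩ := h2.2 (F.map T.mor₂ ≫ y)
      change F.map a ≫ x = _ at ha
      have e1 : T.mor₁ ≫ a = 0 := inj h1 _ (by
        rw [F.map_comp, Category.assoc, ha, ← Category.assoc, ← F.map_comp,
          comp_distTriang_mor_zero₁₂ _ hT, F.map_zero, zero_comp])
      obtain ⟨b, rfl⟩ := Triangle.yoneda_exact₂ _ hT a e1
      obtain ⟨z, hz⟩ := coh_exact₃ F X T hT (y - F.map b ≫ x) (by
        rw [Preadditive.comp_sub, ← ha, F.map_comp, Category.assoc, sub_self])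
      obtain ⟨c, hc⟩ := h1'.2 z
      change F.map c ≫ x = z at hc
      refine ⟨b + T.mor₃ ≫ c, ?_⟩
      change F.map (b + T.mor₃ ≫ c) ≫ x = y
      rw [F.map_add, Preadditive.add_comp, F.map_comp, Category.assoc, hc, ← hz, add_sub_cancel]
  · intro ι Y c hc h
    refine ⟨fun f g hfg => ?_, fun y => ?_⟩
    · change F.map f ≫ x = F.map g ≫ x at hfg
      refine hc.hom_ext fun ⟨i⟩ => (h i).1 ?_
      change F.map (c.inj i ≫ f) ≫ x = F.map (c.inj i ≫ g) ≫ x
      rw [F.map_comp, F.map_comp, Category.assoc, Category.assoc, hfg]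
    · choose a ha using fun i => (h i).2 (F.map (c.inj i) ≫ y)
      refine ⟨Cofan.IsColimit.desc hc a, ext_of_pres F c hc fun i => ?_⟩
      rw [← ha i, ← Category.assoc, ← F.map_comp, Cofan.IsColimit.fac]

variable (F)

/-- stages -/
structure Stg (X : D) where
  P : C
  x : F.obj P ⟶ X

variable [∀ ι : Type, HasCoproductsOfShape ι C]
  [∀ ι : Type, PreservesColimitsOfShape (Discrete ι) F]

lemma exists_next (G : C) {X : D} (S : Stg F X) : ∃ (S' : Stg F X) (i : S.P ⟶ S'.P),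
    F.map i ≫ S'.x = S.x ∧ (∀ g : G ⟶ S.P, F.map g ≫ S.x = 0 → g ≫ i = 0) ∧
    (Loc G S.P → Loc G S'.P) := by
  let K := {g : G ⟶ S.P // F.map g ≫ S.x = 0}
  let k : (∐ fun _ : K => G) ⟶ S.P := Sigma.desc fun g => g.1
  obtain ⟨Z, i, δ, hT⟩ := distinguished_cocone_triangle k
  have h1 : F.map k ≫ S.x = 0 := by
    apply ext_of_pres F _ (coproductIsCoproduct fun _ : K => G)
    intro g
    change F.map (Sigma.ι (fun _ : K => G) g) ≫ F.map k ≫ S.x = _
    rw [← Category.assoc, ← F.map_comp, comp_zero, Sigma.ι_desc]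
    exact g.2
  obtain ⟨z, hz⟩ := coh_exact F X _ hT S.x h1
  refine ⟨⟨Z, z⟩, i, hz.symm, fun g hg => ?_, fun h => ?_⟩
  · have h2 : Sigma.ι (fun _ : K => G) ⟨g, hg⟩ ≫ k = g := Sigma.ι_desc _ _
    have h3 : k ≫ i = 0 := comp_distTriang_mor_zero₁₂ _ hT
    rw [← h2, Category.assoc, h3, comp_zero]
  · exact (loc_isLocz G).cone _ hT ((loc_isLocz G).sum _ (coproductIsCoproduct fun _ : K => G)
      fun _ => loc_self G) h

/-- the next stage -/
noncomputable def nxt (G : C) {X : D} (S : Stg F X) : Stg F X := (exists_next F G S).choose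

/-- the first stage -/
noncomputable def stg0 (G : C) (X : D) : Stg F X where
  P := ∐ fun _ : (F.obj G ⟶ X) => G
  x := (desc_of_pres F _ (coproductIsCoproduct fun _ : (F.obj G ⟶ X) => G) fun y => y).choose

/-- the sequence -/
noncomputable def sq (G : C) (X : D) (n : ℕ) : Stg F X := (nxt F G)^[n] (stg0 F G X)

lemma sq_succ (G : C) (X : D) (n : ℕ) : sq F G X (n + 1) = nxt F G (sq F G X n) :=
  Function.iterate_succ_apply' _ _ _

/-- Brown representability for `Hom (F Y, X)`, `Y` in the localizing class of a compact object -/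
theorem brown (G : C) (hG : IsCompactObj G) (hs : ∀ Y : C, Nonempty (Y⟦(1 : ℤ)⟧ ≅ Y)) (X : D) :
    ∃ (P : C) (x : F.obj P ⟶ X), Loc G P ∧ ∀ Y, Loc G Y → BB F x Y := by
  have hstep : ∀ n, ∃ i : (sq F G X n).P ⟶ (sq F G X (n + 1)).P,
      F.map i ≫ (sq F G X (n + 1)).x = (sq F G X n).x ∧
      (∀ g : G ⟶ (sq F G X n).P, F.map g ≫ (sq F G X n).x = 0 → g ≫ i = 0) ∧
      (Loc G (sq F G X n).P → Loc G (sq F G X (n + 1)).P) := by
    intro n
    rw [sq_succ]
    exact (exists_next F G (sq F G X n)).choose_spec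
  choose i hi1 hi2 hi3 using hstep
  have hL : ∀ n, Loc G (sq F G X n).P := by
    intro n
    induction n with
    | zero => exact (loc_isLocz G).sum _ (coproductIsCoproduct _) fun _ => loc_self G
    | succ n ih => exact hi3 n ih
  have h0 : ∀ y : F.obj G ⟶ X, ∃ g : G ⟶ (sq F G X 0).P, F.map g ≫ (sq F G X 0).x = y := fun y =>
    ⟨Sigma.ι (fun _ : (F.obj G ⟶ X) => G) y, (desc_of_pres F _
      (coproductIsCoproduct fun _ : (F.obj G ⟶ X) => G) fun y => y).choose_spec y⟩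
  obtain ⟨Z, t, δ, hT⟩ := distinguished_cocone_triangle
    (𝟙 (∐ fun n => (sq F G X n).P) - shf _ i)
  obtain ⟨w, hw⟩ := desc_of_pres F _ (coproductIsCoproduct fun n => (sq F G X n).P)
    fun n => (sq F G X n).x
  change ∀ n, F.map (Sigma.ι _ n) ≫ w = _ at hw
  have h1 : F.map (𝟙 (∐ fun n => (sq F G X n).P) - shf _ i) ≫ w = 0 := by
    apply ext_of_pres F _ (coproductIsCoproduct fun n => (sq F G X n).P)
    intro n
    change F.map (Sigma.ι _ n) ≫ _ = _
    rw [comp_zero, ← Category.assoc, ← F.map_comp, Preadditive.comp_sub, Category.comp_id, ι_shf,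
      F.map_sub, Preadditive.sub_comp, hw, F.map_comp, Category.assoc, hw, hi1, sub_self]
  obtain ⟨x, hx⟩ := coh_exact F X _ hT w h1
  change F.obj Z ⟶ X at x
  change w = F.map t ≫ x at hx
  have hLZ : Loc G Z := (loc_isLocz G).cone _ hT
    ((loc_isLocz G).sum _ (coproductIsCoproduct _) hL)
    ((loc_isLocz G).sum _ (coproductIsCoproduct _) hL)
  have hBG : BB F x G := by
    have key : ∀ f : G ⟶ Z, F.map f ≫ x = 0 → f = 0 := by
      intro f hf
      obtain ⟨M, g, rfl⟩ := tel_fac hG (hs G) hT f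
      have h2 : F.map g ≫ (sq F G X M).x = 0 := by
        rw [← hw, hx, ← hf]
        simp only [Functor.map_comp, Category.assoc]
      have h3 := hi2 M g h2
      have h4 : Sigma.ι _ M ≫ t = i M ≫ Sigma.ι (fun n => (sq F G X n).P) (M + 1) ≫ t := by
        have h5 : (𝟙 (∐ fun n => (sq F G X n).P) - shf _ i) ≫ t = 0 :=
          comp_distTriang_mor_zero₁₂ _ hT
        rw [Preadditive.sub_comp, Category.id_comp, sub_eq_zero] at h5
        rw [← Category.assoc (i M), ← ι_shf, Category.assoc, ← h5]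
      rw [h4, ← Category.assoc, h3, zero_comp]
    refine ⟨fun f g hfg => ?_, fun y => ?_⟩
    · change F.map f ≫ x = F.map g ≫ x at hfg
      rw [← sub_eq_zero]
      apply key
      rw [F.map_sub, Preadditive.sub_comp, hfg, sub_self]
    · obtain ⟨g, hg⟩ := h0 y
      refine ⟨g ≫ Sigma.ι (fun n => (sq F G X n).P) 0 ≫ t, ?_⟩
      change F.map (g ≫ Sigma.ι (fun n => (sq F G X n).P) 0 ≫ t) ≫ x = y
      rw [F.map_comp, F.map_comp, Category.assoc, Category.assoc, ← hx, hw, hg]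
  exact ⟨Z, x, hLZ, fun Y hY => hY _ (BB_isLocz hs x) hBG⟩

/-- right adjoints of triangulated functors which preserve coproducts -/
theorem exists_rightAdjoint (G : C) (hG : IsCompactObj G)
    (hs : ∀ Y : C, Nonempty (Y⟦(1 : ℤ)⟧ ≅ Y)) (hL : ∀ Y : C, Loc G Y) :
    ∃ R : D ⥤ C, Nonempty (F ⊣ R) := by
  choose P x hP hB using brown F G hG hs
  let e : ∀ (Y : C) (X : D), (F.obj Y ⟶ X) ≃ (Y ⟶ P X) := fun Y X =>
    (Equiv.ofBijective (fun f : Y ⟶ P X => F.map f ≫ x X) (hB X Y (hL Y))).symm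
  have he : ∀ (Y' Y : C) (X : D) (f : Y' ⟶ Y) (g : F.obj Y ⟶ X),
      e Y' X (F.map f ≫ g) = f ≫ e Y X g := by
    intro Y' Y X f g
    rw [Equiv.symm_apply_eq]
    change _ = F.map (f ≫ e Y X g) ≫ x X
    rw [F.map_comp, Category.assoc]
    congr 1
    exact ((Equiv.ofBijective (fun f : Y ⟶ P X => F.map f ≫ x X)
      (hB X Y (hL Y))).apply_symm_apply g).symm
  exact ⟨Adjunction.rightAdjointOfEquiv e he, ⟨Adjunction.adjunctionOfEquivRight e he⟩⟩

end

end Pool.Agent.Helper46.DK
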