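import Mathlib

/-!
# DK: differential modules over a commutative ring, chain maps, homotopy

`DM R`: modules `X` with a linear map `d : X → X`, `d ∘ d = 0` (1-periodic complexes).
`KR R`: the homotopy category. For rings of characteristic two the shift is the identity.
-/

set_option autoImplicit false

namespace Pool.Agent.Helper46.DK

open CategoryTheory

/-- Differential modules. -/
structure DM (R : Type) [CommRing R] where
  X : Type
  [grp : AddCommGroup X]
  [mod : Module R X]
  d : X →ₗ[R] X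
  dd : ∀ x, d (d x) = 0

attribute [instance] DM.grp DM.mod
attribute [simp] DM.dd

variable {R : Type} [CommRing R]

/-- Chain maps. -/
@[ext]
structure DHom (M N : DM R) where
  f : M.X →ₗ[R] N.X
  comm : ∀ x, f (M.d x) = N.d (f x)

attribute [simp] DHom.comm

instance : Category (DM R) where
  Hom := DHom
  id M := ⟨LinearMap.id, fun _ => rfl⟩
  comp a b := ⟨b.f ∘ₗ a.f, fun x => by simp⟩

@[ext]
lemma hom_ext {M N : DM R} (a b : M ⟶ N) (h : ∀ x, a.f x = b.f x) : a = b :=
  DHom.ext (LinearMap.ext h)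

@[simp] lemma id_f (M : DM R) (x : M.X) : (𝟙 M : M ⟶ M).f x = x := rfl

@[simp] lemma comp_f {M N P : DM R} (a : M ⟶ N) (b : N ⟶ P) (x : M.X) :
    (a ≫ b).f x = b.f (a.f x) := rfl

section

variable (M N : DM R)

/-- chain maps as an additive subgroup of the linear maps -/
def chains : AddSubgroup (M.X →ₗ[R] N.X) where
  carrier := {f | ∀ x, f (M.d x) = N.d (f x)}
  add_mem' {a b} ha hb x := by simp [ha x, hb x]
  zero_mem' x := by simp
  neg_mem' {a} ha x := by simp [ha x]

/-- chain maps as a type -/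
def homEquiv : (M ⟶ N) ≃ chains M N where
  toFun a := ⟨a.f, a.comm⟩
  invFun a := ⟨a.1, a.2⟩
  left_inv _ := rfl
  right_inv _ := rfl

end

instance (M N : DM R) : Add (M ⟶ N) := ⟨fun a b => ⟨a.f + b.f, fun x => by simp⟩⟩
instance (M N : DM R) : Zero (M ⟶ N) := ⟨⟨0, fun x => by simp⟩⟩
instance (M N : DM R) : Neg (M ⟶ N) := ⟨fun a => ⟨-a.f, fun x => by simp⟩⟩

instance (M N : DM R) : AddCommGroup (M ⟶ N) where
  add_assoc a b c := DHom.ext (add_assoc _ _ _)
  zero_add a := DHom.ext (zero_add _)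
  add_zero a := DHom.ext (add_zero _)
  neg_add_cancel a := DHom.ext (neg_add_cancel _)
  add_comm a b := DHom.ext (add_comm _ _)
  nsmul := nsmulRec
  zsmul := zsmulRec

@[simp] lemma add_f {M N : DM R} (a b : M ⟶ N) (x : M.X) : (a + b).f x = a.f x + b.f x := rfl
@[simp] lemma zero_f {M N : DM R} (x : M.X) : (0 : M ⟶ N).f x = 0 := rfl
@[simp] lemma neg_f {M N : DM R} (a : M ⟶ N) (x : M.X) : (-a).f x = - a.f x := rfl
@[simp] lemma sub_f {M N : DM R} (a b : M ⟶ N) (x : M.X) : (a - b).f x = a.f x - b.f x := by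
  rw [sub_eq_add_neg, add_f, neg_f, sub_eq_add_neg]

instance : Preadditive (DM R) where
  add_comp _ _ _ a b c := by ext x; simp
  comp_add _ _ _ a b c := by ext x; simp

/-- `f` is homotopic to `g`: `f - g = d h + h d`. -/
def htpy (R : Type) [CommRing R] : HomRel (DM R) := fun M N f g =>
  ∃ h : M.X →ₗ[R] N.X, ∀ x, f.f x = g.f x + (N.d (h x) + h (M.d x))

instance : Congruence (htpy R) where
  equivalence :=
    { refl := fun f => ⟨0, fun x => by simp⟩
      symm := fun {f g} ⟨h, hh⟩ => ⟨-h, fun x => by rw [hh x]; simp; abel⟩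
      trans := fun {f g k} ⟨h, hh⟩ ⟨h', hh'⟩ => ⟨h + h', fun x => by
        rw [hh x, hh' x]; simp; abel⟩ }
  comp_left := by
    rintro M N P f g g' ⟨h, hh⟩
    exact ⟨h ∘ₗ f.f, fun x => by simp [hh]⟩
  comp_right := by
    rintro M N P f f' g ⟨h, hh⟩
    exact ⟨g.f ∘ₗ h, fun x => by simp [hh]⟩

/-- The homotopy category of differential modules. -/
abbrev KR (R : Type) [CommRing R] : Type 1 := Quotient (htpy R)

/-- The quotient functor. -/
abbrev q (R : Type) [CommRing R] : DM R ⥤ KR R := Quotient.functor (htpy R)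

lemma q_eq_iff {M N : DM R} (f g : M ⟶ N) : (q R).map f = (q R).map g ↔
    ∃ h : M.X →ₗ[R] N.X, ∀ x, f.f x = g.f x + (N.d (h x) + h (M.d x)) :=
  Quotient.functor_map_eq_iff (htpy R) f g

noncomputable instance : Preadditive (KR R) := Quotient.preadditive (htpy R) (by
  rintro M N f₁ f₂ g₁ g₂ ⟨h, hh⟩ ⟨h', hh'⟩
  exact ⟨h + h', fun x => by simp [hh x, hh' x]; abel⟩)

instance : (q R).Additive := Quotient.functor_additive (htpy R) _

end Pool.Agent.Helper46.DK
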