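import Pool.Agent.Helper46.DK.Shift

/-!
# DK: functors between categories with the trivial shift commute with the shift
-/

set_option autoImplicit false

namespace Pool.Agent.Helper46.DK

open CategoryTheory

universe v₁ v₂ u₁ u₂

/-- The trivial shift. -/
abbrev trivShift (C : Type u₁) [Category.{v₁} C] : HasShift C ℤ := hasShiftMk C ℤ (core C)

variable {C : Type u₁} [Category.{v₁} C] {D : Type u₂} [Category.{v₂} D]

/-- The trivial commutation with the shift. -/
@[instance_reducible]
def commTriv (F : C ⥤ D) :
    letI := trivShift C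
    letI := trivShift D
    F.CommShift ℤ :=
  letI := trivShift C
  letI := trivShift D
  { commShiftIso _ := NatIso.ofComponents (fun X => Iso.refl (F.obj X))
      (fun f => (Category.comp_id _).trans (Category.id_comp _).symm)
    commShiftIso_zero := by
      ext X
      rw [Functor.CommShift.isoZero_hom_app]
      change 𝟙 (F.obj X) = F.map (𝟙 X) ≫ 𝟙 (F.obj X)
      simp
    commShiftIso_add m n := by
      ext X
      rw [Functor.CommShift.isoAdd_hom_app]
      change 𝟙 (F.obj X) = F.map (𝟙 X) ≫ 𝟙 (F.obj X) ≫ 𝟙 (F.obj X) ≫ 𝟙 (F.obj X)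
      simp }

end Pool.Agent.Helper46.DK
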