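import Pool.Agent.Helper46.DK.Rot

/-!
# DK: completion of morphisms of triangles
-/

set_option autoImplicit false

namespace Pool.Agent.Helper46.DK

open CategoryTheory Limits Pretriangulated

variable {R : Type} [CommRing R] [CharP R 2]

lemma exists_cone_map {M N M' N' : DM R} (f : M ⟶ N) (f' : M' ⟶ N') (a : M ⟶ M') (b : N ⟶ N')
    (h : (q R).map (f ≫ b) = (q R).map (a ≫ f')) :
    ∃ c : cone f ⟶ cone f', inl f ≫ c = b ≫ inl f' ∧ snd f ≫ a = c ≫ snd f' := by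
  rw [q_eq_iff] at h
  obtain ⟨h, hh⟩ := h
  simp only [comp_f] at hh
  refine ⟨⟨LinearMap.prod (b.f ∘ₗ LinearMap.fst R _ _ + h ∘ₗ LinearMap.snd R _ _)
    (a.f ∘ₗ LinearMap.snd R _ _), ?_⟩, ?_, ?_⟩
  · rintro ⟨y, x⟩
    refine Prod.ext ?_ ?_
    · change b.f (N.d y + f.f x) + h (M.d x) = N'.d (b.f y + h x) + f'.f (a.f x)
      rw [map_add, hh, b.comm, map_add,
        show N'.d (b.f y) + (f'.f (a.f x) + (N'.d (h x) + h (M.d x))) + h (M.d x) =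
          N'.d (b.f y) + N'.d (h x) + f'.f (a.f x) + (h (M.d x) + h (M.d x)) by abel,
        add_self (R := R), add_zero]
    · exact a.comm x
  · apply hom_ext
    intro x
    refine Prod.ext ?_ ?_
    · change b.f x + h 0 = b.f x
      rw [map_zero, add_zero]
    · exact map_zero a.f
  · rfl

theorem complete_tri {M N M' N' : DM R} (f : M ⟶ N) (f' : M' ⟶ N')
    (a : (tri f).obj₁ ⟶ (tri f').obj₁) (b : (tri f).obj₂ ⟶ (tri f').obj₂)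
    (h : (tri f).mor₁ ≫ b = a ≫ (tri f').mor₁) :
    ∃ c : (tri f).obj₃ ⟶ (tri f').obj₃, (tri f).mor₂ ≫ c = b ≫ (tri f').mor₂ ∧
      (tri f).mor₃ ≫ a⟦(1 : ℤ)⟧' = c ≫ (tri f').mor₃ := by
  obtain ⟨a, rfl⟩ := (q R).map_surjective (X := M) (Y := M') a
  obtain ⟨b, rfl⟩ := (q R).map_surjective (X := N) (Y := N') b
  obtain ⟨c, h1, h2⟩ := exists_cone_map f f' a b (by
    rw [(q R).map_comp, (q R).map_comp]
    exact h)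
  exact ⟨(q R).map c, congrArg (q R).map h1, congrArg (q R).map h2⟩

theorem dist_complete (T₁ T₂ : Triangle (KR R)) (h₁ : T₁ ∈ dist R) (h₂ : T₂ ∈ dist R)
    (a : T₁.obj₁ ⟶ T₂.obj₁) (b : T₁.obj₂ ⟶ T₂.obj₂) (h : T₁.mor₁ ≫ b = a ≫ T₂.mor₁) :
    ∃ c : T₁.obj₃ ⟶ T₂.obj₃, T₁.mor₂ ≫ c = b ≫ T₂.mor₂ ∧
      T₁.mor₃ ≫ a⟦(1 : ℤ)⟧' = c ≫ T₂.mor₃ := by
  obtain ⟨M, N, f, ⟨e⟩⟩ := h₁
  obtain ⟨M', N', f', ⟨e'⟩⟩ := h₂
  obtain ⟨c, h3, h4⟩ := complete_tri f f' (e.inv.hom₁ ≫ a ≫ e'.hom.hom₁)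
    (e.inv.hom₂ ≫ b ≫ e'.hom.hom₂) (by
      rw [e.inv.comm₁_assoc, reassoc_of% h, e'.hom.comm₁]
      simp)
  have i3 : e.inv.hom₃ ≫ e.hom.hom₃ = 𝟙 _ := by rw [← comp_hom₃, e.inv_hom_id]; rfl
  have i2 : e.hom.hom₂ ≫ e.inv.hom₂ = 𝟙 _ := by rw [← comp_hom₂, e.hom_inv_id]; rfl
  have i1 : e.hom.hom₁ ≫ e.inv.hom₁ = 𝟙 _ := by rw [← comp_hom₁, e.hom_inv_id]; rfl
  have j2 : e'.hom.hom₂ ≫ e'.inv.hom₂ = 𝟙 _ := by rw [← comp_hom₂, e'.hom_inv_id]; rfl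
  have j1 : e'.hom.hom₁ ≫ e'.inv.hom₁ = 𝟙 _ := by rw [← comp_hom₁, e'.hom_inv_id]; rfl
  refine ⟨e.hom.hom₃ ≫ c ≫ e'.inv.hom₃, ?_, ?_⟩
  · rw [e.hom.comm₂_assoc, reassoc_of% h3, e'.inv.comm₂, reassoc_of% i2, reassoc_of% j2]
  · rw [Category.assoc, Category.assoc, ← e'.inv.comm₃, ← reassoc_of% h4, ← e.hom.comm₃_assoc,
      ← Functor.map_comp, ← Functor.map_comp]
    simp [reassoc_of% i1, j1]

end Pool.Agent.Helper46.DK
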