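import Pool.Agent.Helper46.DK.Shift

/-!
# DK: cones
-/

set_option autoImplicit false

namespace Pool.Agent.Helper46.DK

open CategoryTheory Pretriangulated

variable {R : Type} [CommRing R]

lemma add_self [CharP R 2] {M : Type} [AddCommGroup M] [Module R M] (x : M) : x + x = 0 := by
  rw [← one_smul R x, ← add_smul, one_add_one_eq_two, CharTwo.two_eq_zero, zero_smul]

lemma neg_eq [CharP R 2] {M : Type} [AddCommGroup M] [Module R M] (x : M) : -x = x :=
  (eq_neg_of_add_eq_zero_left (add_self (R := R) x)).symm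

variable [CharP R 2]

/-- The cone of a chain map. -/
abbrev cone {M N : DM R} (f : M ⟶ N) : DM R where
  X := N.X × M.X
  d := LinearMap.prod (N.d ∘ₗ LinearMap.fst R _ _ + f.f ∘ₗ LinearMap.snd R _ _)
    (M.d ∘ₗ LinearMap.snd R _ _)
  dd x := by
    refine Prod.ext ?_ ?_
    · simp [add_self (R := R)]
    · simp

@[simp] lemma cone_d {M N : DM R} (f : M ⟶ N) (x : N.X × M.X) :
    (cone f).d x = ((N.d x.1 + f.f x.2, M.d x.2) : N.X × M.X) := rfl

/-- the inclusion of the target -/
def inl {M N : DM R} (f : M ⟶ N) : N ⟶ cone f where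
  f := LinearMap.inl R N.X M.X
  comm x := by refine Prod.ext ?_ ?_ <;> simp

/-- the projection to the source -/
def snd {M N : DM R} (f : M ⟶ N) : cone f ⟶ M where
  f := LinearMap.snd R N.X M.X
  comm x := by simp

@[simp] lemma inl_f {M N : DM R} (f : M ⟶ N) (x : N.X) : (inl f).f x = ((x, 0) : N.X × M.X) := rfl
@[simp] lemma snd_f {M N : DM R} (f : M ⟶ N) (x : N.X × M.X) : (snd f).f x = x.2 := rfl

/-- The standard triangle. -/
noncomputable def tri {M N : DM R} (f : M ⟶ N) : Triangle (KR R) :=
  Triangle.mk (X := (q R).obj M) ((q R).map f) ((q R).map (inl f)) ((q R).map (snd f))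

/-- Distinguished triangles. -/
def dist (R : Type) [CommRing R] [CharP R 2] : Set (Triangle (KR R)) :=
  {T | ∃ (M N : DM R) (f : M ⟶ N), Nonempty (T ≅ tri f)}

end Pool.Agent.Helper46.DK
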