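import Pool.Agent.Helper46.DK.KMon

/-!
# DK: coproducts
-/

set_option autoImplicit false

namespace Pool.Agent.Helper46.DK

open CategoryTheory Limits DirectSum

variable {R : Type} [CommRing R]

section

variable {ι : Type} (M : ι → DM R)

/-- the direct sum -/
noncomputable abbrev dsum : DM R where
  X := ⨁ i, (M i).X
  d := DirectSum.lmap fun i => (M i).d
  dd x := by
    classical
    induction x using DirectSum.induction_on with
    | zero => simp
    | of i x => simp
    | add x y hx hy => rw [map_add, map_add, hx, hy, add_zero]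

open scoped Classical in
/-- the inclusions -/
noncomputable abbrev inc (i : ι) : M i ⟶ dsum M where
  f := DirectSum.lof R ι (fun i => (M i).X) i
  comm x := by
    change _ = DirectSum.lmap (fun i => (M i).d) (DirectSum.lof R ι (fun i => (M i).X) i x)
    rw [DirectSum.lmap_lof]

lemma hom_ext_sum {N : DM R} {f g : (dsum M).X →ₗ[R] N.X}
    (h : ∀ i x, f ((inc M i).f x) = g ((inc M i).f x)) : f = g := by
  classical
  apply DirectSum.linearMap_ext
  intro i
  apply LinearMap.ext
  intro x
  exact h i x

variable {M}

open scoped Classical in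
/-- linear maps out of the sum -/
noncomputable def descL {N : DM R} (f : ∀ i, (M i).X →ₗ[R] N.X) : (dsum M).X →ₗ[R] N.X :=
  DirectSum.toModule R ι N.X f

lemma descL_inc {N : DM R} (f : ∀ i, (M i).X →ₗ[R] N.X) (i : ι) (x : (M i).X) :
    descL (M := M) f ((inc M i).f x) = f i x := by
  classical
  exact DirectSum.toModule_lof (M := fun i => (M i).X) (φ := f) R i x

lemma inc_d (i : ι) (x : (M i).X) : (dsum M).d ((inc M i).f x) = (inc M i).f ((M i).d x) :=
  ((inc M i).comm x).symm

/-- chain maps out of the sum -/
noncomputable def desc {N : DM R} (f : ∀ i, M i ⟶ N) : dsum M ⟶ N where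
  f := descL fun i => (f i).f
  comm := by
    intro x
    have : (descL (M := M) (N := N) fun i => (f i).f) ∘ₗ (dsum M).d =
        N.d ∘ₗ (descL (M := M) (N := N) fun i => (f i).f) := by
      apply hom_ext_sum
      intro i x
      rw [LinearMap.comp_apply, LinearMap.comp_apply, inc_d, descL_inc, descL_inc, (f i).comm]
    exact LinearMap.congr_fun this x

lemma inc_desc {N : DM R} (f : ∀ i, M i ⟶ N) (i : ι) : inc M i ≫ desc f = f i := by
  apply hom_ext
  intro x
  exact descL_inc (M := M) (fun i => (f i).f) i x

/-- equality of maps out of a sum in the homotopy category -/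
lemma q_sum_ext {N : DM R} {f g : dsum M ⟶ N}
    (h : ∀ i, (q R).map (inc M i ≫ f) = (q R).map (inc M i ≫ g)) :
    (q R).map f = (q R).map g := by
  choose k hk using fun i => (q_eq_iff _ _).1 (h i)
  rw [q_eq_iff]
  refine ⟨descL k, fun x => ?_⟩
  have : f.f = g.f + (N.d ∘ₗ descL (M := M) k + descL (M := M) k ∘ₗ (dsum M).d) := by
    apply hom_ext_sum
    intro i x
    rw [LinearMap.add_apply, LinearMap.add_apply, LinearMap.comp_apply, LinearMap.comp_apply,
      inc_d, descL_inc, descL_inc]
    exact hk i x
  exact LinearMap.congr_fun this x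

end

section

variable {ι : Type} (Y : ι → KR R)

/-- the coproduct cofan -/
noncomputable def cof : Cofan Y :=
  Cofan.mk ((q R).obj (dsum fun i => (Y i).as)) fun i => (q R).map (inc (fun i => (Y i).as) i)

/-- a representative -/
noncomputable def rep {X Y : KR R} (f : X ⟶ Y) : X.as ⟶ Y.as :=
  ((q R).map_surjective (X := X.as) (Y := Y.as) f).choose

lemma q_rep {X Y : KR R} (f : X ⟶ Y) : (q R).map (rep f) = f :=
  ((q R).map_surjective (X := X.as) (Y := Y.as) f).choose_spec

/-- it is a coproduct -/
noncomputable def cofIsColimit : IsColimit (cof Y) :=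
  Cofan.IsColimit.mk _ (fun s => (q R).map (desc fun i => rep (s.inj i)))
    (fun s i => by
      change (q R).map _ ≫ (q R).map _ = _
      rw [← (q R).map_comp, inc_desc, q_rep])
    (fun s m hm => by
      obtain ⟨m, rfl⟩ := (q R).map_surjective (X := dsum fun i => (Y i).as) (Y := s.pt.as) m
      apply q_sum_ext
      intro i
      rw [inc_desc, q_rep, ← hm i, (q R).map_comp]
      rfl)

instance : HasCoproductsOfShape ι (KR R) :=
  ⟨fun F => by
    have : HasColimit (Discrete.functor (F.obj ∘ Discrete.mk)) := ⟨⟨⟨_, cofIsColimit _⟩⟩⟩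
    exact hasColimit_of_iso (Discrete.natIsoFunctor (F := F))⟩

end

end Pool.Agent.Helper46.DK
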