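import Pool.Agent.Helper46.DK.Pres

/-!
# DK: compact objects
-/

set_option autoImplicit false

namespace Pool.Agent.Helper46.DK

open CategoryTheory Limits MonoidalCategory DirectSum

section

variable {C : Type 1} [Category.{0} C] [Preadditive C]

open scoped Classical in
lemma sumHom_of (X : C) {ι : Type} {Y : ι → C} (c : Cofan Y) (i : ι) (f : X ⟶ Y i) :
    sumHom X c (DirectSum.of (fun i => X ⟶ Y i) i f) = f ≫ c.inj i := by
  rw [sumHom, DirectSum.toAddMonoid_of]
  rfl

open scoped Classical in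
/-- projections of a coproduct -/
noncomputable def prj {ι : Type} {Y : ι → C} {c : Cofan Y} (hc : IsColimit c) (j : ι) :
    c.pt ⟶ Y j :=
  Cofan.IsColimit.desc hc fun i => if h : i = j then eqToHom (congrArg Y h) else 0

lemma inj_prj {ι : Type} {Y : ι → C} {c : Cofan Y} (hc : IsColimit c) (j : ι) :
    c.inj j ≫ prj hc j = 𝟙 _ := by
  rw [prj, Cofan.IsColimit.fac, dif_pos rfl]
  rfl

lemma inj_prj_ne {ι : Type} {Y : ι → C} {c : Cofan Y} (hc : IsColimit c) {i j : ι} (h : i ≠ j) :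
    c.inj i ≫ prj hc j = 0 := by
  rw [prj, Cofan.IsColimit.fac, dif_neg h]

lemma sumHom_prj (X : C) {ι : Type} {Y : ι → C} {c : Cofan Y} (hc : IsColimit c)
    (a : ⨁ i, (X ⟶ Y i)) (j : ι) : sumHom X c a ≫ prj hc j = a j := by
  classical
  induction a using DirectSum.induction_on with
  | zero => rw [map_zero, zero_comp]; rfl
  | of i f =>
    rw [sumHom_of, Category.assoc]
    by_cases h : i = j
    · subst h
      rw [inj_prj, Category.comp_id, DirectSum.of_eq_same]
    · rw [inj_prj_ne hc h, comp_zero, DirectSum.of_eq_of_ne _ _ _ (Ne.symm h)]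
  | add a b ha hb => rw [map_add, Preadditive.add_comp, ha, hb]; rfl

lemma sumHom_injective (X : C) {ι : Type} {Y : ι → C} {c : Cofan Y} (hc : IsColimit c) :
    Function.Injective (sumHom X c) := by
  intro a b hab
  refine DFinsupp.ext fun j => ?_
  rw [← sumHom_prj X hc a j, ← sumHom_prj X hc b j, hab]

/-- compactness as factorization -/
lemma compact_iff (X : C) : IsCompactObj X ↔
    ∀ (ι : Type) (Y : ι → C) (c : Cofan Y), IsColimit c → ∀ f : X ⟶ c.pt,
      ∃ (s : Finset ι) (a : ∀ i, X ⟶ Y i), f = ∑ i ∈ s, a i ≫ c.inj i := by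
  classical
  constructor
  · intro h ι Y c hc f
    obtain ⟨a, rfl⟩ := (h ι Y c hc).2 f
    refine ⟨DFinsupp.support a, fun i => a i, ?_⟩
    conv_lhs => rw [← DirectSum.sum_support_of a]
    rw [map_sum]
    exact Finset.sum_congr rfl fun i _ => sumHom_of _ _ _ _
  · intro h ι Y c hc
    refine ⟨sumHom_injective X hc, fun f => ?_⟩
    obtain ⟨s, a, rfl⟩ := h ι Y c hc f
    refine ⟨∑ i ∈ s, DirectSum.of (fun i => X ⟶ Y i) i (a i), ?_⟩
    rw [map_sum]
    exact Finset.sum_congr rfl fun i _ => sumHom_of _ _ _ _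

/-- it is enough to test one colimit cofan -/
lemma compact_of_one (X : C) (h : ∀ (ι : Type) (Y : ι → C), ∃ c : Cofan Y,
    Nonempty (IsColimit c) ∧ ∀ f : X ⟶ c.pt,
      ∃ (s : Finset ι) (a : ∀ i, X ⟶ Y i), f = ∑ i ∈ s, a i ≫ c.inj i) : IsCompactObj X := by
  rw [compact_iff]
  intro ι Y c' hc' f
  obtain ⟨c, ⟨hc⟩, hb⟩ := h ι Y
  let e := hc.coconePointUniqueUpToIso hc'
  have he : ∀ i, c.inj i ≫ e.hom = c'.inj i := fun i =>
    hc.comp_coconePointUniqueUpToIso_hom hc' ⟨i⟩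
  obtain ⟨s, a, ha⟩ := hb (f ≫ e.inv)
  refine ⟨s, a, ?_⟩
  rw [← cancel_mono e.inv, ha, Preadditive.sum_comp]
  refine Finset.sum_congr rfl fun i _ => ?_
  rw [← he i, Category.assoc, Category.assoc, e.hom_inv_id, Category.comp_id]

/-- transfer of compactness -/
lemma compact_transfer {D : Type 1} [Category.{0} D] [Preadditive D] {X : C} {X' : D} (F : C ⥤ D)
    (hF : ∀ ι : Type, PreservesColimitsOfShape (Discrete ι) F) (hX : IsCompactObj X')
    (φ : ∀ Y : C, (X ⟶ Y) →+ (X' ⟶ F.obj Y)) (hφ : ∀ Y, Function.Bijective (φ Y))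
    (nat : ∀ {Y Z : C} (f : X ⟶ Y) (g : Y ⟶ Z), φ Z (f ≫ g) = φ Y f ≫ F.map g) :
    IsCompactObj X := by
  rw [compact_iff] at hX ⊢
  intro ι Y c hc f
  obtain ⟨s, a, ha⟩ := hX ι (fun i => F.obj (Y i))
    (Cofan.mk (F.obj c.pt) fun i => F.map (c.inj i))
    (isColimitMapCoconeCofanMkEquiv F Y c.inj (isColimitOfPreserves F
      (hc.ofIsoColimit (Cofan.ext (Iso.refl _) (fun i => by simp)) ))) (φ _ f)
  choose b hb using fun i => (hφ (Y i)).2 (a i)
  refine ⟨s, b, (hφ _).1 ?_⟩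
  rw [ha, map_sum]
  refine Finset.sum_congr rfl fun i _ => ?_
  rw [nat, hb]
  rfl

/-- compactness is invariant under isomorphism -/
lemma compact_of_iso {X X' : C} (e : X ≅ X') (h : IsCompactObj X) : IsCompactObj X' := by
  refine compact_transfer (𝟭 C) (fun ι => inferInstance) h
    (fun Y => Preadditive.leftComp Y e.hom) (fun Y => ?_) (fun f g => ?_)
  · exact ⟨fun f g (hfg : e.hom ≫ f = e.hom ≫ g) => by simpa using hfg,
      fun g => ⟨e.inv ≫ g, e.hom_inv_id_assoc g⟩⟩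
  · exact (Category.assoc _ _ _).symm

end

end Pool.Agent.Helper46.DK
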