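import Pool.Agent.Helper46.DK.Unit

/-!
# DK: devissage for natural maps of covariant Hom functors
-/

set_option autoImplicit false

namespace Pool.Agent.Helper46.DK

open CategoryTheory Limits Pretriangulated

section

variable {C : Type 1} [Category.{0} C] [Preadditive C] [HasZeroObject C] [HasShift C ℤ]
  [∀ n : ℤ, (shiftFunctor C n).Additive] [Pretriangulated C]
variable {D : Type 1} [Category.{0} D] [Preadditive D] [HasZeroObject D] [HasShift D ℤ]
  [∀ n : ℤ, (shiftFunctor D n).Additive] [Pretriangulated D]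
variable (F : C ⥤ D) [F.CommShift ℤ] [F.IsTriangulated]

lemma hom_exact (A : D) (T : Triangle C) (hT : T ∈ distTriang C) (y : A ⟶ F.obj T.obj₂)
    (hy : y ≫ F.map T.mor₂ = 0) : ∃ z : A ⟶ F.obj T.obj₁, y = z ≫ F.map T.mor₁ :=
  Triangle.coyoneda_exact₂ _ (F.map_distinguished T hT) y hy

lemma hom_exact₃ (A : D) (T : Triangle C) (hT : T ∈ distTriang C) (y : A ⟶ F.obj T.obj₃)
    (hy : y ≫ F.map T.mor₃ = 0) : ∃ z : A ⟶ F.obj T.obj₂, y = z ≫ F.map T.mor₂ :=
  hom_exact F A _ (rot_of_distTriang _ hT) y hy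

lemma hom_exact₁ (A : D) (T : Triangle C) (hT : T ∈ distTriang C)
    (y : A ⟶ F.obj (T.obj₁⟦(1 : ℤ)⟧))
    (hy : y ≫ F.map (T.mor₁⟦(1 : ℤ)⟧') = 0) :
    ∃ z : A ⟶ F.obj T.obj₃, y = z ≫ F.map T.mor₃ := by
  refine hom_exact F A _ (rot_of_distTriang _ (rot_of_distTriang _ hT)) y ?_
  change y ≫ F.map (-(T.mor₁⟦(1 : ℤ)⟧')) = 0
  rw [F.map_neg, Preadditive.comp_neg, hy, neg_zero]

variable {F}

lemma dev_isLocz [∀ ι : Type, PreservesColimitsOfShape (Discrete ι) F]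
    (hs : ∀ Y : C, Nonempty (Y⟦(1 : ℤ)⟧ ≅ Y)) {A : D} {B : C} (hA : IsCompactObj A)
    (hB : IsCompactObj B) (θ : ∀ Y : C, (A ⟶ F.obj Y) →+ (B ⟶ Y))
    (nat : ∀ {Y Z : C} (a : A ⟶ F.obj Y) (g : Y ⟶ Z), θ Z (a ≫ F.map g) = θ Y a ≫ g) :
    IsLocz (C := C) (fun Y => Function.Bijective (θ Y)) := by
  have hiso : ∀ {Y Y' : C}, (Y ≅ Y') → Function.Bijective (θ Y) → Function.Bijective (θ Y') := by
    intro Y Y' e h
    refine ⟨fun f g hfg => ?_, fun y => ?_⟩
    · have : f ≫ F.map e.inv = g ≫ F.map e.inv := h.1 (by rw [nat, nat, hfg])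
      exact (cancel_mono _).1 this
    · obtain ⟨f, hf⟩ := h.2 (y ≫ e.inv)
      refine ⟨f ≫ F.map e.hom, ?_⟩
      rw [nat, hf, Category.assoc, e.inv_hom_id, Category.comp_id]
  have inj : ∀ {Y : C}, Function.Bijective (θ Y) → ∀ f : A ⟶ F.obj Y, θ Y f = 0 → f = 0 := by
    intro Y h f hf
    apply h.1
    rw [hf, map_zero]
  refine ⟨hiso, ?_, ?_⟩
  · intro T hT h1 h2
    have h1' : Function.Bijective (θ (T.obj₁⟦(1 : ℤ)⟧)) := hiso (hs _).some.symm h1
    have h2' : Function.Bijective (θ (T.obj₂⟦(1 : ℤ)⟧)) := hiso (hs _).some.symm h2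
    refine ⟨(injective_iff_map_eq_zero _).2 fun a ha => ?_, fun y => ?_⟩
    · have e1 : a ≫ F.map T.mor₃ = 0 := inj h1' _ (by rw [nat, ha, zero_comp])
      obtain ⟨b, rfl⟩ := hom_exact₃ F A T hT a e1
      rw [nat] at ha
      obtain ⟨c, hc⟩ := Triangle.coyoneda_exact₂ _ hT _ ha
      obtain ⟨c', rfl⟩ := h1.2 c
      rw [← nat] at hc
      rw [h2.1 hc, Category.assoc, ← F.map_comp, comp_distTriang_mor_zero₁₂ _ hT, F.map_zero,
        comp_zero]
    · obtain ⟨a, ha⟩ := h1'.2 (y ≫ T.mor₃)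
      have e1 : a ≫ F.map (T.mor₁⟦(1 : ℤ)⟧') = 0 := inj h2' _ (by
        rw [nat, ha, Category.assoc, comp_distTriang_mor_zero₃₁ _ hT, comp_zero])
      obtain ⟨b, rfl⟩ := hom_exact₁ F A T hT a e1
      rw [nat] at ha
      obtain ⟨z, hz⟩ := Triangle.coyoneda_exact₃ _ hT (y - θ _ b) (by
        rw [Preadditive.sub_comp, ha, sub_self])
      obtain ⟨c, rfl⟩ := h2.2 z
      refine ⟨b + c ≫ F.map T.mor₂, ?_⟩
      rw [map_add, nat, ← hz, add_sub_cancel]
  · intro ι Y c hc h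
    have hc' : IsColimit (Cofan.mk (F.obj c.pt) fun i => F.map (c.inj i)) :=
      isColimitMapCoconeCofanMkEquiv F Y c.inj (isColimitOfPreserves F
        (hc.ofIsoColimit (Cofan.ext (Iso.refl _) (fun i => by simp))))
    refine ⟨(injective_iff_map_eq_zero _).2 fun a ha => ?_, fun y => ?_⟩
    · obtain ⟨s, a, rfl⟩ := (compact_iff A).1 hA ι (fun i => F.obj (Y i)) _ hc' a
      change ∀ i, A ⟶ F.obj (Y i) at a
      change θ c.pt (∑ i ∈ s, a i ≫ F.map (c.inj i)) = 0 at ha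
      rw [map_sum] at ha
      refine Finset.sum_eq_zero fun j hj => ?_
      have h3 : (∑ i ∈ s, θ c.pt (a i ≫ F.map (c.inj i))) ≫ prj hc j = θ _ (a j) := by
        rw [Preadditive.sum_comp, Finset.sum_eq_single_of_mem j hj]
        · rw [nat, Category.assoc, inj_prj, Category.comp_id]
        · intro i _ hij
          rw [nat, Category.assoc, inj_prj_ne hc hij, comp_zero]
      rw [ha, zero_comp] at h3
      rw [inj (h j) _ h3.symm, zero_comp]
    · obtain ⟨s, y, rfl⟩ := (compact_iff B).1 hB ι Y c hc y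
      choose a ha using fun i => (h i).2 (y i)
      refine ⟨∑ i ∈ s, a i ≫ F.map (c.inj i), ?_⟩
      rw [map_sum]
      refine Finset.sum_congr rfl fun i _ => ?_
      rw [nat, ha]

end

end Pool.Agent.Helper46.DK
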