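import Pool.Agent.Helper46.DK.Reso
import Pool.Agent.Helper46.TT.ExtRes

/-!
# DK: vanishing of the maps from the resolution to the unit
-/

set_option autoImplicit false

namespace Pool.Agent.Helper46.DK

open CategoryTheory Limits MonoidalCategory Abelian Pool.Agent.Helper46.TT

variable {R : Type} [CommRing R]

/-- vanishing of the positive Ext groups -/
def VV (R N : Type) [CommRing R] [AddCommGroup N] [Module R N] : Prop :=
  ∀ (j : ℕ) (ξ : Ext (ModuleCat.of R N) (ModuleCat.of R R) (j + 1)), ξ = 0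

section

variable {K F N : Type} [AddCommGroup K] [Module R K] [AddCommGroup F] [Module R F]
  [AddCommGroup N] [Module R N]

lemma VV_step (f : K →ₗ[R] F) (g : F →ₗ[R] N) (h : Function.Exact f g)
    (hf : Function.Injective f) (hg : Function.Surjective g) [Module.Projective R F]
    (hN : VV R N) : VV R K := by
  intro j ξ
  obtain ⟨η, rfl⟩ := les₁ f g h hf hg (ModuleCat.of R R) ξ (hN (j + 1) _)
  have : CategoryTheory.Projective (ModuleCat.of R F) := inferInstance
  rw [Ext.eq_zero_of_projective η, Ext.comp_zero]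

lemma VV_ext (f : K →ₗ[R] F) (g : F →ₗ[R] N) (h : Function.Exact f g)
    (hf : Function.Injective f) (hg : Function.Surjective g)
    (hN : VV R N) (k : K →ₗ[R] R) : ∃ l : F →ₗ[R] R, ∀ x, l (f x) = k x := by
  obtain ⟨η, hη⟩ := les₁ f g h hf hg (ModuleCat.of R R) (Ext.mk₀ (ModuleCat.ofHom k)) (hN 0 _)
  obtain ⟨l, rfl⟩ := mk₀_ofHom_bij.2 η
  refine ⟨l, fun x => ?_⟩
  have h1 : Ext.mk₀ (ModuleCat.ofHom (l ∘ₗ f)) = Ext.mk₀ (ModuleCat.ofHom k) :=
    (mk₀_ofHom_comp f l).symm.trans hη
  exact LinearMap.congr_fun (mk₀_ofHom_bij.1 h1) x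

end

variable (M : Md R)

lemma VV_Kn (hM : VV R M.X) (n : ℕ) : VV R (Kn M n).X := by
  induction n with
  | zero => exact hM
  | succ n ih => exact VV_step (jn M n) (pn M n) (pj_exact M n) (jn_inj M n) (pn_surj M n) ih

variable [CharP R 2]

/-- vanishing of the maps to the unit -/
lemma PP_hom_zero (hM : VV R M.X) (h0 : ∀ f : M.X →ₗ[R] R, f = 0)
    (f : (q R).obj (PP M) ⟶ 𝟙_ (KR R)) : f = 0 := by
  obtain ⟨f, rfl⟩ := (q R).map_surjective (X := PP M) (Y := zd R R) f
  have hf : ∀ x, f.f ((PP M).d x) = 0 := fun x => f.comm x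
  -- factorization
  have h1 : ∀ n, ∃ g : (Kn M n).X →ₗ[R] R, ∀ x, g (pn M n x) = f.f (lo M n x) := by
    intro n
    have h2 : LinearMap.ker (pn M n) ≤ LinearMap.ker (f.f ∘ₗ lo M n) := by
      intro x hx
      obtain ⟨k, rfl⟩ := ((pj_exact M n) x).1 hx
      obtain ⟨y, rfl⟩ := pn_surj M (n + 1) k
      have h3 := hf (lo M (n + 1) y)
      rw [d_lo_succ] at h3
      exact h3
    refine ⟨(LinearMap.ker (pn M n)).liftQ (f.f ∘ₗ lo M n) h2 ∘ₗ
      ((pn M n).quotKerEquivOfSurjective (pn_surj M n)).symm.toLinearMap, fun x => ?_⟩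
    have h4 : ((pn M n).quotKerEquivOfSurjective (pn_surj M n)).symm (pn M n x) =
        (LinearMap.ker (pn M n)).mkQ x := by
      rw [LinearEquiv.symm_apply_eq]
      rfl
    rw [LinearMap.comp_apply, LinearEquiv.coe_coe, h4]
    rfl
  choose g hg using h1
  choose l hl using fun n => VV_ext (jn M n) (pn M n) (pj_exact M n) (jn_inj M n) (pn_surj M n)
    (VV_Kn M hM n) (g (n + 1))
  have key : (q R).map f = (q R).map 0 := by
    rw [q_eq_iff]
    refine ⟨PPd M l, fun x => ?_⟩
    have : f.f = PPd M l ∘ₗ (PP M).d := by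
      apply PP_ext
      intro n x
      rw [LinearMap.comp_apply]
      match n with
      | 0 =>
        have h5 := hg 0 x
        have h6 : g 0 = 0 := h0 (g 0)
        rw [h6] at h5
        rw [d_lo_zero, map_zero]
        exact h5.symm
      | n + 1 =>
        rw [d_lo_succ, PPd_lo, ← hg]
        exact (hl n _).symm
    rw [zero_f, zero_add]
    refine (LinearMap.congr_fun this x).trans ?_
    exact (zero_add _).symm
  rw [key]
  exact (q R).map_zero _ _

end Pool.Agent.Helper46.DK
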