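import Pool.Agent.Helper46.DK.ExtP

/-!
# DK: the maps `f_* 1 → 1` vanish; `f^!` is not conservative
-/

set_option autoImplicit false

namespace Pool.Agent.Helper46.DK

open CategoryTheory Limits MonoidalCategory Abelian Pool.Agent.Helper46.TT

section aug

variable {R : Type} [CommRing R] (M : Md R)

/-- the augmentation -/
noncomputable def augL : (PP M).X →ₗ[R] M.X := pn M 0 ∘ₗ co M 0

lemma augL_d (x : (PP M).X) : augL M ((PP M).d x) = 0 := by
  change pn M 0 (co M 0 ((PP M).d x)) = 0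
  rw [co_d]
  exact (pj_exact M 0).apply_apply_eq_zero _

lemma augL_surj (z : M.X) : ∃ x, (PP M).d x = 0 ∧ augL M x = z := by
  obtain ⟨y, rfl⟩ := pn_surj M 0 z
  refine ⟨lo M 0 y, d_lo_zero M y, ?_⟩
  change pn M 0 (co M 0 (lo M 0 y)) = pn M 0 y
  rw [co_lo]

variable [CharP R 2] (Z : DM R)

/-- the chain map -/
noncomputable def aug (hZ : ∀ x, Z.d x = 0) : PP (⟨Z.X⟩ : Md R) ⟶ Z where
  f := augL ⟨Z.X⟩
  comm x := by rw [augL_d, hZ]

lemma ofCycle_comp {M N : DM R} (x : M.X) (hx : M.d x = 0) (f : M ⟶ N) (h : N.d (f.f x) = 0) :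
    (q R).map (ofCycle x hx) ≫ (q R).map f = (q R).map (ofCycle (f.f x) h) := by
  rw [← (q R).map_comp]
  congr 1
  apply hom_ext
  intro r
  exact f.f.map_smul r x

lemma q_ofCycle_zero {M : DM R} : (q R).map (ofCycle (0 : M.X) (map_zero _)) = 0 := by
  refine Eq.trans ?_ ((q R).map_zero _ _)
  congr 1
  apply hom_ext
  intro r
  rw [ofCycle_f, smul_zero]
  rfl

lemma aug_bij (hZ : ∀ x, Z.d x = 0) : Function.Bijective
    fun f : 𝟙_ (KR R) ⟶ (q R).obj (PP (⟨Z.X⟩ : Md R)) => f ≫ (q R).map (aug Z hZ) := by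
  constructor
  · have h0 : ∀ f : 𝟙_ (KR R) ⟶ (q R).obj (PP (⟨Z.X⟩ : Md R)),
        f ≫ (q R).map (aug Z hZ) = 0 → f = 0 := by
      intro f hf
      obtain ⟨f, rfl⟩ := (q R).map_surjective (X := zd R R) (Y := PP (⟨Z.X⟩ : Md R)) f
      obtain ⟨hx, hf'⟩ := eq_ofCycle f
      generalize f.f (1 : R) = x at hx hf'
      subst hf'
      have h1 := ofCycle_comp x hx (aug Z hZ) (hZ _)
      have h2 := h1.symm.trans (hf.trans q_ofCycle_zero.symm)
      obtain ⟨z, hz⟩ := (q_ofCycle_eq_iff _ _ _ _).1 h2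
      rw [hZ, zero_add] at hz
      obtain ⟨y, hy⟩ := PP_exact _ x hx hz
      exact ((q_ofCycle_eq_iff _ _ hx (map_zero _)).2 ⟨y, by rw [hy, zero_add]⟩).trans
        q_ofCycle_zero
    intro f g hfg
    change f ≫ _ = g ≫ _ at hfg
    rw [← sub_eq_zero]
    apply h0
    rw [Preadditive.sub_comp, hfg, sub_self]
  · intro g
    obtain ⟨g, rfl⟩ := (q R).map_surjective (X := zd R R) (Y := Z) g
    obtain ⟨hz, hg⟩ := eq_ofCycle g
    generalize g.f (1 : R) = z at hz hg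
    subst hg
    obtain ⟨x, hx, hxz⟩ := augL_surj (⟨Z.X⟩ : Md R) z
    refine ⟨(q R).map (ofCycle x hx), ?_⟩
    refine (ofCycle_comp x hx (aug Z hZ) (hZ _)).trans ?_
    refine (q_ofCycle_eq_iff _ _ _ _).2 ⟨0, ?_⟩
    rw [map_zero, add_zero]
    exact hxz

end aug

section

variable (R S : Type) [CommRing R] [CommRing S] [Algebra R S] [CharP R 2] [CharP S 2]

theorem exists_adjoints : ∃ (fLow : TR S ⥤ TR R) (fShr : TR R ⥤ TR S),
    Nonempty (tbc R S ⊣ fLow) ∧ Nonempty (fLow ⊣ fShr) := by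
  obtain ⟨G, ⟨adj⟩⟩ := exists_rightAdjoint (tbc R S) (𝟙_ (TR R)) unit_compact_TR hs_TR loc_all
  letI := adj.rightAdjointCommShift ℤ
  haveI := adj.commShift_of_leftAdjoint ℤ
  haveI : G.IsTriangulated := adj.isTriangulated_rightAdjoint
  have hc : IsCompactObj ((tbc R S).obj (𝟙_ (TR R))) :=
    compact_of_iso (Functor.Monoidal.εIso (tbc R S)) unit_compact_TR
  haveI : ∀ ι : Type, PreservesColimitsOfShape (Discrete ι) G := fun ι =>
    rightAdjoint_pres hs_TR loc_all unit_compact_TR adj hc ι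
  obtain ⟨H, hH⟩ := exists_rightAdjoint G (𝟙_ (TR S)) unit_compact_TR hs_TR loc_all
  exact ⟨G, H, ⟨adj⟩, hH⟩

/-- `S` as an `R`-module -/
abbrev MS : Md R := ⟨((res R S).obj (zd S S)).X⟩

/-- it is `S` -/
def MSe : (MS R S).X ≃ₗ[R] S where
  toFun := fun x => x
  map_add' := fun _ _ => rfl
  map_smul' := fun r x => (Algebra.smul_def r (show S from x)).symm
  invFun := fun x => x
  left_inv := fun _ => rfl
  right_inv := fun _ => rfl

lemma VV_MS (h : ∀ (n : ℕ) (η : Ext (ModuleCat.of R S) (ModuleCat.of R R) n), η = 0) :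
    VV R (MS R S).X := by
  intro j ξ
  have h1 := h (j + 1) ((Ext.mk₀ (ModuleCat.ofHom (MSe R S).symm.toLinearMap)).comp ξ
    (zero_add _))
  have h2 := congrArg (fun x => (Ext.mk₀ (ModuleCat.ofHom (MSe R S).toLinearMap)).comp x
    (zero_add _)) h1
  simp only at h2
  rw [mk₀_ofHom_comp_assoc, Ext.comp_zero] at h2
  have h3 : (MSe R S).symm.toLinearMap ∘ₗ (MSe R S).toLinearMap = LinearMap.id := rfl
  rw [h3] at h2
  exact (Ext.mk₀_id_comp ξ).symm.trans h2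

lemma hom_MS (h : ∀ (n : ℕ) (η : Ext (ModuleCat.of R S) (ModuleCat.of R R) n), η = 0)
    (f : (MS R S).X →ₗ[R] R) : f = 0 := by
  have h1 := h 0 (Ext.mk₀ (ModuleCat.ofHom (f ∘ₗ (MSe R S).symm.toLinearMap)))
  have h2 : f ∘ₗ (MSe R S).symm.toLinearMap = 0 :=
    mk₀_ofHom_bij.1 (h1.trans (Ext.mk₀_zero _ _).symm)
  ext x
  exact LinearMap.congr_fun h2 x

/-- the maps `f_* 1 → 1` vanish if `Ext (S, R) = 0` -/
theorem low_unit (h : ∀ (n : ℕ) (η : Ext (ModuleCat.of R S) (ModuleCat.of R R) n), η = 0)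
    {G : TR S ⥤ TR R} (adj : tbc R S ⊣ G) (g : G.obj (𝟙_ (TR S)) ⟶ 𝟙_ (TR R)) : g = 0 := by
  let Z : DM R := (res R S).obj (zd S S)
  have hZ : ∀ x, Z.d x = 0 := fun x => rfl
  let N : KR S := (io S).obj (𝟙_ (TR S))
  let Φ : ∀ Y : TR R, (Y ⟶ G.obj (𝟙_ (TR S))) → ((io R).obj Y ⟶ (kres R S).obj N) := fun Y f =>
    (kadj R S).homEquiv _ _ ((io S).map ((adj.homEquiv Y _).symm f))
  have hΦ : ∀ Y, Function.Bijective (Φ Y) := fun Y =>
    ((kadj R S).homEquiv _ _).bijective.comp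
      (Function.Bijective.comp (g := fun f : (tbc R S).obj Y ⟶ 𝟙_ (TR S) => (io S).map f)
        ⟨(io S).map_injective, (io S).map_surjective⟩ (adj.homEquiv Y _).symm.bijective)
  have nat : ∀ {Y Y' : TR R} (a : Y' ⟶ Y) (f : Y ⟶ G.obj (𝟙_ (TR S))),
      Φ Y' (a ≫ f) = (io R).map a ≫ Φ Y f := by
    intro Y Y' a f
    change (kadj R S).homEquiv _ _ _ = _ ≫ (kadj R S).homEquiv _ _ _
    rw [adj.homEquiv_naturality_left_symm, (io S).map_comp]
    exact (kadj R S).homEquiv_naturality_left ((io R).map a) _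
  let P : TR R := ofKP ((q R).obj (PP (MS R S))) (PP_KP _)
  obtain ⟨u, hu⟩ := (hΦ P).2 ((q R).map (aug Z hZ))
  have hb := aug_bij Z hZ
  have hbu : Function.Bijective fun f : 𝟙_ (TR R) ⟶ P => f ≫ u := by
    have h1 : (Φ (𝟙_ (TR R))) ∘ (fun f : 𝟙_ (TR R) ⟶ P => f ≫ u) =
        (fun f : 𝟙_ (KR R) ⟶ (q R).obj (PP (MS R S)) => f ≫ (q R).map (aug Z hZ)) ∘
          fun f : 𝟙_ (TR R) ⟶ P => (io R).map f := by
      funext f
      exact (nat f u).trans (congrArg (fun x => (io R).map f ≫ x) hu)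
    have h2 : Function.Bijective ((Φ (𝟙_ (TR R))) ∘ (fun f : 𝟙_ (TR R) ⟶ P => f ≫ u)) := by
      rw [h1]
      exact hb.comp ⟨(io R).map_injective, (io R).map_surjective⟩
    exact (Function.Bijective.of_comp_iff' (hΦ _) _).1 h2
  have hu' : IsIso u := isIso_of_bij hs_TR loc_all u hbu
  rw [← cancel_epi u, comp_zero]
  apply (io R).map_injective
  refine Eq.trans ?_ ((io R).map_zero _ _).symm
  exact PP_hom_zero (MS R S) (VV_MS R S h) (hom_MS R S h) _

lemma isZero_of_adj' {C D : Type*} [Category* C] [Category* D] [HasZeroMorphisms C]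
    [HasZeroMorphisms D] {F : C ⥤ D} {G : D ⥤ C} (adj : F ⊣ G) {X : D} (h : IsZero X) :
    IsZero (G.obj X) := by
  rw [IsZero.iff_id_eq_zero]
  apply (adj.homEquiv _ _).symm.injective
  exact h.eq_of_tgt _ _

lemma unit_not_zero [Nontrivial R] : ¬ IsZero (𝟙_ (TR R)) := by
  intro h
  have h1 : (io R).map (𝟙 (𝟙_ (TR R))) = (io R).map 0 := by
    congr 1
    exact h.eq_of_src _ _
  have h2 : (q R).map (ofCycle (M := zd R R) (1 : R) rfl) =
      (q R).map (ofCycle (M := zd R R) (0 : R) rfl) := by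
    refine Eq.trans ?_ (h1.trans ?_)
    · refine Eq.trans ?_ ((q R).map_id (zd R R))
      congr 1
      apply hom_ext
      intro r
      exact mul_one r
    · exact ((io R).map_zero _ _).trans q_ofCycle_zero.symm
  obtain ⟨z, hz⟩ := (q_ofCycle_eq_iff _ _ _ _).1 h2
  have h3 : (1 : R) = 0 := hz.trans (zero_add _)
  exact one_ne_zero h3

/-- `f^! 1 = 0` -/
theorem shr_unit
    (h : ∀ (n : ℕ) (η : Ext (ModuleCat.of R S) (ModuleCat.of R R) n), η = 0)
    {G : TR S ⥤ TR R} (adj : tbc R S ⊣ G) {H : TR R ⥤ TR S} (adj' : G ⊣ H) :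
    IsZero (H.obj (𝟙_ (TR R))) := by
  apply isZero_of_unit
  intro f
  apply (adj'.homEquiv _ _).symm.injective
  rw [low_unit R S h adj ((adj'.homEquiv _ _).symm f),
    low_unit R S h adj ((adj'.homEquiv _ _).symm 0)]

/-- `f^!` is not conservative -/
theorem shr_not_conservative [Nontrivial R]
    (h : ∀ (n : ℕ) (η : Ext (ModuleCat.of R S) (ModuleCat.of R R) n), η = 0)
    {G : TR S ⥤ TR R} (adj : tbc R S ⊣ G) {H : TR R ⥤ TR S} (adj' : G ⊣ H) :
    ¬ H.ReflectsIsomorphisms := by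
  intro hH
  have h1 : IsZero (H.obj (𝟙_ (TR R))) := shr_unit R S h adj adj'
  obtain ⟨O, hO⟩ := HasZeroObject.zero (C := TR R)
  have h2 : IsZero (H.obj O) := isZero_of_adj' adj' hO
  have h3 : IsIso (H.map (0 : 𝟙_ (TR R) ⟶ O)) :=
    ⟨0, h1.eq_of_src _ _, h2.eq_of_src _ _⟩
  have h4 : IsIso (0 : 𝟙_ (TR R) ⟶ O) := isIso_of_reflects_iso _ H
  exact unit_not_zero R (hO.of_iso (asIso (0 : 𝟙_ (TR R) ⟶ O)))

end

end Pool.Agent.Helper46.DK
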