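import Pool.Agent.Helper46.DK.Copr

/-!
# DK: internal homs
-/

set_option autoImplicit false

namespace Pool.Agent.Helper46.DK

open CategoryTheory Limits TensorProduct MonoidalCategory

variable {R : Type} [CommRing R] [CharP R 2]

/-- internal hom -/
abbrev ih (M N : DM R) : DM R where
  X := M.X →ₗ[R] N.X
  d := LinearMap.llcomp R M.X N.X N.X N.d + LinearMap.lcomp R N.X M.d
  dd h := by
    apply LinearMap.ext
    intro x
    change N.d (N.d (h x) + h (M.d x)) + (N.d (h (M.d x)) + h (M.d (M.d x))) = 0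
    rw [map_add, N.dd, M.dd, map_zero, zero_add, add_zero, add_self (R := R)]

lemma ih_d {M N : DM R} (h : (ih M N).X) (x : M.X) :
    ((ih M N).d h : M.X →ₗ[R] N.X) x = N.d (h x) + h (M.d x) := rfl

/-- evaluation -/
abbrev ev (M N : DM R) : tens (ih M N) M ⟶ N where
  f := TensorProduct.lift LinearMap.id
  comm := comm_of (ih M N) M N _ fun h x => by
    change (N.d (h x) + h (M.d x)) + h (M.d x) = N.d (h x)
    rw [add_assoc, add_self (R := R), add_zero]

lemma ev_tmul (M N : DM R) (h : (ih M N).X) (x : M.X) : (ev M N).f (h ⊗ₜ x) = h x := rfl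

/-- currying -/
abbrev cur {Z M N : DM R} (f : tens Z M ⟶ N) : Z ⟶ ih M N where
  f := TensorProduct.curry f.f
  comm z := by
    apply LinearMap.ext
    intro x
    change f.f (Z.d z ⊗ₜ x) = N.d (f.f (z ⊗ₜ x)) + f.f (z ⊗ₜ M.d x)
    rw [← f.comm, tens_d, map_add, add_assoc, add_self (R := R), add_zero]

lemma cur_ev {Z M N : DM R} (f : tens Z M ⟶ N) : wr (cur f) M ≫ ev M N = f :=
  DHom.ext (TensorProduct.ext' fun _ _ => rfl)

/-- internal hom in the homotopy category -/
abbrev ihK (X N : KR R) : KR R := ⟨ih X.as N.as⟩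

/-- evaluation in the homotopy category -/
abbrev evK (X N : KR R) : ihK X N ⊗ X ⟶ N := (q R).map (ev X.as N.as)

theorem ev_bijective (Z X N : KR R) :
    Function.Bijective (fun g : Z ⟶ ihK X N => g ▷ X ≫ evK X N) := by
  constructor
  · intro g g' h
    obtain ⟨g, rfl⟩ := (q R).map_surjective (X := Z.as) (Y := ih X.as N.as) g
    obtain ⟨g', rfl⟩ := (q R).map_surjective (X := Z.as) (Y := ih X.as N.as) g'
    have h1 : (q R).map (wr g X.as ≫ ev X.as N.as) = (q R).map (wr g' X.as ≫ ev X.as N.as) := h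
    rw [q_eq_iff] at h1 ⊢
    obtain ⟨k, hk⟩ := h1
    refine ⟨TensorProduct.curry k, fun z => ?_⟩
    apply LinearMap.ext
    intro x
    have h2 := hk (z ⊗ₜ x)
    rw [tens_d, map_add] at h2
    change (g.f z) x = (g'.f z) x + (N.as.d (k (z ⊗ₜ x)) + (k (Z.as.d z ⊗ₜ x) + k (z ⊗ₜ X.as.d x)))
      at h2
    change (g.f z) x = (g'.f z) x + ((N.as.d (k (z ⊗ₜ x)) + k (z ⊗ₜ X.as.d x)) +
      k (Z.as.d z ⊗ₜ x))
    rw [h2]
    abel
  · intro f
    obtain ⟨f, rfl⟩ := (q R).map_surjective (X := tens Z.as X.as) (Y := N.as) f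
    exact ⟨(q R).map (cur f), congrArg (q R).map (cur_ev f)⟩

end Pool.Agent.Helper46.DK
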