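import Pool.Agent.Helper46.DK.Cone

/-!
# DK: the zero object
-/

set_option autoImplicit false

namespace Pool.Agent.Helper46.DK

open CategoryTheory Limits

variable {R : Type} [CommRing R]

/-- a module with zero differential -/
abbrev zd (R : Type) [CommRing R] (X : Type) [AddCommGroup X] [Module R X] : DM R where
  X := X
  d := 0
  dd _ := rfl

lemma isZero_of_subsingleton (M : DM R) [Subsingleton M.X] : IsZero ((q R).obj M) := by
  rw [IsZero.iff_id_eq_zero, ← (q R).map_id, ← (q R).map_zero]
  congr 1
  ext x
  exact Subsingleton.elim _ _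

instance : HasZeroObject (KR R) :=
  ⟨(q R).obj (zd R PUnit), isZero_of_subsingleton _⟩

/-- An object is zero if the identity is homotopic to zero. -/
lemma isZero_iff (M : DM R) : IsZero ((q R).obj M) ↔
    ∃ h : M.X →ₗ[R] M.X, ∀ x, x = M.d (h x) + h (M.d x) := by
  rw [IsZero.iff_id_eq_zero, ← (q R).map_id, ← (q R).map_zero, q_eq_iff]
  simp

end Pool.Agent.Helper46.DK
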