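import Pool.Agent.Helper46.DK.Cone
import Pool.Agent.Helper46.DK.Zero

/-!
# DK: the tensor product of differential modules
-/

set_option autoImplicit false

namespace Pool.Agent.Helper46.DK

open CategoryTheory TensorProduct MonoidalCategory

variable {R : Type} [CommRing R]

/-- isomorphisms from linear equivalences -/
def mkIso {M N : DM R} (e : M.X ≃ₗ[R] N.X) (h : ∀ x, e (M.d x) = N.d (e x)) : M ≅ N where
  hom := ⟨e.toLinearMap, h⟩
  inv := ⟨e.symm.toLinearMap, fun x => by
    apply e.injective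
    change e (e.symm _) = e (M.d (e.symm x))
    rw [h, e.apply_symm_apply, e.apply_symm_apply]⟩
  hom_inv_id := hom_ext _ _ fun x => e.symm_apply_apply x
  inv_hom_id := hom_ext _ _ fun x => e.apply_symm_apply x

variable [CharP R 2]

/-- `(M ⊗ N, d ⊗ 1 + 1 ⊗ d)` -/
abbrev tens (M N : DM R) : DM R where
  X := M.X ⊗[R] N.X
  d := LinearMap.rTensor N.X M.d + LinearMap.lTensor M.X N.d
  dd x := by
    induction x with
    | zero => simp
    | tmul a b => simp [add_self (R := R)]
    | add a b ha hb => rw [map_add, map_add, ha, hb, add_zero]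

lemma tens_d (M N : DM R) (a : M.X) (b : N.X) :
    (tens M N).d (a ⊗ₜ b) = M.d a ⊗ₜ b + a ⊗ₜ N.d b := rfl

/-- chain maps on tensor products -/
lemma comm_of (M N P : DM R) (f : (tens M N).X →ₗ[R] P.X)
    (h : ∀ a b, f (M.d a ⊗ₜ b) + f (a ⊗ₜ N.d b) = P.d (f (a ⊗ₜ b))) (x : (tens M N).X) :
    f ((tens M N).d x) = P.d (f x) := by
  change M.X ⊗[R] N.X at x
  induction x with
  | zero => simp
  | tmul a b => rw [tens_d, map_add, h]
  | add a b ha hb => rw [map_add, map_add, map_add, map_add, ha, hb]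

/-- whiskering -/
abbrev wl (M : DM R) {N P : DM R} (f : N ⟶ P) : tens M N ⟶ tens M P where
  f := LinearMap.lTensor M.X f.f
  comm := comm_of M N (tens M P) _ fun a b => by
    change M.d a ⊗ₜ f.f b + a ⊗ₜ f.f (N.d b) = M.d a ⊗ₜ f.f b + a ⊗ₜ P.d (f.f b)
    rw [f.comm]

abbrev wr {M N : DM R} (f : M ⟶ N) (P : DM R) : tens M P ⟶ tens N P where
  f := LinearMap.rTensor P.X f.f
  comm := comm_of M P (tens N P) _ fun a b => by
    change f.f (M.d a) ⊗ₜ b + f.f a ⊗ₜ P.d b = N.d (f.f a) ⊗ₜ b + f.f a ⊗ₜ P.d b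
    rw [f.comm]

abbrev tmap {M N P Q : DM R} (f : M ⟶ N) (g : P ⟶ Q) : tens M P ⟶ tens N Q where
  f := TensorProduct.map f.f g.f
  comm := comm_of M P (tens N Q) _ fun a b => by
    change f.f (M.d a) ⊗ₜ g.f b + f.f a ⊗ₜ g.f (P.d b) = N.d (f.f a) ⊗ₜ g.f b + f.f a ⊗ₜ Q.d (g.f b)
    rw [f.comm, g.comm]

abbrev assoc (M N P : DM R) : tens (tens M N) P ≅ tens M (tens N P) :=
  mkIso (TensorProduct.assoc R M.X N.X P.X) (comm_of (tens M N) P (tens M (tens N P))
    (TensorProduct.assoc R M.X N.X P.X).toLinearMap fun a b => by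
      change M.X ⊗[R] N.X at a
      induction a with
      | zero => simp
      | tmul x y =>
        rw [tens_d, add_tmul, map_add]
        change M.d x ⊗ₜ (y ⊗ₜ b) + x ⊗ₜ (N.d y ⊗ₜ b) + x ⊗ₜ (y ⊗ₜ P.d b) =
          M.d x ⊗ₜ (y ⊗ₜ b) + x ⊗ₜ (N.d y ⊗ₜ b + y ⊗ₜ P.d b)
        rw [tmul_add, add_assoc]
      | add x y hx hy =>
        simp only [map_add, add_tmul] at hx hy ⊢
        rw [← hx, ← hy]
        abel)

abbrev lunit (M : DM R) : tens (zd R R) M ≅ M :=
  mkIso (TensorProduct.lid R M.X) (comm_of (zd R R) M M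
    (TensorProduct.lid R M.X).toLinearMap fun a b => by simp)

abbrev runit (M : DM R) : tens M (zd R R) ≅ M :=
  mkIso (TensorProduct.rid R M.X) (comm_of M (zd R R) M
    (TensorProduct.rid R M.X).toLinearMap fun a b => by simp)

abbrev swap (M N : DM R) : tens M N ≅ tens N M :=
  mkIso (TensorProduct.comm R M.X N.X) (comm_of M N (tens N M)
    (TensorProduct.comm R M.X N.X).toLinearMap fun a b => by
      change b ⊗ₜ M.d a + N.d b ⊗ₜ a = N.d b ⊗ₜ a + b ⊗ₜ M.d a
      rw [add_comm])

instance : MonoidalCategory (DM R) where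
  tensorObj := tens
  whiskerLeft M _ _ f := wl M f
  whiskerRight f P := wr f P
  tensorHom f g := tmap f g
  tensorUnit := zd R R
  associator := assoc
  leftUnitor := lunit
  rightUnitor := runit
  tensorHom_def f g := DHom.ext (TensorProduct.ext' fun a b => rfl)
  id_tensorHom_id M N := DHom.ext (TensorProduct.ext' fun a b => rfl)
  tensorHom_comp_tensorHom f g f' g' := DHom.ext (TensorProduct.ext' fun a b => rfl)
  whiskerLeft_id M N := DHom.ext (TensorProduct.ext' fun a b => rfl)
  id_whiskerRight M N := DHom.ext (TensorProduct.ext' fun a b => rfl)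
  associator_naturality f g h := DHom.ext (TensorProduct.ext_threefold fun a b c => rfl)
  leftUnitor_naturality {M N} f := DHom.ext (TensorProduct.ext' fun a b => by
    change a • f.f b = f.f (a • b)
    rw [map_smul])
  rightUnitor_naturality {M N} f := DHom.ext (TensorProduct.ext' fun a b => by
    change b • f.f a = f.f (b • a)
    rw [map_smul])
  pentagon M N P Q := DHom.ext (TensorProduct.ext_fourfold fun a b c d => rfl)
  triangle M N := DHom.ext (TensorProduct.ext_threefold fun a b c => by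
    change a ⊗ₜ (b • c) = (b • a) ⊗ₜ c
    rw [tmul_smul, smul_tmul'])

instance : SymmetricCategory (DM R) where
  braiding := swap
  braiding_naturality_right M N P f := DHom.ext (TensorProduct.ext' fun a b => rfl)
  braiding_naturality_left f P := DHom.ext (TensorProduct.ext' fun a b => rfl)
  hexagon_forward M N P := DHom.ext (TensorProduct.ext_threefold fun a b c => rfl)
  hexagon_reverse M N P := DHom.ext (TensorProduct.ext_threefold' fun a b c => rfl)
  symmetry M N := DHom.ext (TensorProduct.ext' fun a b => rfl)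

end Pool.Agent.Helper46.DK
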