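import Pool.Agent.Helper46.DK.Pret

/-!
# DK: the octahedron axiom
-/

set_option autoImplicit false

namespace Pool.Agent.Helper46.DK

open CategoryTheory Limits Pretriangulated

variable {R : Type} [CommRing R] [CharP R 2]

section

variable {X Y Z : DM R} (f : X ⟶ Y) (g : Y ⟶ Z)

/-- `(y, x) ↦ (g y, x)` -/
def om₁ : cone f ⟶ cone (f ≫ g) where
  f := LinearMap.prod (g.f ∘ₗ LinearMap.fst R _ _) (LinearMap.snd R _ _)
  comm x := by
    refine Prod.ext ?_ rfl
    change g.f (Y.d x.1 + f.f x.2) = Z.d (g.f x.1) + g.f (f.f x.2)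
    rw [map_add, g.comm]

/-- `(z, x) ↦ (z, f x)` -/
def om₃ : cone (f ≫ g) ⟶ cone g where
  f := LinearMap.prod (LinearMap.fst R _ _) (f.f ∘ₗ LinearMap.snd R _ _)
  comm x := Prod.ext rfl (f.comm x.2)

/-- `((z, x), (y, x')) ↦ (z, y + f x)` -/
def osig : cone (om₁ f g) ⟶ cone g where
  f := LinearMap.prod (LinearMap.fst R Z.X X.X ∘ₗ LinearMap.fst R (Z.X × X.X) (Y.X × X.X))
    (LinearMap.fst R Y.X X.X ∘ₗ LinearMap.snd R (Z.X × X.X) (Y.X × X.X) +
      f.f ∘ₗ LinearMap.snd R Z.X X.X ∘ₗ LinearMap.fst R (Z.X × X.X) (Y.X × X.X))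
  comm := by
    rintro ⟨⟨z, x⟩, ⟨y, x'⟩⟩
    refine Prod.ext ?_ ?_
    · change Z.d z + g.f (f.f x) + g.f y = Z.d z + g.f (y + f.f x)
      rw [map_add]
      abel
    · change Y.d y + f.f x' + f.f (X.d x + x') = Y.d (y + f.f x)
      rw [map_add, map_add, f.comm, show Y.d y + f.f x' + (Y.d (f.f x) + f.f x') =
        Y.d y + Y.d (f.f x) + (f.f x' + f.f x') by abel, add_self (R := R), add_zero]

/-- `(z, y) ↦ ((z, 0), (y, 0))` -/
def orho : cone g ⟶ cone (om₁ f g) where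
  f := LinearMap.prod (LinearMap.inl R Z.X X.X ∘ₗ LinearMap.fst R Z.X Y.X)
    (LinearMap.inl R Y.X X.X ∘ₗ LinearMap.snd R Z.X Y.X)
  comm := by
    rintro ⟨z, y⟩
    refine Prod.ext (Prod.ext ?_ ?_) (Prod.ext ?_ ?_)
    · change Z.d z + g.f y = Z.d z + g.f (f.f 0) + g.f y
      rw [map_zero, map_zero, add_zero]
    · change (0 : X.X) = X.d 0 + 0
      rw [map_zero, add_zero]
    · change Y.d y = Y.d y + f.f 0
      rw [map_zero, add_zero]
    · change (0 : X.X) = X.d 0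
      rw [map_zero]

lemma orho_osig : orho f g ≫ osig f g = 𝟙 _ := by
  apply hom_ext
  rintro ⟨z, y⟩
  refine Prod.ext rfl ?_
  change y + f.f 0 = y
  rw [map_zero, add_zero]

lemma osig_orho : (q R).map (osig f g ≫ orho f g) = (q R).map (𝟙 (cone (om₁ f g))) := by
  rw [q_eq_iff]
  refine ⟨LinearMap.prod 0 (LinearMap.inr R Y.X X.X ∘ₗ LinearMap.snd R Z.X X.X ∘ₗ
    LinearMap.fst R (Z.X × X.X) (Y.X × X.X)), ?_⟩
  rintro ⟨⟨z, x⟩, ⟨y, x'⟩⟩
  refine Prod.ext (Prod.ext ?_ ?_) (Prod.ext ?_ ?_)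
  · change z = z + (Z.d 0 + g.f (f.f 0) + g.f 0 + 0)
    simp
  · change (0 : X.X) = x + (X.d 0 + x + 0)
    rw [map_zero, zero_add, add_zero, add_self (R := R)]
  · change y + f.f x = y + (Y.d 0 + f.f x + 0)
    rw [map_zero, zero_add, add_zero]
  · change (0 : X.X) = x' + (X.d x + (X.d x + x'))
    rw [show x' + (X.d x + (X.d x + x')) = (x' + x') + (X.d x + X.d x) by abel,
      add_self (R := R), add_self (R := R), add_zero]

/-- the iso of the third objects -/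
noncomputable def oiso : (q R).obj (cone g) ≅ (q R).obj (cone (om₁ f g)) where
  hom := (q R).map (orho f g)
  inv := (q R).map (osig f g)
  hom_inv_id := by rw [← (q R).map_comp, orho_osig, (q R).map_id]
  inv_hom_id := by rw [← (q R).map_comp, osig_orho, (q R).map_id]

lemma omem : Triangle.mk (X := (q R).obj (cone f)) ((q R).map (om₁ f g)) ((q R).map (om₃ f g))
    ((q R).map (snd g ≫ inl f)) ∈ distTriang (KR R) := by
  refine ⟨_, _, om₁ f g, ⟨Triangle.isoMk _ _ (Iso.refl _) (Iso.refl _) (oiso f g) ?_ ?_ ?_⟩⟩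
  · change (q R).map (om₁ f g) ≫ 𝟙 _ = 𝟙 _ ≫ (q R).map (om₁ f g)
    simp
  · have h : inl (om₁ f g) ≫ osig f g = om₃ f g := by
      apply hom_ext
      rintro ⟨z, x⟩
      refine Prod.ext rfl ?_
      change 0 + f.f x = f.f x
      rw [zero_add]
    change (q R).map (om₃ f g) ≫ (q R).map (orho f g) = 𝟙 _ ≫ (q R).map (inl (om₁ f g))
    rw [Category.id_comp, ← h, (q R).map_comp, Category.assoc, ← (q R).map_comp, osig_orho,
      (q R).map_id, Category.comp_id]
  · have h : orho f g ≫ snd (om₁ f g) = snd g ≫ inl f := rfl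
    change (q R).map (snd g ≫ inl f) ≫ 𝟙 _ = (q R).map (orho f g) ≫ (q R).map (snd (om₁ f g))
    rw [Category.comp_id, ← (q R).map_comp, h]

end

instance : IsTriangulated (KR R) := IsTriangulated.mk' (by
  rintro ⟨X⟩ ⟨Y⟩ ⟨Z⟩ f g
  obtain ⟨f, rfl⟩ := (q R).map_surjective (X := X) (Y := Y) f
  obtain ⟨g, rfl⟩ := (q R).map_surjective (X := Y) (Y := Z) g
  refine ⟨_, _, _, _, _, _, (q R).map f, (q R).map g, Iso.refl _, Iso.refl _, Iso.refl _,
    by simp, by simp, _, _, tri_dist f, _, _, tri_dist g, (q R).map (inl (f ≫ g)),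
    (q R).map (snd (f ≫ g)), ?_, ⟨⟨(q R).map (om₁ f g), (q R).map (om₃ f g), ?_, ?_, ?_, ?_, ?_⟩⟩⟩
  · rw [← (q R).map_comp]
    exact tri_dist (f ≫ g)
  · change (q R).map (inl f) ≫ (q R).map (om₁ f g) = (q R).map g ≫ (q R).map (inl (f ≫ g))
    rw [← (q R).map_comp, ← (q R).map_comp]
    rfl
  · change (q R).map (om₁ f g) ≫ (q R).map (snd (f ≫ g)) = (q R).map (snd f)
    rw [← (q R).map_comp]
    rfl
  · change (q R).map (inl (f ≫ g)) ≫ (q R).map (om₃ f g) = (q R).map (inl g)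
    rw [← (q R).map_comp]
    congr 1
    apply hom_ext
    intro x
    exact Prod.ext rfl (map_zero f.f)
  · change (q R).map (snd (f ≫ g)) ≫ (q R).map f = (q R).map (om₃ f g) ≫ (q R).map (snd g)
    rw [← (q R).map_comp, ← (q R).map_comp]
    rfl
  · exact omem f g)

end Pool.Agent.Helper46.DK
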