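import Pool.Agent.Helper46.DK.QMon
import Pool.Agent.Helper46.DK.Mon
import Pool.Agent.Helper46.DK.Octa

/-!
# DK: the tensor product on the homotopy category
-/

set_option autoImplicit false

namespace Pool.Agent.Helper46.DK

open CategoryTheory TensorProduct MonoidalCategory

variable {R : Type} [CommRing R] [CharP R 2]

instance : TensComp (htpy R) where
  left M N P f g := by
    rintro ⟨h, hh⟩
    refine ⟨LinearMap.lTensor M.X h, fun x => ?_⟩
    change M.X ⊗[R] N.X at x
    change LinearMap.lTensor M.X f.f x = LinearMap.lTensor M.X g.f x +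
      ((tens M P).d (LinearMap.lTensor M.X h x) + LinearMap.lTensor M.X h ((tens M N).d x))
    induction x with
    | zero => simp
    | tmul a b =>
      rw [tens_d, map_add]
      change a ⊗ₜ f.f b = a ⊗ₜ g.f b + ((M.d a ⊗ₜ h b + a ⊗ₜ P.d (h b)) +
        (M.d a ⊗ₜ h b + a ⊗ₜ h (N.d b)))
      rw [hh, tmul_add, tmul_add, show M.d a ⊗ₜ h b + a ⊗ₜ P.d (h b) +
        (M.d a ⊗ₜ h b + a ⊗ₜ h (N.d b)) = (M.d a ⊗ₜ[R] h b + M.d a ⊗ₜ h b) +
        (a ⊗ₜ P.d (h b) + a ⊗ₜ h (N.d b)) by abel, add_self (R := R), zero_add]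
    | add x y hx hy =>
      simp only [map_add] at hx hy ⊢
      rw [hx, hy]
      abel
  right {M N} f g P := by
    rintro ⟨h, hh⟩
    refine ⟨LinearMap.rTensor P.X h, fun x => ?_⟩
    change M.X ⊗[R] P.X at x
    change LinearMap.rTensor P.X f.f x = LinearMap.rTensor P.X g.f x +
      ((tens N P).d (LinearMap.rTensor P.X h x) + LinearMap.rTensor P.X h ((tens M P).d x))
    induction x with
    | zero => simp
    | tmul a b =>
      rw [tens_d, map_add]
      change f.f a ⊗ₜ b = g.f a ⊗ₜ b + ((N.d (h a) ⊗ₜ b + h a ⊗ₜ P.d b) +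
        (h (M.d a) ⊗ₜ b + h a ⊗ₜ P.d b))
      rw [hh, add_tmul, add_tmul, show N.d (h a) ⊗ₜ b + h a ⊗ₜ P.d b +
        (h (M.d a) ⊗ₜ b + h a ⊗ₜ P.d b) = (h a ⊗ₜ[R] P.d b + h a ⊗ₜ P.d b) +
        (N.d (h a) ⊗ₜ b + h (M.d a) ⊗ₜ b) by abel, add_self (R := R), zero_add]
    | add x y hx hy =>
      simp only [map_add] at hx hy ⊢
      rw [hx, hy]
      abel

instance : MonoidalPreadditive (DM R) where
  whiskerLeft_zero := DHom.ext (TensorProduct.ext' fun a b => tmul_zero _ _)
  zero_whiskerRight := DHom.ext (TensorProduct.ext' fun a b => zero_tmul _ _)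
  whiskerLeft_add _ _ := DHom.ext (TensorProduct.ext' fun a b => tmul_add _ _ _)
  add_whiskerRight _ _ := DHom.ext (TensorProduct.ext' fun a b => add_tmul _ _ _)

instance : MonoidalPreadditive (KR R) where
  whiskerLeft_zero {X Y Z} := congrArg (q R).map (MonoidalPreadditive.whiskerLeft_zero
    (X := X.as) (Y := Y.as) (Z := Z.as))
  zero_whiskerRight {X Y Z} := congrArg (q R).map (MonoidalPreadditive.zero_whiskerRight
    (X := X.as) (Y := Y.as) (Z := Z.as))
  whiskerLeft_add {X Y Z} f g := by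
    obtain ⟨f, rfl⟩ := (q R).map_surjective (X := Y.as) (Y := Z.as) f
    obtain ⟨g, rfl⟩ := (q R).map_surjective (X := Y.as) (Y := Z.as) g
    exact congrArg (q R).map (MonoidalPreadditive.whiskerLeft_add (X := X.as) f g)
  add_whiskerRight {X Y Z} f g := by
    obtain ⟨f, rfl⟩ := (q R).map_surjective (X := Y.as) (Y := Z.as) f
    obtain ⟨g, rfl⟩ := (q R).map_surjective (X := Y.as) (Y := Z.as) g
    exact congrArg (q R).map (MonoidalPreadditive.add_whiskerRight (X := X.as) f g)

example : SymmetricCategory (KR R) := inferInstance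

end Pool.Agent.Helper46.DK
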