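import Pool.Agent.Helper46.DK.IHom

/-!
# DK: acyclic and K-projective objects; the category `T R`
-/

set_option autoImplicit false

namespace Pool.Agent.Helper46.DK

open CategoryTheory Limits TensorProduct MonoidalCategory Pretriangulated

variable {R : Type} [CommRing R] [CharP R 2]

/-- the unit object as a property -/
def unitP (R : Type) [CommRing R] [CharP R 2] : ObjectProperty (KR R) := fun X => X = 𝟙_ (KR R)

instance : (unitP R).IsStableUnderShift ℤ where
  isStableUnderShiftBy _ := ⟨fun _ h => h⟩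

/-- acyclic objects: no homology -/
def Acyc (R : Type) [CommRing R] [CharP R 2] : ObjectProperty (KR R) := (unitP R).rightOrthogonal

instance : (Acyc R).IsTriangulated := inferInstanceAs (unitP R).rightOrthogonal.IsTriangulated

lemma acyc_iff (X : KR R) : Acyc R X ↔ ∀ f : 𝟙_ (KR R) ⟶ X, f = 0 :=
  ⟨fun h f => h f rfl, fun h Y f hY => by
    obtain rfl : Y = 𝟙_ (KR R) := hY
    exact h f⟩

/-- the chain map `R → M` of a cycle -/
def ofCycle {M : DM R} (x : M.X) (hx : M.d x = 0) : (zd R R) ⟶ M where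
  f := LinearMap.toSpanSingleton R M.X x
  comm r := by simp [hx]

lemma ofCycle_f {M : DM R} (x : M.X) (hx : M.d x = 0) (r : R) : (ofCycle x hx).f r = r • x := rfl

lemma eq_ofCycle {M : DM R} (f : zd R R ⟶ M) : ∃ hx : M.d (f.f 1) = 0, f = ofCycle (f.f 1) hx := by
  have hx : M.d (f.f 1) = 0 := by
    rw [← f.comm]
    exact map_zero f.f
  refine ⟨hx, ?_⟩
  apply hom_ext
  intro r
  rw [ofCycle_f, ← map_smul, smul_eq_mul, mul_one]

lemma q_ofCycle_eq_iff {M : DM R} (x y : M.X) (hx : M.d x = 0) (hy : M.d y = 0) :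
    (q R).map (ofCycle x hx) = (q R).map (ofCycle y hy) ↔ ∃ z, x = y + M.d z := by
  rw [q_eq_iff]
  constructor
  · rintro ⟨h, hh⟩
    refine ⟨h (1 : R), ?_⟩
    have h1 := hh (1 : R)
    rw [ofCycle_f, ofCycle_f, one_smul, one_smul] at h1
    rw [h1]
    change y + (M.d (h (1 : R)) + h 0) = _
    rw [map_zero, add_zero]
  · rintro ⟨z, hz⟩
    refine ⟨LinearMap.toSpanSingleton R M.X z, fun r => ?_⟩
    change r • x = r • y + (M.d (r • z) + (0 : R) • z)
    rw [hz, zero_smul, add_zero, map_smul, smul_add]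

lemma acyc_iff' (M : DM R) : Acyc R ((q R).obj M) ↔ ∀ x, M.d x = 0 → ∃ y, M.d y = x := by
  rw [acyc_iff]
  constructor
  · intro h x hx
    have h1 := h ((q R).map (ofCycle x hx))
    have h2 : (q R).map (ofCycle x hx) = (q R).map (ofCycle (0 : M.X) (map_zero _)) := by
      rw [h1]
      refine ((q R).map_zero _ _).symm.trans ?_
      congr 1
      apply hom_ext
      intro r
      rw [ofCycle_f, smul_zero]
      rfl
    obtain ⟨z, hz⟩ := (q_ofCycle_eq_iff _ _ _ _).1 h2
    exact ⟨z, by rw [hz, zero_add]⟩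
  · intro h f
    obtain ⟨f, rfl⟩ := (q R).map_surjective (X := zd R R) (Y := M) f
    obtain ⟨hx, hf⟩ := eq_ofCycle f
    obtain ⟨y, hy⟩ := h _ hx
    have h2 : (q R).map (ofCycle (f.f (1 : R)) hx) = (q R).map (ofCycle (0 : M.X) (map_zero _)) :=
      (q_ofCycle_eq_iff _ _ _ _).2 ⟨y, by rw [hy, zero_add]⟩
    rw [hf, h2]
    refine Eq.trans ?_ ((q R).map_zero _ _)
    congr 1
    apply hom_ext
    intro r
    rw [ofCycle_f, smul_zero]
    rfl

/-- K-projective objects -/
def KP (R : Type) [CommRing R] [CharP R 2] : ObjectProperty (KR R) := (Acyc R).leftOrthogonal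

instance : (KP R).IsTriangulated := inferInstanceAs (Acyc R).leftOrthogonal.IsTriangulated

lemma KP_unit : KP R (𝟙_ (KR R)) := fun _ f hY => (acyc_iff _).1 hY f

lemma acyc_ihK {X N : KR R} (hX : KP R X) (hN : Acyc R N) : Acyc R (ihK X N) := by
  rw [acyc_iff]
  intro g
  apply (ev_bijective _ X N).1
  change g ▷ X ≫ evK X N = (0 : _) ▷ X ≫ evK X N
  rw [MonoidalPreadditive.zero_whiskerRight, zero_comp]
  have h := hX ((λ_ X).inv ≫ g ▷ X ≫ evK X N) hN
  rw [← cancel_epi (λ_ X).inv, h, comp_zero]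

lemma KP_tensor {X Y : KR R} (hX : KP R X) (hY : KP R Y) : KP R (X ⊗ Y) := by
  intro N f hN
  obtain ⟨g, rfl⟩ := (ev_bijective X Y N).2 f
  rw [hX g (acyc_ihK hY hN)]
  change (0 : _) ▷ Y ≫ evK Y N = 0
  rw [MonoidalPreadditive.zero_whiskerRight, zero_comp]

instance : (KP R).IsMonoidal where
  prop_unit := KP_unit
  prop_tensor _ _ hX hY := KP_tensor hX hY

instance (ι : Type) : (KP R).IsClosedUnderColimitsOfShape (Discrete ι) where
  colimitsOfShape_le X := by
    rintro ⟨h⟩ Y f hY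
    apply h.isColimit.hom_ext
    intro j
    exact (h.prop_diag_obj j (h.ι.app j ≫ f) hY).trans comp_zero.symm

end Pool.Agent.Helper46.DK
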