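import Pool.Agent.Helper46.DK.Cpt

/-!
# DK: localizing subcategories, telescopes
-/

set_option autoImplicit false

namespace Pool.Agent.Helper46.DK

open CategoryTheory Limits Pretriangulated

section

variable {C : Type 1} [Category.{0} C] [Preadditive C] [HasZeroObject C] [HasShift C ℤ]
  [∀ n : ℤ, (shiftFunctor C n).Additive] [Pretriangulated C]

/-- localizing classes -/
structure IsLocz (L : ObjectProperty C) : Prop where
  iso : ∀ {X Y : C}, (X ≅ Y) → L X → L Y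
  cone : ∀ T ∈ distTriang C, L T.obj₁ → L T.obj₂ → L T.obj₃
  sum : ∀ {ι : Type} {Y : ι → C} (c : Cofan Y), IsColimit c → (∀ i, L (Y i)) → L c.pt

/-- the localizing class generated by `G` -/
def Loc (G : C) : ObjectProperty C := fun Y => ∀ L : ObjectProperty C, IsLocz L → L G → L Y

lemma loc_self (G : C) : Loc G G := fun _ _ h => h

lemma loc_isLocz (G : C) : IsLocz (Loc G) where
  iso e h L hL hG := hL.iso e (h L hL hG)
  cone T hT h1 h2 L hL hG := hL.cone T hT (h1 L hL hG) (h2 L hL hG)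
  sum c hc h L hL hG := hL.sum c hc fun i => h i L hL hG

variable [∀ ι : Type, HasCoproductsOfShape ι C]

section tel

variable (A : ℕ → C) (i : ∀ n, A n ⟶ A (n + 1))

/-- the shift map of a sequence -/
noncomputable def shf : ∐ A ⟶ ∐ A := Sigma.desc fun n => i n ≫ Sigma.ι A (n + 1)

lemma ι_shf (n : ℕ) : Sigma.ι A n ≫ shf A i = i n ≫ Sigma.ι A (n + 1) := by
  rw [shf, Sigma.ι_desc]

variable {A i}

lemma tel_inj {G : C} (hG : IsCompactObj G) (g : G ⟶ ∐ A) (hg : g ≫ (𝟙 _ - shf A i) = 0) :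
    g = 0 := by
  classical
  have hc := coproductIsCoproduct A
  obtain ⟨a, rfl⟩ := (hG ℕ A _ hc).2 g
  rw [Preadditive.comp_sub, Category.comp_id, sub_eq_zero] at hg
  have hp : ∀ n, Sigma.ι A n ≫ prj hc n = 𝟙 _ := fun n => inj_prj hc n
  have hp' : ∀ n m, n ≠ m → Sigma.ι A n ≫ prj hc m = 0 := fun n m h => inj_prj_ne hc h
  have h0 : shf A i ≫ prj hc 0 = 0 := by
    apply Sigma.hom_ext
    intro n
    rw [← Category.assoc, ι_shf, Category.assoc, hp' _ _ (by omega)]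
    rw [comp_zero, comp_zero]
  have h1 : ∀ m, shf A i ≫ prj hc (m + 1) = prj hc m ≫ i m := by
    intro m
    apply Sigma.hom_ext
    intro n
    rw [← Category.assoc, ι_shf, Category.assoc, ← Category.assoc (Sigma.ι A n)]
    by_cases h : n = m
    · subst h
      rw [hp, hp]
      rw [Category.comp_id, Category.id_comp]
    · rw [hp' _ _ (by omega), hp' _ _ h]
      rw [comp_zero, zero_comp]
  have h2 : ∀ m, a m = 0 := by
    intro m
    induction m with
    | zero =>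
      rw [← sumHom_prj G hc a 0, hg, Category.assoc, h0, comp_zero]
    | succ m ih =>
      rw [← sumHom_prj G hc a (m + 1), hg, Category.assoc, h1, ← Category.assoc, sumHom_prj, ih,
        zero_comp]
  have h3 : a = 0 := DFinsupp.ext h2
  rw [h3, map_zero]

lemma tel_fac {G : C} (hG : IsCompactObj G) (hs : Nonempty (G⟦(1 : ℤ)⟧ ≅ G)) {Z : C}
    {t : ∐ A ⟶ Z} {h : Z ⟶ (∐ A)⟦(1 : ℤ)⟧} (hT : Triangle.mk (𝟙 _ - shf A i) t h ∈ distTriang C)
    (f : G ⟶ Z) : ∃ (M : ℕ) (g : G ⟶ A M), f = g ≫ Sigma.ι A M ≫ t := by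
  obtain ⟨e⟩ := hs
  have hst : shf A i ≫ t = t := by
    have this : (𝟙 (∐ A) - shf A i) ≫ t = 0 := comp_distTriang_mor_zero₁₂ _ hT
    rw [Preadditive.sub_comp, Category.id_comp, sub_eq_zero] at this
    exact this.symm
  have hst' : ∀ n, Sigma.ι A n ≫ t = i n ≫ Sigma.ι A (n + 1) ≫ t := by
    intro n
    conv_lhs => rw [← hst]
    rw [← Category.assoc, ι_shf, Category.assoc]
  have h1 : f ≫ h = 0 := by
    obtain ⟨k, hk⟩ := (shiftFunctor C (1 : ℤ)).map_surjective (e.hom ≫ f ≫ h)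
    have h2 : k ≫ (𝟙 _ - shf A i) = 0 := by
      apply (shiftFunctor C (1 : ℤ)).map_injective
      rw [Functor.map_comp, Functor.map_zero, hk, Category.assoc, Category.assoc]
      have this : h ≫ (𝟙 (∐ A) - shf A i)⟦(1 : ℤ)⟧' = 0 := comp_distTriang_mor_zero₃₁ _ hT
      rw [this, comp_zero, comp_zero]
    rw [tel_inj hG k h2, Functor.map_zero] at hk
    rw [← cancel_epi e.hom, ← hk, comp_zero]
  obtain ⟨g, hg⟩ := Triangle.coyoneda_exact₃ _ hT f h1
  change G ⟶ ∐ A at g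
  change f = g ≫ t at hg
  have h3 : ∀ (n k : ℕ) (a : G ⟶ A n), ∃ b : G ⟶ A (n + k), a ≫ Sigma.ι A n ≫ t =
      b ≫ Sigma.ι A (n + k) ≫ t := by
    intro n k
    induction k with
    | zero => exact fun a => ⟨a, rfl⟩
    | succ k ih =>
      intro a
      obtain ⟨b, hb⟩ := ih a
      exact ⟨b ≫ i (n + k), by rw [hb, hst', Category.assoc]; rfl⟩
  have h3' : ∀ (n m : ℕ) (_ : n ≤ m) (a : G ⟶ A n), ∃ b : G ⟶ A m, a ≫ Sigma.ι A n ≫ t =
      b ≫ Sigma.ι A m ≫ t := by
    intro n m hnm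
    obtain ⟨k, rfl⟩ := Nat.exists_eq_add_of_le hnm
    exact h3 n k
  obtain ⟨s, a, ha⟩ := (compact_iff G).1 hG ℕ A _ (coproductIsCoproduct A) g
  have h4 : ∀ s : Finset ℕ, ∃ (M : ℕ) (b : G ⟶ A M),
      (∑ n ∈ s, a n ≫ Sigma.ι A n) ≫ t = b ≫ Sigma.ι A M ≫ t := by
    intro s
    induction s using Finset.induction_on with
    | empty => exact ⟨0, 0, by simp⟩
    | insert n s hn ih =>
      obtain ⟨M, b, hb⟩ := ih
      obtain ⟨b1, hb1⟩ := h3' M (max n M) (le_max_right _ _) b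
      obtain ⟨b2, hb2⟩ := h3' n (max n M) (le_max_left _ _) (a n)
      refine ⟨max n M, b2 + b1, ?_⟩
      rw [Finset.sum_insert hn, Preadditive.add_comp, Preadditive.add_comp, hb, hb1,
        Category.assoc, hb2]
  obtain ⟨M, b, hb⟩ := h4 s
  refine ⟨M, b, ?_⟩
  rw [hg, ← hb, ha]
  rfl

end tel

end

end Pool.Agent.Helper46.DK
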