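import Pool.Agent.Helper46.DK.Zero

/-!
# DK: the axioms of pretriangulated categories
-/

set_option autoImplicit false

namespace Pool.Agent.Helper46.DK

open CategoryTheory Limits Pretriangulated

variable {R : Type} [CommRing R] [CharP R 2]

lemma neg_hom {M N : KR R} (f : M ⟶ N) : -f = f := by
  obtain ⟨f, rfl⟩ := (q R).map_surjective f
  rw [← (q R).map_neg]
  congr 1
  ext x
  exact neg_eq (R := R) _

theorem dist_iso (T₁ : Triangle (KR R)) (h₁ : T₁ ∈ dist R) (T₂ : Triangle (KR R)) (e : T₂ ≅ T₁) :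
    T₂ ∈ dist R := by
  obtain ⟨M, N, f, ⟨e'⟩⟩ := h₁
  exact ⟨M, N, f, ⟨e ≪≫ e'⟩⟩

theorem tri_mem {M N : DM R} (f : M ⟶ N) : tri f ∈ dist R := ⟨M, N, f, ⟨Iso.refl _⟩⟩

theorem cone_id (M : DM R) : IsZero ((q R).obj (cone (𝟙 M))) := by
  rw [isZero_iff]
  refine ⟨LinearMap.prod 0 (LinearMap.fst R M.X M.X), fun x => ?_⟩
  obtain ⟨y, x⟩ := x
  refine Prod.ext ?_ ?_
  · simp
  · simp [← add_assoc, add_self (R := R)]

theorem dist_contractible (X : KR R) : contractibleTriangle X ∈ dist R := by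
  obtain ⟨M⟩ := X
  refine ⟨M, M, 𝟙 M, ⟨Triangle.isoMk _ _ (Iso.refl _) (Iso.refl _)
    ((isZero_zero _).iso (cone_id M)) ?_ ?_ ?_⟩⟩
  · simp [tri]
    rfl
  · exact (cone_id M).eq_of_tgt _ _
  · exact (isZero_zero _).eq_of_src _ _

theorem dist_cocone {X Y : KR R} (f : X ⟶ Y) :
    ∃ (Z : KR R) (g : Y ⟶ Z) (h : Z ⟶ X⟦(1 : ℤ)⟧), Triangle.mk f g h ∈ dist R := by
  obtain ⟨M⟩ := X
  obtain ⟨N⟩ := Y
  obtain ⟨f, rfl⟩ := (q R).map_surjective (X := M) (Y := N) f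
  exact ⟨_, _, _, tri_mem f⟩

end Pool.Agent.Helper46.DK
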