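import Pool.Agent.Helper46.DK.TenT

/-!
# DK: preservation of coproducts
-/

set_option autoImplicit false

namespace Pool.Agent.Helper46.DK

open CategoryTheory Limits MonoidalCategory

variable {R S : Type} [CommRing R] [CharP R 2] [CommRing S] [CharP S 2]

noncomputable instance (ι : Type) : CreatesColimitsOfShape (Discrete ι) (io R) :=
  inferInstanceAs (CreatesColimitsOfShape (Discrete ι) (KP R).ι)

instance io_pres (ι : Type) : PreservesColimitsOfShape (Discrete ι) (io R) := inferInstance

instance io_refl (ι : Type) : ReflectsColimitsOfShape (Discrete ι) (io R) :=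
  inferInstance

/-- The bijection of the adjunction. -/
noncomputable def evEquiv (Z X N : KR R) : ((tensorRight X).obj Z ⟶ N) ≃ (Z ⟶ ihK X N) :=
  (Equiv.ofBijective _ (ev_bijective Z X N)).symm

lemma evEquiv_symm (Z X N : KR R) (g : Z ⟶ ihK X N) :
    (evEquiv Z X N).symm g = g ▷ X ≫ evK X N := rfl

instance (X : KR R) : (tensorRight X).IsLeftAdjoint :=
  (Adjunction.adjunctionOfEquivRight (F := tensorRight X) (fun Z N => evEquiv Z X N)
    (fun Z' Z N f g => by
      apply (evEquiv Z' X N).symm.injective
      rw [Equiv.symm_apply_apply, evEquiv_symm]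
      obtain ⟨g, rfl⟩ := (evEquiv Z X N).symm.surjective g
      rw [Equiv.apply_symm_apply, evEquiv_symm, comp_whiskerRight, Category.assoc]
      rfl)).isLeftAdjoint

/-- A functor on `TR` induced by a functor on `KR` which preserves coproducts. -/
lemma lift_pres (ι : Type) (F' : TR R ⥤ TR S) (F : KR R ⥤ KR S) (e : F' ⋙ io S ≅ io R ⋙ F)
    [PreservesColimitsOfShape (Discrete ι) F] : PreservesColimitsOfShape (Discrete ι) F' := by
  have : PreservesColimitsOfShape (Discrete ι) (F' ⋙ io S) :=
    preservesColimitsOfShape_of_natIso e.symm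
  exact preservesColimitsOfShape_of_reflects_of_preserves F' (io S)

instance tenRight_pres (X : TR R) (ι : Type) :
    PreservesColimitsOfShape (Discrete ι) (tensorRight X) :=
  lift_pres ι (tensorRight X) (tensorRight ((io R).obj X)) (NatIso.ofComponents fun Y => Iso.refl _)

instance tenLeft_pres (X : TR R) (ι : Type) :
    PreservesColimitsOfShape (Discrete ι) (tensorLeft X) :=
  preservesColimitsOfShape_of_natIso (BraidedCategory.tensorLeftIsoTensorRight X).symm

end Pool.Agent.Helper46.DK
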