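import Pool.Agent.Helper46.DK.Comp

/-!
# DK: the homotopy category is pretriangulated
-/

set_option autoImplicit false

namespace Pool.Agent.Helper46.DK

open CategoryTheory Limits Pretriangulated

variable {R : Type} [CommRing R] [CharP R 2]

instance : Pretriangulated (KR R) where
  distinguishedTriangles := dist R
  isomorphic_distinguished := dist_iso
  contractible_distinguished := dist_contractible
  distinguished_cocone_triangle := dist_cocone
  rotate_distinguished_triangle := dist_rotate_iff
  complete_distinguished_triangle_morphism := dist_complete

lemma tri_dist {M N : DM R} (f : M ⟶ N) : tri f ∈ distTriang (KR R) := tri_mem f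

end Pool.Agent.Helper46.DK
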