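import Pool.Agent.Helper46.DK.KP
import Pool.Agent.Helper46.DK.Comm

/-!
# DK: the category `TR R` of K-projective differential modules
-/

set_option autoImplicit false

namespace Pool.Agent.Helper46.DK

open CategoryTheory Limits MonoidalCategory Pretriangulated

/-- The derived category of differential modules: the K-projective objects in the homotopy
category. -/
def TR (R : Type) [CommRing R] [CharP R 2] : Type 1 := (KP R).FullSubcategory

variable {R : Type} [CommRing R] [CharP R 2]

instance : Category (TR R) := inferInstanceAs (Category (KP R).FullSubcategory)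

noncomputable instance : Preadditive (TR R) :=
  inferInstanceAs (Preadditive (KP R).FullSubcategory)

noncomputable instance : MonoidalCategory (TR R) :=
  inferInstanceAs (MonoidalCategory (KP R).FullSubcategory)

noncomputable instance : SymmetricCategory (TR R) :=
  inferInstanceAs (SymmetricCategory (KP R).FullSubcategory)

instance : MonoidalPreadditive (TR R) :=
  inferInstanceAs (MonoidalPreadditive (KP R).FullSubcategory)

instance (ι : Type) : HasCoproductsOfShape ι (TR R) :=
  inferInstanceAs (HasCoproductsOfShape ι (KP R).FullSubcategory)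

instance : HasShift (TR R) ℤ := trivShift (TR R)

instance (n : ℤ) : (shiftFunctor (TR R) n).Additive := ⟨rfl⟩

/-- The inclusion. -/
def io (R : Type) [CommRing R] [CharP R 2] : TR R ⥤ KR R := (KP R).ι

/-- It is fully faithful. -/
def ioF (R : Type) [CommRing R] [CharP R 2] : (io R).FullyFaithful := (KP R).fullyFaithfulι

instance : (io R).Full := (ioF R).full
instance : (io R).Faithful := (ioF R).faithful
instance : (io R).Additive := inferInstanceAs (KP R).ι.Additive
instance : (io R).Monoidal := inferInstanceAs (KP R).ι.Monoidal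
instance : (io R).Braided := inferInstanceAs (KP R).ι.Braided

instance : (io R).CommShift ℤ := commTriv (io R)

instance : (KP R).IsClosedUnderIsomorphisms :=
  inferInstanceAs (Acyc R).leftOrthogonal.IsClosedUnderIsomorphisms

/-- An object of `TR`. -/
def ofKP (Z : KR R) (h : KP R Z) : TR R := ⟨Z, h⟩

lemma io_prop (X : TR R) : KP R ((io R).obj X) := X.2

instance : HasZeroObject (TR R) := by
  obtain ⟨Z, hZ, hK⟩ := (KP R).exists_prop_of_containsZero
  refine ⟨⟨ofKP Z hK, ?_⟩⟩
  rw [IsZero.iff_id_eq_zero] at hZ ⊢
  apply (io R).map_injective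
  rw [(io R).map_zero, (io R).map_id]
  exact hZ

/-- The image of a triangle. -/
def toK (T : Triangle (TR R)) : Triangle (KR R) :=
  Triangle.mk (X := (io R).obj T.obj₁) ((io R).map T.mor₁) ((io R).map T.mor₂)
    ((io R).map T.mor₃)

/-- It is the image under the functor on triangles. -/
def toKIso (T : Triangle (TR R)) : (io R).mapTriangle.obj T ≅ toK T :=
  Triangle.isoMk _ _ (Iso.refl _) (Iso.refl _) (Iso.refl _)
    (by
      change (io R).map T.mor₁ ≫ 𝟙 _ = 𝟙 _ ≫ (io R).map T.mor₁
      simp)
    (by
      change (io R).map T.mor₂ ≫ 𝟙 _ = 𝟙 _ ≫ (io R).map T.mor₂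
      simp)
    (by
      change ((io R).map T.mor₃ ≫ 𝟙 _) ≫ 𝟙 _ = 𝟙 _ ≫ (io R).map T.mor₃
      simp)

/-- distinguished triangles of `TR` -/
def distT (R : Type) [CommRing R] [CharP R 2] : Set (Triangle (TR R)) :=
  {T | toK T ∈ distTriang (KR R)}

lemma distT_iff (T : Triangle (TR R)) :
    T ∈ distT R ↔ (io R).mapTriangle.obj T ∈ distTriang (KR R) :=
  (distinguished_iff_of_iso (toKIso T)).symm

noncomputable instance : Pretriangulated (TR R) where
  distinguishedTriangles := distT R
  isomorphic_distinguished T₁ hT₁ T₂ e := (distT_iff _).2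
    (isomorphic_distinguished _ ((distT_iff _).1 hT₁) _ ((io R).mapTriangle.mapIso e))
  contractible_distinguished X := by
    refine isomorphic_distinguished _ (contractible_distinguished ((io R).obj X)) _
      (Triangle.isoMk _ _ (Iso.refl _) (Iso.refl _) (io R).mapZeroObject ?_ ?_ ?_)
    · change (io R).map (𝟙 X) ≫ 𝟙 _ = 𝟙 _ ≫ 𝟙 _
      simp
    · exact (isZero_zero _).eq_of_tgt _ _
    · exact ((isZero_zero _).of_iso (io R).mapZeroObject).eq_of_src _ _
  distinguished_cocone_triangle {X Y} f := by
    obtain ⟨Z', g', h', mem⟩ := distinguished_cocone_triangle ((io R).map f)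
    have hZ : KP R Z' := (KP R).ext_of_isTriangulatedClosed₃ _ mem (io_prop X) (io_prop Y)
    exact ⟨ofKP Z' hZ, (ioF R).preimage (Y := ofKP Z' hZ) g', (ioF R).preimage (X := ofKP Z' hZ) h',
      mem⟩
  rotate_distinguished_triangle T :=
    rotate_distinguished_triangle (toK T)
  complete_distinguished_triangle_morphism T₁ T₂ hT₁ hT₂ a b comm := by
    have h : (io R).map T₁.mor₁ ≫ (io R).map b = (io R).map a ≫ (io R).map T₂.mor₁ := by
      rw [← Functor.map_comp, comm, Functor.map_comp]
    obtain ⟨c, hc₁, hc₂⟩ := complete_distinguished_triangle_morphism (toK T₁)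
      (toK T₂) hT₁ hT₂ ((io R).map a) ((io R).map b) h
    obtain ⟨c', rfl⟩ : ∃ c' : T₁.obj₃ ⟶ T₂.obj₃, (io R).map c' = c := (io R).map_surjective _
    exact ⟨c', (io R).map_injective ((Functor.map_comp _ _ _).trans
      (hc₁.trans (Functor.map_comp _ _ _).symm)), (io R).map_injective
      ((Functor.map_comp _ _ _).trans (hc₂.trans (Functor.map_comp _ _ _).symm))⟩

instance : (io R).IsTriangulated where
  map_distinguished T hT := (distT_iff T).1 hT

instance : IsTriangulated (TR R) :=
  IsTriangulated.of_fully_faithful_triangulated_functor (io R)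

end Pool.Agent.Helper46.DK
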