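import Pool.Agent.Helper46.DK.QMon
import Pool.Agent.Helper46.DK.TRd

/-!
# DK: monoidal functors on quotient categories and on `TR R`
-/

set_option autoImplicit false

namespace Pool.Agent.Helper46.DK

open CategoryTheory MonoidalCategory

universe v u v' u'

namespace QMon

variable {C : Type u} [Category.{v} C] [MonoidalCategory C] {r : HomRel C} [Congruence r]
  [TensComp r] {D : Type u'} [Category.{v'} D] [MonoidalCategory D] {s : HomRel D} [Congruence s]
  [TensComp s] (F : C ⥤ D) (h : ∀ ⦃X Y : C⦄ (f g : X ⟶ Y), r f g → s (F.map f) (F.map g))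

set_option linter.unusedSectionVars false

/-- the functor on the quotient categories -/
def qlift : Quotient r ⥤ Quotient s :=
  CategoryTheory.Quotient.lift r (F ⋙ CategoryTheory.Quotient.functor s)
    (fun _ _ f g hfg => CategoryTheory.Quotient.sound s (h f g hfg))


/-- monoidal structure -/
def qliftCore [F.Monoidal] : (qlift F h).CoreMonoidal where
  εIso := (qf s).mapIso (Functor.Monoidal.εIso F)
  μIso X Y := (qf s).mapIso (Functor.Monoidal.μIso F X.as Y.as)
  μIso_hom_natural_left {X Y} f X' := by
    obtain ⟨f, rfl⟩ := (qf r).map_surjective (X := X.as) (Y := Y.as) f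
    exact congrArg (qf s).map (Functor.LaxMonoidal.μ_natural_left F f X'.as)
  μIso_hom_natural_right {X Y} X' f := by
    obtain ⟨f, rfl⟩ := (qf r).map_surjective (X := X.as) (Y := Y.as) f
    exact congrArg (qf s).map (Functor.LaxMonoidal.μ_natural_right F X'.as f)
  associativity X Y Z := congrArg (qf s).map (Functor.LaxMonoidal.associativity F X.as Y.as Z.as)
  left_unitality X := congrArg (qf s).map (Functor.LaxMonoidal.left_unitality F X.as)
  right_unitality X := congrArg (qf s).map (Functor.LaxMonoidal.right_unitality F X.as)

instance [F.Monoidal] : (qlift F h).Monoidal := (qliftCore F h).toMonoidal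

instance [SymmetricCategory C] [SymmetricCategory D] [F.Braided] : (qlift F h).Braided where
  braided X Y := congrArg (qf s).map (Functor.LaxBraided.braided (F := F) X.as Y.as)

end QMon

section

variable {R S : Type} [CommRing R] [CharP R 2] [CommRing S] [CharP S 2] (F : KR R ⥤ KR S)
  (h : ∀ X : KR R, KP R X → KP S (F.obj X))

/-- the functor on `TR` -/
def tlift : TR R ⥤ TR S := (KP S).lift (io R ⋙ F) fun X => h _ (io_prop X)

/-- it is induced by `F` -/
def tliftIso : tlift F h ⋙ io S ≅ io R ⋙ F := Iso.refl _

/-- monoidal structure -/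
noncomputable def tliftCore [F.Monoidal] : (tlift F h).CoreMonoidal where
  εIso := (ioF S).preimageIso (X := 𝟙_ (TR S)) (Y := (tlift F h).obj (𝟙_ (TR R)))
    (Functor.Monoidal.εIso F)
  μIso X Y := (ioF S).preimageIso (X := (tlift F h).obj X ⊗ (tlift F h).obj Y)
    (Y := (tlift F h).obj (X ⊗ Y)) (Functor.Monoidal.μIso F ((io R).obj X) ((io R).obj Y))
  μIso_hom_natural_left {X Y} f X' := (io S).map_injective
    (Functor.LaxMonoidal.μ_natural_left F ((io R).map f) ((io R).obj X'))
  μIso_hom_natural_right {X Y} X' f := (io S).map_injective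
    (Functor.LaxMonoidal.μ_natural_right F ((io R).obj X') ((io R).map f))
  associativity X Y Z := (io S).map_injective
    (Functor.LaxMonoidal.associativity F ((io R).obj X) ((io R).obj Y) ((io R).obj Z))
  left_unitality X := (io S).map_injective
    (Functor.LaxMonoidal.left_unitality F ((io R).obj X))
  right_unitality X := (io S).map_injective
    (Functor.LaxMonoidal.right_unitality F ((io R).obj X))

noncomputable instance [F.Monoidal] : (tlift F h).Monoidal := (tliftCore F h).toMonoidal

noncomputable instance [F.Braided] : (tlift F h).Braided where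
  braided X Y := (io S).map_injective
    (Functor.LaxBraided.braided (F := F) ((io R).obj X) ((io R).obj Y))

end

end Pool.Agent.Helper46.DK
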