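import Mathlib

/-!
# DK: monoidal structure on a quotient category
-/

set_option autoImplicit false

namespace Pool.Agent.Helper46.DK

open CategoryTheory MonoidalCategory

universe v u

/-- The relation is compatible with the tensor product. -/
class TensComp {C : Type u} [Category.{v} C] [MonoidalCategory C] (r : HomRel C) : Prop where
  left (X : C) {Y Z : C} (f g : Y ⟶ Z) : r f g → r (X ◁ f) (X ◁ g)
  right {Y Z : C} (f g : Y ⟶ Z) (X : C) : r f g → r (f ▷ X) (g ▷ X)

namespace QMon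

variable {C : Type u} [Category.{v} C] [MonoidalCategory C] (r : HomRel C) [Congruence r]
  [TensComp r]

set_option linter.unusedSectionVars false

/-- left whiskering -/
def wlF (X : C) : Quotient r ⥤ Quotient r :=
  CategoryTheory.Quotient.lift r (tensorLeft X ⋙ CategoryTheory.Quotient.functor r)
    (fun _ _ f g h => CategoryTheory.Quotient.sound r (TensComp.left X f g h))

/-- right whiskering -/
def wrF (X : C) : Quotient r ⥤ Quotient r :=
  CategoryTheory.Quotient.lift r (tensorRight X ⋙ CategoryTheory.Quotient.functor r)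
    (fun _ _ f g h => CategoryTheory.Quotient.sound r (TensComp.right f g X h))

instance : MonoidalCategoryStruct (Quotient r) where
  tensorObj X Y := ⟨X.as ⊗ Y.as⟩
  whiskerLeft X _ _ f := (wlF r X.as).map f
  whiskerRight f Y := (wrF r Y.as).map f
  tensorUnit := ⟨𝟙_ C⟩
  associator X Y Z := (CategoryTheory.Quotient.functor r).mapIso (α_ X.as Y.as Z.as)
  leftUnitor X := (CategoryTheory.Quotient.functor r).mapIso (λ_ X.as)
  rightUnitor X := (CategoryTheory.Quotient.functor r).mapIso (ρ_ X.as)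

/-- the quotient functor -/
abbrev qf : C ⥤ Quotient r := CategoryTheory.Quotient.functor r

lemma q_wl (X : C) {Y Z : C} (f : Y ⟶ Z) :
    ((qf r).obj X) ◁ (qf r).map f = (qf r).map (X ◁ f) := rfl

lemma q_wr {Y Z : C} (f : Y ⟶ Z) (X : C) :
    (qf r).map f ▷ ((qf r).obj X) = (qf r).map (f ▷ X) := rfl

lemma q_assoc (X Y Z : C) : (α_ ((qf r).obj X) ((qf r).obj Y) ((qf r).obj Z)).hom = (qf r).map (α_ X Y Z).hom :=
  rfl

lemma q_lu (X : C) : (λ_ ((qf r).obj X)).hom = (qf r).map (λ_ X).hom := rfl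

lemma q_ru (X : C) : (ρ_ ((qf r).obj X)).hom = (qf r).map (ρ_ X).hom := rfl

lemma q_tens {X Y Z W : C} (f : X ⟶ Y) (g : Z ⟶ W) :
    (qf r).map f ⊗ₘ (qf r).map g = (qf r).map (f ⊗ₘ g) := by
  refine Eq.trans (b := (qf r).map (f ▷ Z ≫ Y ◁ g)) rfl ?_
  rw [MonoidalCategory.tensorHom_def]

instance : MonoidalCategory (Quotient r) := MonoidalCategory.mk
  (tensorHom_def := fun _ _ => rfl)
  (id_tensorHom_id := fun X Y =>
    (q_tens r (𝟙 X.as) (𝟙 Y.as)).trans (congrArg (qf r).map (id_tensorHom_id X.as Y.as)))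
  (tensorHom_comp_tensorHom := fun {X₁ Y₁ Z₁ X₂ Y₂ Z₂} f₁ f₂ g₁ g₂ => by
    obtain ⟨f₁, rfl⟩ := (qf r).map_surjective (X := X₁.as) (Y := Y₁.as) f₁
    obtain ⟨f₂, rfl⟩ := (qf r).map_surjective (X := X₂.as) (Y := Y₂.as) f₂
    obtain ⟨g₁, rfl⟩ := (qf r).map_surjective (X := Y₁.as) (Y := Z₁.as) g₁
    obtain ⟨g₂, rfl⟩ := (qf r).map_surjective (X := Y₂.as) (Y := Z₂.as) g₂
    refine (congrArg₂ (· ≫ ·) (q_tens r f₁ f₂) (q_tens r g₁ g₂)).trans ?_
    refine Eq.trans ?_ (q_tens r (f₁ ≫ g₁) (f₂ ≫ g₂)).symm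
    exact congrArg (qf r).map (tensorHom_comp_tensorHom f₁ f₂ g₁ g₂))
  (whiskerLeft_id := fun X Y => congrArg (qf r).map (whiskerLeft_id X.as Y.as))
  (id_whiskerRight := fun X Y => congrArg (qf r).map (id_whiskerRight X.as Y.as))
  (associator_naturality := fun {X₁ X₂ X₃ Y₁ Y₂ Y₃} f₁ f₂ f₃ => by
    obtain ⟨f₁, rfl⟩ := (qf r).map_surjective (X := X₁.as) (Y := Y₁.as) f₁
    obtain ⟨f₂, rfl⟩ := (qf r).map_surjective (X := X₂.as) (Y := Y₂.as) f₂
    obtain ⟨f₃, rfl⟩ := (qf r).map_surjective (X := X₃.as) (Y := Y₃.as) f₃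
    have h1 := q_tens r (f₁ ⊗ₘ f₂) f₃
    rw [← q_tens] at h1
    have h2 := q_tens r f₁ (f₂ ⊗ₘ f₃)
    rw [← q_tens] at h2
    refine (congrArg₂ (· ≫ ·) h1 rfl).trans (Eq.trans ?_ (congrArg₂ (· ≫ ·) rfl h2).symm)
    exact congrArg (qf r).map (associator_naturality f₁ f₂ f₃))
  (leftUnitor_naturality := fun {X Y} f => by
    obtain ⟨f, rfl⟩ := (qf r).map_surjective (X := X.as) (Y := Y.as) f
    exact congrArg (qf r).map (leftUnitor_naturality f))
  (rightUnitor_naturality := fun {X Y} f => by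
    obtain ⟨f, rfl⟩ := (qf r).map_surjective (X := X.as) (Y := Y.as) f
    exact congrArg (qf r).map (rightUnitor_naturality f))
  (pentagon := fun W X Y Z => congrArg (qf r).map (pentagon W.as X.as Y.as Z.as))
  (triangle := fun X Y => congrArg (qf r).map (triangle X.as Y.as))

/-- The quotient functor is monoidal. -/
def coreQ : (qf r).CoreMonoidal where
  εIso := Iso.refl _
  μIso := fun _ _ => Iso.refl _
  μIso_hom_natural_left f X' := (Category.comp_id _).trans (Category.id_comp _).symm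
  μIso_hom_natural_right X' f := (Category.comp_id _).trans (Category.id_comp _).symm
  associativity X Y Z := congrArg (qf r).map (show (𝟙 (X ⊗ Y) ▷ Z) ≫ 𝟙 _ ≫ (α_ X Y Z).hom =
    (α_ X Y Z).hom ≫ (X ◁ 𝟙 (Y ⊗ Z)) ≫ 𝟙 _ by simp)
  left_unitality X := congrArg (qf r).map (show (λ_ X).hom = (𝟙 _ ▷ X) ≫ 𝟙 _ ≫ (λ_ X).hom by simp)
  right_unitality X := congrArg (qf r).map (show (ρ_ X).hom = (X ◁ 𝟙 _) ≫ 𝟙 _ ≫ (ρ_ X).hom by simp)

instance : (qf r).Monoidal := (coreQ r).toMonoidal

section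

variable [SymmetricCategory C]

instance : SymmetricCategory (Quotient r) where
  braiding X Y := (qf r).mapIso (β_ X.as Y.as)
  braiding_naturality_right X {Y Z} f := by
    obtain ⟨f, rfl⟩ := (qf r).map_surjective (X := Y.as) (Y := Z.as) f
    exact congrArg (qf r).map (BraidedCategory.braiding_naturality_right X.as f)
  braiding_naturality_left {X Y} f Z := by
    obtain ⟨f, rfl⟩ := (qf r).map_surjective (X := X.as) (Y := Y.as) f
    exact congrArg (qf r).map (BraidedCategory.braiding_naturality_left f Z.as)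
  hexagon_forward X Y Z := congrArg (qf r).map (BraidedCategory.hexagon_forward X.as Y.as Z.as)
  hexagon_reverse X Y Z := congrArg (qf r).map (BraidedCategory.hexagon_reverse X.as Y.as Z.as)
  symmetry X Y := congrArg (qf r).map (SymmetricCategory.symmetry X.as Y.as)

instance : (qf r).Braided where
  braided X Y := congrArg (qf r).map (show (𝟙 _ : X ⊗ Y ⟶ _) ≫ (β_ X Y).hom =
    (β_ X Y).hom ≫ 𝟙 _ by simp)

end

end QMon

end Pool.Agent.Helper46.DK
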