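import Pool.Agent.Helper46.DK.Rigid

/-!
# DK: compact objects of `TR R` are the rigid objects
-/

set_option autoImplicit false

namespace Pool.Agent.Helper46.DK

open CategoryTheory Limits MonoidalCategory Pretriangulated

variable {R : Type} [CommRing R] [CharP R 2]

/-- additive version -/
noncomputable def thmA {X D : TR R} (e : D ⊗ X ⟶ 𝟙_ (TR R)) (Y : TR R) :
    (𝟙_ (TR R) ⟶ (tensorRight D).obj Y) →+ (X ⟶ Y) :=
  AddMonoidHom.mk' (thm e Y) fun a b => by
    dsimp only [thm]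
    erw [MonoidalPreadditive.add_whiskerRight]
    simp only [Preadditive.add_comp, Preadditive.comp_add]

lemma thm_one {X D : TR R} (e : D ⊗ X ⟶ 𝟙_ (TR R)) (a : 𝟙_ (TR R) ⟶ 𝟙_ (TR R) ⊗ D) :
    thm e (𝟙_ (TR R)) a = (λ_ X).inv ≫ (a ≫ (λ_ D).hom) ▷ X ≫ e := by
  dsimp only [thm]
  monoidal

theorem rigid_of_compact (X : TR R) (hX : IsCompactObj X) :
    ∃ Y : TR R, Nonempty (ExactPairing X Y) := by
  letI := commTriv (tensorRight X)
  haveI := tenRightT_tri X
  obtain ⟨D, e, -, hB⟩ := brown (tensorRight X) (𝟙_ (TR R)) unit_compact_TR hs_TR (𝟙_ (TR R))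
  change D ⊗ X ⟶ 𝟙_ (TR R) at e
  have hB' : ∀ Y : TR R, Function.Bijective fun f : Y ⟶ D => f ▷ X ≫ e :=
    fun Y => hB Y (loc_all Y)
  letI := commTriv (tensorRight D)
  haveI := tenRightT_tri D
  have hL := dev_isLocz (F := tensorRight D) hs_TR unit_compact_TR hX (thmA e)
    (fun {Y Z} a g => thm_nat (Y := Y) (Z := Z) e a g)
  have h1 : Function.Bijective (thmA e (𝟙_ (TR R))) := by
    constructor
    · intro a b hab
      change 𝟙_ (TR R) ⟶ 𝟙_ (TR R) ⊗ D at a b
      change thm e _ a = thm e _ b at hab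
      rw [thm_one, thm_one, cancel_epi] at hab
      exact (cancel_mono _).1 ((hB' _).1 hab)
    · intro y
      obtain ⟨b, hb⟩ := (hB' (𝟙_ (TR R))).2 ((λ_ X).hom ≫ y)
      refine ⟨b ≫ (λ_ D).inv, ?_⟩
      change thm e _ (b ≫ (λ_ D).inv) = y
      rw [thm_one, Category.assoc, (λ_ D).inv_hom_id, Category.comp_id]
      change b ▷ X ≫ e = _ at hb
      rw [hb, Iso.inv_hom_id_assoc]
  obtain ⟨n, hn⟩ := (loc_all X _ hL h1).2 (𝟙 X)
  exact ⟨D, pairing_of e (hB' D).1 n hn⟩

theorem compact_of_rigid (X Y : TR R) (h : ExactPairing X Y) : IsCompactObj X := by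
  have hb : ∀ Z : TR R, Function.Bijective
      fun f : X ⟶ Z => (tensorRightHomEquiv (𝟙_ (TR R)) X Y Z) ((λ_ X).hom ≫ f) := by
    intro Z
    exact (tensorRightHomEquiv (𝟙_ (TR R)) X Y Z).bijective.comp
      ⟨fun f g hfg => (cancel_epi _).1 hfg, fun g => ⟨(λ_ X).inv ≫ g, by simp⟩⟩
  refine compact_transfer (tensorRight Y) (fun ι => tenRight_pres Y ι) unit_compact_TR
    (fun Z => AddMonoidHom.mk'
      (fun f : X ⟶ Z => (tensorRightHomEquiv (𝟙_ (TR R)) X Y Z) ((λ_ X).hom ≫ f)) fun f g => ?_)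
    hb (fun f g => ?_)
  · dsimp only [tensorRightHomEquiv, Equiv.coe_fn_mk]
    rw [Preadditive.comp_add, MonoidalPreadditive.add_whiskerRight]
    simp only [Preadditive.comp_add]
  · change (tensorRightHomEquiv _ _ _ _) ((λ_ X).hom ≫ f ≫ g) =
      (tensorRightHomEquiv _ _ _ _) ((λ_ X).hom ≫ f) ≫ g ▷ Y
    rw [← tensorRightHomEquiv_naturality, Category.assoc]

/-- `TR R` is a rigidly-compactly generated tensor triangulated category. -/
theorem TT_isRCG : (TT R).IsRCG where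
  coproducts ι := inferInstanceAs (HasCoproductsOfShape ι (TR R))
  generated := ⟨Unit, fun _ => 𝟙_ (TR R), fun _ => unit_compact_TR, fun X h =>
    isZero_of_unit X fun f => h () 0 f⟩
  tensorLeft X ι := tenLeft_pres X ι
  tensorRight X ι := tenRight_pres X ι
  unit := unit_compact_TR
  rigid X := ⟨fun h => rigid_of_compact X h, fun ⟨Y, ⟨h⟩⟩ => compact_of_rigid X Y h⟩

end Pool.Agent.Helper46.DK
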