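import Pool.Agent.Helper46.DK.BC
import Pool.Agent.Helper46.DK.QLift
import Pool.Agent.Helper46.DK.Rig2

/-!
# DK: restriction of scalars, the functor `f^*` on `TR`
-/

set_option autoImplicit false

namespace Pool.Agent.Helper46.DK

open CategoryTheory Limits TensorProduct MonoidalCategory Pretriangulated

variable (R S : Type) [CommRing R] [CommRing S] [Algebra R S]

/-- restriction of scalars -/
def resO (N : DM S) : DM R :=
  letI : Module R N.X := Module.compHom N.X (algebraMap R S)
  { X := N.X
    d := { toFun := fun x => N.d x
           map_add' := fun x y => N.d.map_add x y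
           map_smul' := fun r x => N.d.map_smul (algebraMap R S r) x }
    dd := N.dd }

instance (N : DM S) : Module S (resO R S N).X := inferInstanceAs (Module S N.X)

instance (N : DM S) : IsScalarTower R S (resO R S N).X where
  smul_assoc r s x := by
    change (r • s) • (show N.X from x) = algebraMap R S r • s • (show N.X from x)
    rw [Algebra.smul_def, mul_smul]

/-- the functor -/
def res : DM S ⥤ DM R where
  obj N := resO R S N
  map {M N} f :=
    { f := { toFun := fun x => f.f x
             map_add' := fun x y => f.f.map_add x y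
             map_smul' := fun r x => f.f.map_smul (algebraMap R S r) x }
      comm := f.comm }

instance : (res R S).Additive where

lemma res_htpy {M N : DM S} (f g : M ⟶ N) (h : htpy S f g) :
    htpy R ((res R S).map f) ((res R S).map g) := by
  obtain ⟨h, hh⟩ := h
  exact ⟨{ toFun := fun x => h x
           map_add' := fun x y => h.map_add x y
           map_smul' := fun r x => h.map_smul (algebraMap R S r) x }, hh⟩

/-- the unit -/
noncomputable def adjU (M : DM R) : M ⟶ (res R S).obj ((bc R S).obj M) where
  f := { toFun := fun m => (1 : S) ⊗ₜ[R] m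
         map_add' := fun x y => tmul_add _ _ _
         map_smul' := fun r x => by
           change (1 : S) ⊗ₜ[R] (r • x) = algebraMap R S r • ((1 : S) ⊗ₜ[R] x)
           rw [tmul_smul, algebraMap_smul] }
  comm m := rfl

/-- the linear map of the counit -/
noncomputable def cuL (N : DM S) : S ⊗[R] (resO R S N).X →ₗ[S] (resO R S N).X :=
  LinearMap.liftBaseChange S (LinearMap.id (R := R) (M := (resO R S N).X))

/-- the differential as an `S`-linear map -/
def dS (N : DM S) : (resO R S N).X →ₗ[S] (resO R S N).X := N.d

lemma cuL_comm (N : DM S) (x : S ⊗[R] (resO R S N).X) :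
    cuL R S N ((resO R S N).d.baseChange S x) = dS R S N (cuL R S N x) := by
  induction x with
  | zero => simp only [map_zero]
  | tmul s n =>
    change s • (show N.X from N.d n) = N.d (s • (show N.X from n))
    rw [map_smul]
  | add a b ha hb =>
    simp only [map_add] at ha hb ⊢
    rw [ha, hb]

/-- the counit -/
noncomputable def adjC (N : DM S) : (bc R S).obj ((res R S).obj N) ⟶ N where
  f := cuL R S N
  comm x := cuL_comm R S N x

/-- the adjunction -/
noncomputable def adjDM : bc R S ⊣ res R S := Adjunction.mkOfUnitCounit
  { unit :=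
      { app := adjU R S
        naturality := fun M N f => rfl }
    counit :=
      { app := adjC R S
        naturality := fun M N f => bc_ext fun m => by
          change (1 : S) • (show N.X from f.f m) = f.f ((1 : S) • (show M.X from m))
          rw [one_smul, one_smul] }
    left_triangle := by
      ext1
      funext M
      exact bc_ext fun m => by
        change (1 : S) • ((1 : S) ⊗ₜ[R] m) = (1 : S) ⊗ₜ[R] m
        rw [one_smul]
    right_triangle := by
      ext1
      funext N
      apply hom_ext
      intro n
      change (1 : S) • (show N.X from n) = n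
      rw [one_smul] }

section

variable [CharP R 2] [CharP S 2]

/-- base change on the homotopy category -/
noncomputable def kbc : KR R ⥤ KR S := QMon.qlift (bc R S) fun _ _ f g h => bc_htpy f g h

/-- restriction on the homotopy category -/
noncomputable def kres : KR S ⥤ KR R := QMon.qlift (res R S) fun _ _ f g h => res_htpy R S f g h

noncomputable instance : (kbc R S).Monoidal :=
  inferInstanceAs (QMon.qlift (bc R S) fun _ _ f g h => bc_htpy f g h).Monoidal

noncomputable instance : (kbc R S).Braided :=
  inferInstanceAs (QMon.qlift (bc R S) fun _ _ f g h => bc_htpy f g h).Braided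

instance : (kbc R S).Additive where
  map_add {X Y f g} := by
    obtain ⟨f, rfl⟩ := (q R).map_surjective (X := X.as) (Y := Y.as) f
    obtain ⟨g, rfl⟩ := (q R).map_surjective (X := X.as) (Y := Y.as) g
    exact congrArg (q S).map ((bc R S).map_add (f := f) (g := g))

instance : (kres R S).Additive where
  map_add {X Y f g} := by
    obtain ⟨f, rfl⟩ := (q S).map_surjective (X := X.as) (Y := Y.as) f
    obtain ⟨g, rfl⟩ := (q S).map_surjective (X := X.as) (Y := Y.as) g
    exact congrArg (q R).map ((res R S).map_add (f := f) (g := g))

/-- the adjunction on the homotopy categories -/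
noncomputable def kadj : kbc R S ⊣ kres R S := Adjunction.mkOfUnitCounit
  { unit :=
      { app := fun M => (q R).map (adjU R S M.as)
        naturality := fun M N f => by
          obtain ⟨f, rfl⟩ := (q R).map_surjective (X := M.as) (Y := N.as) f
          exact congrArg (q R).map ((adjDM R S).unit.naturality f) }
    counit :=
      { app := fun N => (q S).map (adjC R S N.as)
        naturality := fun M N f => by
          obtain ⟨f, rfl⟩ := (q S).map_surjective (X := M.as) (Y := N.as) f
          exact congrArg (q S).map ((adjDM R S).counit.naturality f) }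
    left_triangle := by
      ext1
      funext M
      exact congrArg (q S).map ((adjDM R S).left_triangle_components M.as)
    right_triangle := by
      ext1
      funext N
      exact congrArg (q R).map ((adjDM R S).right_triangle_components N.as) }

lemma kres_acyc (N : KR S) (h : Acyc S N) : Acyc R ((kres R S).obj N) :=
  (acyc_iff' (resO R S N.as)).2 ((acyc_iff' N.as).1 h)

lemma kbc_KP (X : KR R) (h : KP R X) : KP S ((kbc R S).obj X) := by
  intro N f hN
  apply ((kadj R S).homEquiv X N).injective
  exact (h _ (kres_acyc R S N hN)).trans (h _ (kres_acyc R S N hN)).symm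

instance (ι : Type) : PreservesColimitsOfShape (Discrete ι) (kbc R S) :=
  have := (kadj R S).leftAdjoint_preservesColimits
  inferInstance

/-- the differential of the cone -/
noncomputable def coneD {M N : DM R} (f : M ⟶ N) :
    (S ⊗[R] N.X) × (S ⊗[R] M.X) →ₗ[S] (S ⊗[R] N.X) × (S ⊗[R] M.X) :=
  (N.d.baseChange S ∘ₗ LinearMap.fst S _ _ + f.f.baseChange S ∘ₗ LinearMap.snd S _ _).prod
    (M.d.baseChange S ∘ₗ LinearMap.snd S _ _)

lemma bcCone_comm {M N : DM R} (f : M ⟶ N) (x : S ⊗[R] (N.X × M.X)) :
    TensorProduct.prodRight R S S N.X M.X ((cone f).d.baseChange S x) =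
      coneD R S f (TensorProduct.prodRight R S S N.X M.X x) := by
  induction x with
  | zero => simp only [map_zero]
  | tmul s y =>
    obtain ⟨n, m⟩ := y
    change (s ⊗ₜ[R] (N.d n + f.f m), s ⊗ₜ[R] M.d m) =
      (s ⊗ₜ[R] N.d n + s ⊗ₜ[R] f.f m, s ⊗ₜ[R] M.d m)
    rw [tmul_add]
  | add x y hx hy =>
    simp only [map_add] at hx hy ⊢
    rw [hx, hy]

/-- `S ⊗ cone f ≅ cone (S ⊗ f)` -/
noncomputable def bcCone {M N : DM R} (f : M ⟶ N) :
    (bc R S).obj (cone f) ≅ cone ((bc R S).map f) :=
  mkIso (TensorProduct.prodRight R S S N.X M.X) fun x => bcCone_comm R S f x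

lemma kbc_tri :
    letI := commTriv (kbc R S)
    (kbc R S).IsTriangulated := by
  apply tri_crit
  intro M N f
  refine ⟨_, _, (bc R S).map f, ⟨Triangle.isoMk _ _ (Iso.refl _) (Iso.refl _)
    ((q S).mapIso (bcCone R S f)) ?_ ?_ ?_⟩⟩
  · change (q S).map ((bc R S).map f) ≫ 𝟙 _ = 𝟙 _ ≫ (q S).map ((bc R S).map f)
    simp
  · have h : (bc R S).map (inl f) ≫ (bcCone R S f).hom = inl ((bc R S).map f) := bc_ext fun n => by
        change ((1 : S) ⊗ₜ[R] n, (1 : S) ⊗ₜ[R] (0 : M.X)) = ((1 : S) ⊗ₜ[R] n, 0)
        rw [tmul_zero]
    exact (congrArg (q S).map h).trans (Category.id_comp _).symm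
  · have h : (bcCone R S f).hom ≫ snd ((bc R S).map f) = (bc R S).map (snd f) :=
      bc_ext fun n => rfl
    exact (Category.comp_id _).trans (congrArg (q S).map h).symm

/-- The functor `f^*`. -/
noncomputable def tbc : TR R ⥤ TR S := tlift (kbc R S) (kbc_KP R S)

noncomputable instance : (tbc R S).Monoidal :=
  inferInstanceAs (tlift (kbc R S) (kbc_KP R S)).Monoidal

noncomputable instance tbcBraided : (tbc R S).Braided :=
  inferInstanceAs (tlift (kbc R S) (kbc_KP R S)).Braided

/-- it is induced by base change -/
noncomputable def tbcIso : tbc R S ⋙ io S ≅ io R ⋙ kbc R S := Iso.refl _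

instance tbc_pres (ι : Type) : PreservesColimitsOfShape (Discrete ι) (tbc R S) :=
  lift_pres ι (tbc R S) (kbc R S) (tbcIso R S)

noncomputable instance tbcComm : (tbc R S).CommShift ℤ := commTriv (tbc R S)

instance tbc_tri : (tbc R S).IsTriangulated :=
  lift_tri (tbc R S) (kbc R S) (tbcIso R S) (kbc_tri R S)

/-- `f^*` is a geometric functor -/
theorem tbc_geometric : IsGeometric (TT R) (TT S) (tbc R S) :=
  ⟨tbcComm R S, tbcBraided R S, tbc_tri R S, tbc_pres R S⟩

end

end Pool.Agent.Helper46.DK
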