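import Pool.Agent.Helper46.DK.Adj

/-!
# DK: the explicit K-projective resolution of a module
-/

set_option autoImplicit false

namespace Pool.Agent.Helper46.DK

open CategoryTheory Limits MonoidalCategory

/-- bundled modules -/
structure Md (R : Type) [CommRing R] where
  X : Type
  [grp : AddCommGroup X]
  [mod : Module R X]

attribute [instance] Md.grp Md.mod

variable {R : Type} [CommRing R]

/-- the syzygies -/
noncomputable def Kn (M : Md R) : ℕ → Md R
  | 0 => M
  | n + 1 => ⟨LinearMap.ker (Finsupp.linearCombination R (id : (Kn M n).X → (Kn M n).X))⟩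

variable (M : Md R)

/-- the free modules -/
abbrev Fn (n : ℕ) : Type := (Kn M n).X →₀ R

/-- the projections -/
noncomputable def pn (n : ℕ) : Fn M n →ₗ[R] (Kn M n).X :=
  Finsupp.linearCombination R (id : (Kn M n).X → (Kn M n).X)

/-- the inclusions -/
noncomputable def jn (n : ℕ) : (Kn M (n + 1)).X →ₗ[R] Fn M n :=
  (LinearMap.ker (Finsupp.linearCombination R (id : (Kn M n).X → (Kn M n).X))).subtype

lemma pn_surj (n : ℕ) : Function.Surjective (pn M n) := fun x =>
  ⟨Finsupp.single x 1, by rw [pn, Finsupp.linearCombination_single, one_smul]; rfl⟩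

lemma jn_inj (n : ℕ) : Function.Injective (jn M n) := Subtype.val_injective

lemma pj_exact (n : ℕ) : Function.Exact (jn M n) (pn M n) := fun x =>
  ⟨fun hx => ⟨⟨x, hx⟩, rfl⟩, by
    rintro ⟨y, rfl⟩
    exact y.2⟩

/-- the differential of the resolution -/
noncomputable def bn (n : ℕ) : Fn M (n + 1) →ₗ[R] Fn M n := jn M n ∘ₗ pn M (n + 1)

lemma bn_bn (n : ℕ) (x : Fn M (n + 2)) : bn M n (bn M (n + 1) x) = 0 := by
  change jn M n (pn M (n + 1) (jn M (n + 1) _)) = 0
  rw [(pj_exact M (n + 1)).apply_apply_eq_zero, map_zero]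

open scoped Classical in
/-- the total differential -/
noncomputable def dP : (DirectSum ℕ fun n => Fn M n) →ₗ[R] (DirectSum ℕ fun n => Fn M n) :=
  DirectSum.toModule R ℕ _ fun n => match n with
    | 0 => 0
    | n + 1 => DirectSum.lof R ℕ (fun n => Fn M n) n ∘ₗ bn M n

open scoped Classical in
lemma dP_zero (x : Fn M 0) : dP M (DirectSum.lof R ℕ (fun n => Fn M n) 0 x) = 0 := by
  rw [dP, DirectSum.toModule_lof]
  rfl

open scoped Classical in
lemma dP_succ (n : ℕ) (x : Fn M (n + 1)) : dP M (DirectSum.lof R ℕ (fun n => Fn M n) (n + 1) x) =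
    DirectSum.lof R ℕ (fun n => Fn M n) n (bn M n x) := by
  rw [dP, DirectSum.toModule_lof]
  rfl

/-- the resolution -/
noncomputable def PP : DM R where
  X := DirectSum ℕ fun n => Fn M n
  d := dP M
  dd x := by
    classical
    induction x using DirectSum.induction_on with
    | zero => rw [map_zero, map_zero]
    | of n x =>
      change dP M (dP M (DirectSum.lof R ℕ (fun n => Fn M n) n x)) = 0
      match n with
      | 0 => rw [dP_zero, map_zero]
      | 1 => rw [dP_succ, dP_zero]
      | n + 2 => rw [dP_succ, dP_succ, bn_bn, map_zero]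
    | add x y hx hy => rw [map_add, map_add, hx, hy, add_zero]

open scoped Classical in
/-- the inclusions of the free modules -/
noncomputable def lo (n : ℕ) : Fn M n →ₗ[R] (PP M).X := DirectSum.lof R ℕ (fun n => Fn M n) n

lemma d_lo_zero (x : Fn M 0) : (PP M).d (lo M 0 x) = 0 := dP_zero M x

lemma d_lo_succ (n : ℕ) (x : Fn M (n + 1)) : (PP M).d (lo M (n + 1) x) = lo M n (bn M n x) :=
  dP_succ M n x

/-- extensionality -/
lemma PP_ext {N : Type} [AddCommGroup N] [Module R N] {f g : (PP M).X →ₗ[R] N}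
    (h : ∀ n x, f (lo M n x) = g (lo M n x)) : f = g := by
  classical
  apply DirectSum.linearMap_ext
  intro n
  apply LinearMap.ext
  intro x
  exact h n x

/-- linear maps out of the resolution -/
noncomputable def PPd {N : Type} [AddCommGroup N] [Module R N] (f : ∀ n, Fn M n →ₗ[R] N) :
    (PP M).X →ₗ[R] N := by
  classical
  exact DirectSum.toModule R ℕ N f

lemma PPd_lo {N : Type} [AddCommGroup N] [Module R N] (f : ∀ n, Fn M n →ₗ[R] N) (n : ℕ)
    (x : Fn M n) : PPd M f (lo M n x) = f n x := by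
  classical
  exact DirectSum.toModule_lof (M := fun n => Fn M n) (φ := f) R n x

/-- the components -/
noncomputable def co (n : ℕ) : (PP M).X →ₗ[R] Fn M n := DirectSum.component R ℕ (fun n => Fn M n) n

lemma co_lo (n : ℕ) (x : Fn M n) : co M n (lo M n x) = x := by
  classical
  exact DirectSum.component.lof_self R n x

lemma co_lo_ne {n m : ℕ} (h : n ≠ m) (x : Fn M n) : co M m (lo M n x) = 0 := by
  classical
  have := DirectSum.component.of R (M := fun n => Fn M n) m n x
  rw [dif_neg h] at this
  exact this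

lemma co_d (n : ℕ) (x : (PP M).X) : co M n ((PP M).d x) = bn M n (co M (n + 1) x) := by
  have : co M n ∘ₗ (PP M).d = bn M n ∘ₗ co M (n + 1) := by
    apply PP_ext
    intro m x
    rw [LinearMap.comp_apply, LinearMap.comp_apply]
    match m with
    | 0 => rw [d_lo_zero, map_zero, co_lo_ne M (by omega), map_zero]
    | m + 1 =>
      rw [d_lo_succ]
      by_cases h : m = n
      · subst h
        rw [co_lo, co_lo]
      · rw [co_lo_ne M h, co_lo_ne M (by omega), map_zero]
  exact LinearMap.congr_fun this x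

open scoped Classical in
lemma sum_co (x : (PP M).X) : ∑ n ∈ DFinsupp.support (show DirectSum ℕ (fun n => Fn M n) from x),
    lo M n (co M n x) = x :=
  DirectSum.sum_support_of (show DirectSum ℕ (fun n => Fn M n) from x)

/-- acyclicity in positive degrees -/
lemma PP_exact (x : (PP M).X) (hx : (PP M).d x = 0) (h0 : pn M 0 (co M 0 x) = 0) :
    ∃ y, (PP M).d y = x := by
  classical
  have h1 : ∀ n, pn M n (co M n x) = 0 := by
    intro n
    match n with
    | 0 => exact h0
    | n + 1 =>
      have h2 := co_d M n x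
      rw [hx, map_zero] at h2
      exact jn_inj M n (h2.symm.trans (map_zero _).symm)
  have h2 : ∀ n, ∃ y, bn M n y = co M n x := by
    intro n
    obtain ⟨k, hk⟩ := ((pj_exact M n) _).1 (h1 n)
    obtain ⟨y, rfl⟩ := pn_surj M (n + 1) k
    exact ⟨y, hk⟩
  choose y hy using h2
  refine ⟨∑ n ∈ DFinsupp.support (show DirectSum ℕ (fun n => Fn M n) from x), lo M (n + 1) (y n), ?_⟩
  rw [map_sum]
  refine Eq.trans (Finset.sum_congr rfl fun n _ => ?_) (sum_co M x)
  rw [d_lo_succ, hy]

variable [CharP R 2]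

/-- the resolution is K-projective -/
lemma PP_KP : KP R ((q R).obj (PP M)) := by
  intro N f hN
  obtain ⟨N⟩ := N
  obtain ⟨f, rfl⟩ := (q R).map_surjective (X := PP M) (Y := N) f
  have hN' : ∀ x, N.d x = 0 → ∃ y, N.d y = x := (acyc_iff' N).1 hN
  -- lifting
  have lift : ∀ (n : ℕ) (g : Fn M n →ₗ[R] N.X), (∀ x, N.d (g x) = 0) →
      ∃ h : Fn M n →ₗ[R] N.X, ∀ x, N.d (h x) = g x := by
    intro n g hg
    choose y hy using fun k : (Kn M n).X => hN' (g (Finsupp.single k 1)) (hg _)
    refine ⟨Finsupp.linearCombination R y, fun x => ?_⟩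
    have : N.d ∘ₗ Finsupp.linearCombination R y = g := by
      apply Finsupp.lhom_ext'
      intro k
      apply LinearMap.ext_ring
      change N.d (Finsupp.linearCombination R y (Finsupp.single k 1)) = g (Finsupp.single k 1)
      rw [Finsupp.linearCombination_single, one_smul, hy]
    exact LinearMap.congr_fun this x
  have hf0 : ∀ x, N.d (f.f (lo M 0 x)) = 0 := fun x => by
    rw [← f.comm, d_lo_zero, map_zero]
  have hfs : ∀ n x, N.d (f.f (lo M (n + 1) x)) = f.f (lo M n (bn M n x)) := fun n x => by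
    rw [← f.comm, d_lo_succ]
  let St : ℕ → Type := fun n => {h : Fn M n →ₗ[R] N.X //
    ∀ x, N.d (h (bn M n x)) = f.f (lo M n (bn M n x))}
  obtain ⟨h0, hh0⟩ := lift 0 (f.f ∘ₗ lo M 0) hf0
  have step : ∀ n (s : St n), ∃ s' : St (n + 1), ∀ x, N.d (s'.1 x) + s.1 (bn M n x) =
      f.f (lo M (n + 1) x) := by
    intro n s
    obtain ⟨h, hh⟩ := lift (n + 1) (f.f ∘ₗ lo M (n + 1) - s.1 ∘ₗ bn M n) (fun x => by
      rw [LinearMap.sub_apply, map_sub, LinearMap.comp_apply, LinearMap.comp_apply, hfs, s.2,
        sub_self])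
    refine ⟨⟨h, fun x => ?_⟩, fun x => ?_⟩
    · rw [hh, LinearMap.sub_apply, LinearMap.comp_apply, LinearMap.comp_apply, bn_bn, map_zero,
        sub_zero]
    · rw [hh, LinearMap.sub_apply, LinearMap.comp_apply, LinearMap.comp_apply, sub_add_cancel]
  choose nx hnx using step
  let s : ∀ n, St n := fun n => Nat.rec ⟨h0, fun x => hh0 _⟩ (fun n s => nx n s) n
  have hs0 : ∀ x, N.d ((s 0).1 x) = f.f (lo M 0 x) := hh0
  have hs1 : ∀ n x, N.d ((s (n + 1)).1 x) + (s n).1 (bn M n x) = f.f (lo M (n + 1) x) :=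
    fun n x => hnx n (s n) x
  have key : (q R).map f = (q R).map 0 := by
    rw [q_eq_iff]
    refine ⟨PPd M fun n => (s n).1, fun x => ?_⟩
    have : f.f = N.d ∘ₗ (PPd M fun n => (s n).1) + (PPd M fun n => (s n).1) ∘ₗ (PP M).d := by
      apply PP_ext
      intro n x
      rw [LinearMap.add_apply, LinearMap.comp_apply, LinearMap.comp_apply, PPd_lo]
      match n with
      | 0 => rw [d_lo_zero, map_zero, add_zero, hs0]
      | n + 1 => rw [d_lo_succ, PPd_lo, hs1]
    rw [zero_f, zero_add]
    exact LinearMap.congr_fun this x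
  rw [key]
  exact (q R).map_zero _ _

end Pool.Agent.Helper46.DK
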