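import Pool.Agent.Helper46.DK.Dev

/-!
# DK: compact objects are the rigid objects
-/

set_option autoImplicit false

namespace Pool.Agent.Helper46.DK

open CategoryTheory Limits MonoidalCategory Pretriangulated

section

variable {C : Type 1} [Category.{0} C] [MonoidalCategory C]

/-- the map `Hom (1, Y ⊗ D) → Hom (X, Y)` of an evaluation `D ⊗ X → 1` -/
def thm {X D : C} (e : D ⊗ X ⟶ 𝟙_ C) (Y : C) (a : 𝟙_ C ⟶ Y ⊗ D) : X ⟶ Y :=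
  (λ_ X).inv ≫ a ▷ X ≫ (α_ Y D X).hom ≫ Y ◁ e ≫ (ρ_ Y).hom

lemma thm_nat {X D : C} (e : D ⊗ X ⟶ 𝟙_ C) {Y Z : C} (a : 𝟙_ C ⟶ Y ⊗ D) (g : Y ⟶ Z) :
    thm e Z (a ≫ g ▷ D) = thm e Y a ≫ g := by
  calc
    _ = 𝟙 _ ⊗≫ a ▷ X ⊗≫ (g ▷ (D ⊗ X) ≫ Z ◁ e) ⊗≫ 𝟙 _ := by
      dsimp only [thm]; monoidal
    _ = 𝟙 _ ⊗≫ a ▷ X ⊗≫ Y ◁ e ⊗≫ g := by
      rw [← whisker_exchange]; monoidal
    _ = _ := by dsimp only [thm]; monoidal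

/-- the two triangle identities -/
lemma pairing_of {X D : C} (e : D ⊗ X ⟶ 𝟙_ C)
    (hinj : Function.Injective fun f : D ⟶ D => f ▷ X ≫ e) (n : 𝟙_ C ⟶ X ⊗ D)
    (hn : thm e X n = 𝟙 X) : Nonempty (ExactPairing X D) := by
  have h1 : n ▷ X ≫ (α_ X D X).hom ≫ X ◁ e = (λ_ X).hom ≫ (ρ_ X).inv := by
    have h := congrArg (fun u => (λ_ X).hom ≫ u ≫ (ρ_ X).inv) hn
    simpa [thm] using h
  have h2 : (ρ_ D).inv ≫ D ◁ n ≫ (α_ D X D).inv ≫ e ▷ D ≫ (λ_ D).hom = 𝟙 D := by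
    apply hinj
    change ((ρ_ D).inv ≫ D ◁ n ≫ (α_ D X D).inv ≫ e ▷ D ≫ (λ_ D).hom) ▷ X ≫ e = 𝟙 D ▷ X ≫ e
    calc
      _ = 𝟙 _ ⊗≫ D ◁ (n ▷ X) ⊗≫ (e ▷ (D ⊗ X) ≫ 𝟙_ C ◁ e) ⊗≫ 𝟙 _ := by monoidal
      _ = 𝟙 _ ⊗≫ D ◁ (n ▷ X ≫ (α_ X D X).hom ≫ X ◁ e) ⊗≫ e := by
        rw [← whisker_exchange]; monoidal
      _ = _ := by rw [h1]; monoidal
  exact ⟨{ coevaluation' := n
           evaluation' := e
           coevaluation_evaluation' := by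
             have h := congrArg (fun u => (ρ_ D).hom ≫ u ≫ (λ_ D).inv) h2
             simpa using h
           evaluation_coevaluation' := h1 }⟩

end

end Pool.Agent.Helper46.DK
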