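import Pool.Agent.Helper46.DK.Pre

/-!
# DK: rotation
-/

set_option autoImplicit false

namespace Pool.Agent.Helper46.DK

open CategoryTheory Limits Pretriangulated

variable {R : Type} [CommRing R] [CharP R 2]

/-- the projection of the second cone -/
def rotProj {M N : DM R} (f : M ⟶ N) : cone (inl f) ⟶ M where
  f := LinearMap.snd R N.X M.X ∘ₗ LinearMap.fst R (N.X × M.X) N.X
  comm x := add_zero (M.d x.1.2)

/-- the section -/
def rotSec {M N : DM R} (f : M ⟶ N) : M ⟶ cone (inl f) where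
  f := LinearMap.prod (LinearMap.inr R N.X M.X) f.f
  comm x := by
    refine Prod.ext (Prod.ext ?_ ?_) ?_
    · change (0 : N.X) = (N.d 0 + f.f x) + f.f x
      rw [map_zero, zero_add, add_self (R := R)]
    · change M.d x = M.d x + 0
      rw [add_zero]
    · exact f.comm x

lemma rotSec_proj {M N : DM R} (f : M ⟶ N) : rotSec f ≫ rotProj f = 𝟙 M := by
  ext x
  rfl

lemma rotProj_sec {M N : DM R} (f : M ⟶ N) :
    (q R).map (rotProj f ≫ rotSec f) = (q R).map (𝟙 (cone (inl f))) := by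
  rw [q_eq_iff]
  refine ⟨LinearMap.prod 0 (LinearMap.fst R N.X M.X ∘ₗ LinearMap.fst R (N.X × M.X) N.X), ?_⟩
  rintro ⟨⟨y, x⟩, y'⟩
  refine Prod.ext (Prod.ext ?_ ?_) ?_
  · change (0 : N.X) = y + ((N.d 0 + f.f 0 + y) + 0)
    rw [map_zero, map_zero, zero_add, zero_add, add_zero, add_self (R := R)]
  · change x = x + ((M.d 0 + 0) + 0)
    rw [map_zero, add_zero, add_zero, add_zero]
  · change f.f x = y' + (N.d y + (N.d y + f.f x + y'))
    rw [show y' + (N.d y + (N.d y + f.f x + y')) = (y' + y') + (N.d y + N.d y) + f.f x by abel,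
      add_self (R := R), add_self (R := R), zero_add, zero_add]

/-- the rotation iso -/
noncomputable def rotIso {M N : DM R} (f : M ⟶ N) : (q R).obj M ≅ (q R).obj (cone (inl f)) where
  hom := (q R).map (rotSec f)
  inv := (q R).map (rotProj f)
  hom_inv_id := by rw [← (q R).map_comp, rotSec_proj, (q R).map_id]
  inv_hom_id := by rw [← (q R).map_comp, rotProj_sec, (q R).map_id]

theorem rotate_tri {M N : DM R} (f : M ⟶ N) : (tri f).rotate ∈ dist R := by
  refine ⟨_, _, inl f, ⟨Triangle.isoMk _ _ (Iso.refl _) (Iso.refl _) (rotIso f) ?_ ?_ ?_⟩⟩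
  · simp [tri]
    rfl
  · have h : inl (inl f) ≫ rotProj f = snd f := by ext x; rfl
    change (q R).map (snd f) ≫ (q R).map (rotSec f) = 𝟙 _ ≫ (q R).map (inl (inl f))
    rw [Category.id_comp, ← h, (q R).map_comp, Category.assoc, ← (q R).map_comp, rotProj_sec,
      (q R).map_id, Category.comp_id]
  · have h : rotSec f ≫ snd (inl f) = f := by ext x; rfl
    change (-(q R).map f) ≫ 𝟙 _ = (q R).map (rotSec f) ≫ (q R).map (snd (inl f))
    rw [neg_hom, Category.comp_id, ← (q R).map_comp, h]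

theorem dist_rotate (T : Triangle (KR R)) (h : T ∈ dist R) : T.rotate ∈ dist R := by
  obtain ⟨M, N, f, ⟨e⟩⟩ := h
  exact dist_iso _ (rotate_tri f) _ ((rotate _).mapIso e)

/-- The triple rotation is the triangle. -/
noncomputable def rotate3 (T : Triangle (KR R)) : T.rotate.rotate.rotate ≅ T := by
  refine Triangle.isoMk _ _ (Iso.refl T.obj₁) (Iso.refl T.obj₂) (Iso.refl T.obj₃) ?_ ?_ ?_
  · change (-T.mor₁) ≫ 𝟙 _ = 𝟙 _ ≫ T.mor₁
    rw [neg_hom]
    simp
  · change (-T.mor₂) ≫ 𝟙 _ = 𝟙 _ ≫ T.mor₂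
    rw [neg_hom]
    simp
  · change (-T.mor₃) ≫ 𝟙 _ = 𝟙 _ ≫ T.mor₃
    rw [neg_hom]
    simp

theorem dist_rotate_iff (T : Triangle (KR R)) : T ∈ dist R ↔ T.rotate ∈ dist R :=
  ⟨dist_rotate T, fun h => dist_iso _ (dist_rotate _ (dist_rotate _ h)) _ (rotate3 T).symm⟩

end Pool.Agent.Helper46.DK
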