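import Pool.Agent.Helper46.DK.Cat

/-!
# DK: the trivial shift on the homotopy category
-/

set_option autoImplicit false

namespace Pool.Agent.Helper46.DK

open CategoryTheory

/-- the identity shift -/
def core (C : Type*) [Category C] : ShiftMkCore C ℤ where
  F _ := 𝟭 C
  zero := Iso.refl _
  add _ _ := (Functor.leftUnitor _).symm

variable {R : Type} [CommRing R]

instance : HasShift (KR R) ℤ := hasShiftMk _ _ (core _)

lemma shift_obj (X : KR R) (n : ℤ) : X⟦n⟧ = X := rfl

lemma shift_map {X Y : KR R} (f : X ⟶ Y) (n : ℤ) : f⟦n⟧' = f := rfl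

instance (n : ℤ) : (shiftFunctor (KR R) n).Additive := ⟨rfl⟩

end Pool.Agent.Helper46.DK
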