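import Mathlib

/-!
# DK: rigidly-compactly generated tensor triangulated categories: definitions
-/

set_option autoImplicit false

namespace Pool.Agent.Helper46.DK

open CategoryTheory Limits MonoidalCategory Pretriangulated DirectSum

/-- A tensor triangulated category: a triangulated category with a symmetric monoidal structure
whose tensor product is exact in each variable, and commutes with the shifts in both variables
(compatibly, with the usual sign). -/
structure TTCat where
  C : Type 1
  [cat : Category.{0} C]
  [pre : Preadditive C]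
  [zero : HasZeroObject C]
  [shift : HasShift C ℤ]
  [add : ∀ n : ℤ, (shiftFunctor C n).Additive]
  [pret : Pretriangulated C]
  [tri : IsTriangulated C]
  [mon : MonoidalCategory C]
  [sym : SymmetricCategory C]
  [comm : (curriedTensor C).CommShift₂Int]
  exact_left : ∀ X : C, ((curriedTensor C).obj X).IsTriangulated
  exact_right : ∀ X : C, ((curriedTensor C).flip.obj X).IsTriangulated

attribute [instance] TTCat.cat TTCat.pre TTCat.zero TTCat.shift TTCat.add TTCat.pret TTCat.tri
  TTCat.mon TTCat.sym

section

variable {C : Type 1} [Category.{0} C] [Preadditive C]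

open scoped Classical in
/-- The map from the direct sum of the groups `Hom (X, Y i)` to `Hom (X, ∐ Y i)`. -/
noncomputable def sumHom (X : C) {ι : Type} {Y : ι → C} (c : Cofan Y) :
    (⨁ i, (X ⟶ Y i)) →+ (X ⟶ c.pt) :=
  DirectSum.toAddMonoid fun i => Preadditive.rightComp X (c.inj i)

/-- `X` is compact: `Hom (X, -)` commutes with coproducts. -/
def IsCompactObj (X : C) : Prop :=
  ∀ (ι : Type) (Y : ι → C) (c : Cofan Y), IsColimit c → Function.Bijective (sumHom X c)

end

/-- Rigidly-compactly generated. -/
structure TTCat.IsRCG (T : TTCat) : Prop where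
  coproducts : ∀ ι : Type, HasCoproductsOfShape ι T.C
  generated : ∃ (ι : Type) (G : ι → T.C), (∀ i, IsCompactObj (G i)) ∧
    ∀ X : T.C, (∀ i (n : ℤ) (f : (G i)⟦n⟧ ⟶ X), f = 0) → IsZero X
  tensorLeft : ∀ (X : T.C) (ι : Type), PreservesColimitsOfShape (Discrete ι) (tensorLeft X)
  tensorRight : ∀ (X : T.C) (ι : Type), PreservesColimitsOfShape (Discrete ι) (tensorRight X)
  unit : IsCompactObj (𝟙_ T.C)
  rigid : ∀ X : T.C, IsCompactObj X ↔ ∃ Y : T.C, Nonempty (ExactPairing X Y)

/-- Geometric functors. -/
def IsGeometric (T S : TTCat) (F : T.C ⥤ S.C) : Prop :=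
  ∃ (_ : F.CommShift ℤ) (_ : F.Braided), F.IsTriangulated ∧
    ∀ ι : Type, PreservesColimitsOfShape (Discrete ι) F

end Pool.Agent.Helper46.DK
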