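import Pool.Agent.Helper46.DK.TenTri
import Pool.Agent.Helper46.DK.Stat

/-!
# DK: `TR R` as a tensor triangulated category
-/

set_option autoImplicit false

namespace Pool.Agent.Helper46.DK

open CategoryTheory Limits MonoidalCategory Pretriangulated TensorProduct

section

universe v₁ v₂ u₁ u₂

variable {C : Type u₁} [Category.{v₁} C] {D : Type u₂} [Category.{v₂} D]

lemma natTrivG {F G : C ⥤ D} (τ : F ⟶ G) :
    letI := trivShift C
    letI := trivShift D
    letI := commTriv F
    letI := commTriv G
    NatTrans.CommShift τ ℤ :=
  letI := trivShift C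
  letI := trivShift D
  letI := commTriv F
  letI := commTriv G
  { shift_comm a := by
      ext X
      change 𝟙 (F.obj X) ≫ τ.app X = τ.app X ≫ 𝟙 (G.obj X)
      simp }

end

variable {R : Type} [CommRing R] [CharP R 2]

lemma tenRight_tri (X : KR R) :
    letI := commTriv (tensorRight X)
    (tensorRight X).IsTriangulated := by
  let e : tensorLeft X ≅ tensorRight X := BraidedCategory.tensorLeftIsoTensorRight X
  letI := commTriv (tensorRight X)
  letI := commTriv (tensorLeft X)
  haveI := tenLeft_tri X
  haveI : NatTrans.CommShift e.hom ℤ := natTrivG e.hom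
  exact Functor.isTriangulated_of_iso e

lemma tenLeftT_tri (X : TR R) :
    letI := commTriv (tensorLeft X)
    (tensorLeft X).IsTriangulated :=
  lift_tri (tensorLeft X) (tensorLeft ((io R).obj X)) (NatIso.ofComponents fun Y => Iso.refl _)
    (tenLeft_tri _)

lemma tenRightT_tri (X : TR R) :
    letI := commTriv (tensorRight X)
    (tensorRight X).IsTriangulated :=
  lift_tri (tensorRight X) (tensorRight ((io R).obj X)) (NatIso.ofComponents fun Y => Iso.refl _)
    (tenRight_tri _)

/-- The tensor triangulated category of differential modules. -/
noncomputable def TT (R : Type) [CommRing R] [CharP R 2] : TTCat where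
  C := TR R
  exact_left X := tenLeftT_tri X
  exact_right X := tenRightT_tri X

end Pool.Agent.Helper46.DK
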