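import Pool.Agent.Helper46.DK.TriF

/-!
# DK: the tensor product is exact
-/

set_option autoImplicit false

namespace Pool.Agent.Helper46.DK

open CategoryTheory Limits MonoidalCategory Pretriangulated TensorProduct

variable {R : Type} [CommRing R] [CharP R 2]

/-- `X ⊗ cone f ≅ cone (X ⊗ f)` -/
noncomputable def tenCone (X : DM R) {M N : DM R} (f : M ⟶ N) : tens X (cone f) ≅ cone (wl X f) :=
  mkIso (TensorProduct.prodRight R R X.X N.X M.X) (comm_of X (cone f) (cone (wl X f))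
    (TensorProduct.prodRight R R X.X N.X M.X).toLinearMap fun x y => by
      obtain ⟨n, m⟩ := y
      change (X.d x ⊗ₜ n, X.d x ⊗ₜ m) + (x ⊗ₜ (N.d n + f.f m), x ⊗ₜ M.d m) =
        ((X.d x ⊗ₜ n + x ⊗ₜ N.d n) + x ⊗ₜ f.f m, X.d x ⊗ₜ m + x ⊗ₜ M.d m)
      rw [tmul_add, Prod.mk_add_mk, add_assoc])

lemma tenLeft_tri (X : KR R) :
    letI := commTriv (tensorLeft X)
    (tensorLeft X).IsTriangulated := by
  apply tri_crit
  intro M N f
  refine ⟨_, _, wl X.as f, ⟨Triangle.isoMk _ _ (Iso.refl _) (Iso.refl _)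
    ((q R).mapIso (tenCone X.as f)) ?_ ?_ ?_⟩⟩
  · change (q R).map (wl X.as f) ≫ 𝟙 _ = 𝟙 _ ≫ (q R).map (wl X.as f)
    simp
  · have h : wl X.as (inl f) ≫ (tenCone X.as f).hom = inl (wl X.as f) :=
      DHom.ext (TensorProduct.ext' fun x n => by
        change (x ⊗ₜ n, x ⊗ₜ (0 : M.X)) = (x ⊗ₜ n, 0)
        rw [tmul_zero])
    change (q R).map (wl X.as (inl f)) ≫ (q R).map (tenCone X.as f).hom =
      𝟙 _ ≫ (q R).map (inl (wl X.as f))
    rw [Category.id_comp, ← (q R).map_comp, h]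
  · have h : (tenCone X.as f).hom ≫ snd (wl X.as f) = wl X.as (snd f) :=
      DHom.ext (TensorProduct.ext' fun x n => rfl)
    change (q R).map (wl X.as (snd f)) ≫ 𝟙 _ =
      (q R).map (tenCone X.as f).hom ≫ (q R).map (snd (wl X.as f))
    rw [Category.comp_id, ← (q R).map_comp, h]

end Pool.Agent.Helper46.DK
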