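import Pool.Agent.Helper46.DK.Two

/-!
# DK: criteria for functors to be triangulated
-/

set_option autoImplicit false

namespace Pool.Agent.Helper46.DK

open CategoryTheory Limits MonoidalCategory Pretriangulated

variable {R S : Type} [CommRing R] [CharP R 2] [CommRing S] [CharP S 2]

/-- The image of a standard triangle. -/
abbrev imTri (F : KR R ⥤ KR S) {M N : DM R} (f : M ⟶ N) : Triangle (KR S) :=
  Triangle.mk (X := F.obj ((q R).obj M)) (F.map ((q R).map f)) (F.map ((q R).map (inl f)))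
    (F.map ((q R).map (snd f)))

lemma tri_crit (F : KR R ⥤ KR S)
    (h : ∀ {M N : DM R} (f : M ⟶ N), imTri F f ∈ dist S) :
    letI := commTriv F
    F.IsTriangulated := by
  letI := commTriv F
  refine ⟨fun T hT => ?_⟩
  obtain ⟨M, N, f, ⟨e⟩⟩ := hT
  refine isomorphic_distinguished _ (h f) _ ((F.mapTriangle.mapIso e) ≪≫
    Triangle.isoMk _ _ (Iso.refl _) (Iso.refl _) (Iso.refl _) ?_ ?_ ?_)
  · change F.map ((q R).map f) ≫ 𝟙 _ = 𝟙 _ ≫ F.map ((q R).map f)
    simp
  · change F.map ((q R).map (inl f)) ≫ 𝟙 _ = 𝟙 _ ≫ F.map ((q R).map (inl f))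
    simp
  · change (F.map ((q R).map (snd f)) ≫ 𝟙 _) ≫ 𝟙 _ = 𝟙 _ ≫ F.map ((q R).map (snd f))
    simp

lemma lift_tri (F' : TR R ⥤ TR S) (F : KR R ⥤ KR S) (e : F' ⋙ io S ≅ io R ⋙ F)
    (hF : letI := commTriv F
      F.IsTriangulated) :
    letI := commTriv F'
    F'.IsTriangulated := by
  letI := commTriv F
  letI := commTriv F'
  refine ⟨fun T hT => ?_⟩
  refine isomorphic_distinguished _ (F.map_distinguished _ hT) _
    (Triangle.isoMk _ _ (e.app _) (e.app _) (e.app _) ?_ ?_ ?_)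
  · exact e.hom.naturality T.mor₁
  · exact e.hom.naturality T.mor₂
  · change (io S).map (F'.map T.mor₃ ≫ 𝟙 _) ≫ e.hom.app _ = e.hom.app _ ≫
      (F.map ((io R).map T.mor₃) ≫ 𝟙 _)
    rw [Category.comp_id, Category.comp_id]
    exact e.hom.naturality T.mor₃

end Pool.Agent.Helper46.DK
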