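import Pool.Agent.Helper46.DK.TRd

/-!
# DK: the tensor product commutes with the trivial shift
-/

set_option autoImplicit false

namespace Pool.Agent.Helper46.DK

open CategoryTheory Limits MonoidalCategory Pretriangulated

variable {R : Type} [CommRing R] [CharP R 2]

lemma neg_homT {X Y : TR R} (f : X ⟶ Y) : -f = f := by
  apply (io R).map_injective
  rw [(io R).map_neg, neg_hom]

lemma center_neg_one : (-1 : (CatCenter (TR R))ˣ) = 1 := by
  ext X
  exact neg_homT _

instance natTriv {F G : TR R ⥤ TR R} (τ : F ⟶ G) :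
    letI := commTriv F
    letI := commTriv G
    NatTrans.CommShift τ ℤ :=
  letI := commTriv F
  letI := commTriv G
  { shift_comm a := by
      ext X
      change 𝟙 (F.obj X) ≫ τ.app X = τ.app X ≫ 𝟙 (G.obj X)
      simp }

noncomputable instance : (curriedTensor (TR R)).CommShift₂Int where
  commShiftObj X := commTriv _
  commShift_map f := natTriv _
  commShiftFlipObj X := commTriv _
  commShift_flip_map f := natTriv _
  comm X Y m n := by
    have h1 : ((CommShift₂Setup.int (D := TR R)).ε m n).val.app (X ⊗ Y) = 𝟙 (X ⊗ Y) := by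
      change (((-1 : (CatCenter (TR R))ˣ) ^ (m * n)).val).app (X ⊗ Y) = 𝟙 (X ⊗ Y)
      rw [center_neg_one, one_zpow]
      rfl
    have h2 : (shiftComm (X ⊗ Y) m n).inv = 𝟙 (X ⊗ Y) := rfl
    change 𝟙 (X ⊗ Y) ≫ 𝟙 (X ⊗ Y) = 𝟙 (X ⊗ Y) ≫ 𝟙 (X ⊗ Y) ≫ (shiftComm (X ⊗ Y) m n).inv ≫
      ((CommShift₂Setup.int (D := TR R)).ε m n).val.app (X ⊗ Y)
    rw [h1, h2]
    simp only [Category.comp_id]
    exact (Category.comp_id _).symm

end Pool.Agent.Helper46.DK
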