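import Pool.Agent.Helper46.DK.Brown

/-!
# DK: the unit is a compact generator of `TR R`
-/

set_option autoImplicit false

namespace Pool.Agent.Helper46.DK

open CategoryTheory Limits MonoidalCategory Pretriangulated

variable {R : Type} [CommRing R]

lemma sum_f {M N : DM R} {ι : Type} (s : Finset ι) (a : ι → (M ⟶ N)) (x : M.X) :
    (∑ i ∈ s, a i).f x = ∑ i ∈ s, (a i).f x := by
  classical
  induction s using Finset.induction_on with
  | empty => rfl
  | insert i s hi ih => rw [Finset.sum_insert hi, Finset.sum_insert hi, add_f, ih]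

variable [CharP R 2]

lemma unit_compact_KR : IsCompactObj (𝟙_ (KR R)) := by
  classical
  apply compact_of_one
  intro ι Y
  refine ⟨cof Y, ⟨cofIsColimit Y⟩, fun f => ?_⟩
  obtain ⟨f, rfl⟩ := (q R).map_surjective (X := zd R R) (Y := dsum fun i => (Y i).as) f
  obtain ⟨hx, hf⟩ := eq_ofCycle f
  generalize f.f (1 : R) = x at hx hf
  subst hf
  have hx' : ∀ i, (Y i).as.d (x i) = 0 := by
    intro i
    have h1 := DFunLike.congr_fun hx i
    rwa [DirectSum.lmap_apply] at h1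
  refine ⟨DFinsupp.support x, fun i => (q R).map (ofCycle (x i) (hx' i)), ?_⟩
  change (q R).map (ofCycle x hx) = ∑ i ∈ DFinsupp.support x,
    (q R).map (ofCycle (x i) (hx' i)) ≫ (q R).map (inc (fun i => (Y i).as) i)
  simp only [← (q R).map_comp]
  rw [← (q R).map_sum]
  congr 1
  apply hom_ext
  intro r
  rw [sum_f]
  refine (congrArg (r • ·) (DirectSum.sum_support_of x).symm).trans ?_
  refine (Finset.smul_sum).trans (Finset.sum_congr rfl fun i _ => ?_)
  exact ((inc (fun i => (Y i).as) i).f.map_smul r (x i)).symm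

lemma unit_compact_TR : IsCompactObj (𝟙_ (TR R)) :=
  compact_transfer (io R) (fun ι => io_pres ι) unit_compact_KR
    (fun _ => (io R).mapAddHom) (fun _ => ⟨(io R).map_injective, (io R).map_surjective⟩)
    (fun f g => (io R).map_comp f g)

lemma hs_TR (Y : TR R) : Nonempty (Y⟦(1 : ℤ)⟧ ≅ Y) := ⟨Iso.refl _⟩

lemma hs_KR (Y : KR R) : Nonempty (Y⟦(1 : ℤ)⟧ ≅ Y) := ⟨Iso.refl _⟩

/-- acyclic K-projective objects vanish -/
lemma isZero_of_acyc (Y : TR R) (h : Acyc R ((io R).obj Y)) : IsZero Y := by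
  rw [IsZero.iff_id_eq_zero]
  exact (io R).map_injective (io_prop Y _ h)

lemma isZero_of_unit (Y : TR R) (h : ∀ f : 𝟙_ (TR R) ⟶ Y, f = 0) : IsZero Y := by
  apply isZero_of_acyc
  rw [acyc_iff]
  intro f
  obtain ⟨f, rfl⟩ := (io R).map_surjective (X := 𝟙_ (TR R)) (Y := Y) f
  rw [h f]
  rfl

section

variable {C : Type 1} [Category.{0} C] [Preadditive C] [HasZeroObject C] [HasShift C ℤ]
  [∀ n : ℤ, (shiftFunctor C n).Additive] [Pretriangulated C]

/-- the cone of a map which is bijective on `Hom (G, -)` is orthogonal to `G` -/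
lemma cone_orth {G : C} (hs : Nonempty (G⟦(1 : ℤ)⟧ ≅ G)) {P N Z : C} {x : P ⟶ N} {i : N ⟶ Z}
    {δ : Z ⟶ P⟦(1 : ℤ)⟧} (hT : Triangle.mk x i δ ∈ distTriang C)
    (h : Function.Bijective fun f : G ⟶ P => f ≫ x) (f : G ⟶ Z) : f = 0 := by
  obtain ⟨e⟩ := hs
  have h1 : f ≫ δ = 0 := by
    obtain ⟨k, hk⟩ := (shiftFunctor C (1 : ℤ)).map_surjective (e.hom ≫ f ≫ δ)
    have h2 : k ≫ x = 0 := by
      apply (shiftFunctor C (1 : ℤ)).map_injective
      rw [Functor.map_comp, Functor.map_zero, hk, Category.assoc, Category.assoc]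
      have this : δ ≫ x⟦(1 : ℤ)⟧' = 0 := comp_distTriang_mor_zero₃₁ _ hT
      rw [this, comp_zero, comp_zero]
    have h3 : k = 0 := h.1 (by
      change k ≫ x = 0 ≫ x
      rw [h2, zero_comp])
    rw [h3, Functor.map_zero] at hk
    rw [← cancel_epi e.hom, ← hk, comp_zero]
  obtain ⟨g, hg⟩ := Triangle.coyoneda_exact₃ _ hT f h1
  change G ⟶ N at g
  change f = g ≫ i at hg
  obtain ⟨k, hk⟩ := h.2 g
  change k ≫ x = g at hk
  have h4 : x ≫ i = 0 := comp_distTriang_mor_zero₁₂ _ hT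
  rw [hg, ← hk, Category.assoc, h4, comp_zero]

/-- left orthogonals are localizing -/
lemma orth_isLocz (hs : ∀ Y : C, Nonempty (Y⟦(1 : ℤ)⟧ ≅ Y)) (X : C) :
    IsLocz (C := C) (fun Y => ∀ f : Y ⟶ X, f = 0) where
  iso e h f := by
    rw [← cancel_epi e.hom, h (e.hom ≫ f), comp_zero]
  cone T hT h1 h2 f := by
    obtain ⟨g, rfl⟩ := Triangle.yoneda_exact₃ _ hT f (h2 _)
    obtain ⟨e⟩ := hs T.obj₁
    have : g = 0 := by
      rw [← cancel_epi e.inv, h1 (e.inv ≫ g), comp_zero]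
    rw [this, comp_zero]
  sum c hc h f := hc.hom_ext fun ⟨i⟩ => (h i _).trans (comp_zero).symm

end

/-- every object of `TR R` is in the localizing class of the unit -/
theorem loc_all (Y : TR R) : Loc (𝟙_ (TR R)) Y := by
  obtain ⟨P, x, hP, hB⟩ := brown (𝟭 (TR R)) (𝟙_ (TR R)) unit_compact_TR hs_TR Y
  change P ⟶ Y at x
  obtain ⟨Z, i, δ, hT⟩ := distinguished_cocone_triangle x
  have hZ : IsZero Z := isZero_of_unit Z
    (cone_orth (hs_TR _) hT (hB _ (loc_self _)))
  have : IsIso x := (Triangle.isZero₃_iff_isIso₁ _ hT).1 hZ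
  exact (loc_isLocz _).iso (asIso x) hP

end Pool.Agent.Helper46.DK
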